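import Mathlib

/-! BCR-Chn: a chain lemma and a density point lemma on the real line.  (Mathlib only.)

PLAN.
* `chain`: Let `t ∈ T ∩ [α, β]`.  Let `N` be a natural number with `t - α ≤ N g`.  By induction
  on `a ≤ N`: for every `r ∈ T ∩ [α, β]` with `r ≤ α + a g` one has `f r = f α`: for `a = 0`,
  `r = α`.  Step: let `r ∈ T ∩ [α,β]`, `r ≤ α + (a+1) g`.  If `r ≤ α + 2 g` then `|r - α| ≤ 3 g`,
  done.  Otherwise put `x = r - 2 g ∈ [α, β]`; there is `t' ∈ T ∩ [α, β]` with `|t' - x| ≤ g`, so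
  `t' ≤ r - g ≤ α + a g` and `|r - t'| ≤ 3 g`; hence `f r = f t' = f α`.
* `density`: a density point.  For `μ = volume` on `ℝ`,
  `IsUnifLocDoublingMeasure.ae_tendsto_measure_inter_div volume T 1` (or `Besicovitch.
  ae_tendsto_measure_inter_div`, or `VitaliFamily.ae_tendsto_measure_inter_div`; all for ARBITRARY
  sets `T`, a.e. with respect to `volume.restrict T`) gives a `θ ∈ T` (as `volume T ≠ 0`; if
  `T` is not measurable use that `ae (volume.restrict T)` contains the complement of a null set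
  and `volume.restrict T ≠ 0`; an a.e. statement for `volume.restrict T` that holds at no point of
  `T` would give `volume T = 0`, see `ae_restrict_iff'₀`-free argument: `Measure.restrict_apply`
  for the measurable hull, or simply `measure_mono_null`: `volume.restrict T {x | ¬ p x} = 0`
  implies `volume ({x | ¬ p x} ∩ T) = 0` by `Measure.le_restrict_apply`) with
  `volume (T ∩ closedBall θ δ) / volume (closedBall θ δ) → 1` as `δ → 0+`.  Given `η, δ₀` choose
  `δ < δ₀` with `volume (T ∩ closedBall θ δ) > (1 - η/4) * (2 δ)` (we may assume `η ≤ 1`).  If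
  `T ∩ Ioo c d = ∅` for some `θ-δ ≤ c`, `d ≤ θ+δ`, `η δ ≤ d - c`, then
  `T ∩ closedBall θ δ ⊆ Icc (θ-δ) (θ+δ) \ Ioo c d`, of measure `2 δ - (d - c) ≤ 2δ - η δ`, a
  contradiction. -/

namespace Bil62

open MeasureTheory Set

theorem chain {X : Type*} {T : Set ℝ} {α β g : ℝ} (hg : 0 < g) (hα : α ∈ T)
    (hT : ∀ x ∈ Icc α β, ∃ t ∈ T, t ∈ Icc α β ∧ |t - x| ≤ g) (f : ℝ → X)
    (hf : ∀ t ∈ T, ∀ t' ∈ T, t ∈ Icc α β → t' ∈ Icc α β → |t - t'| ≤ 3 * g → f t = f t') :
    ∀ t ∈ T, t ∈ Icc α β → f t = f α := by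
  have key : ∀ a : ℕ, ∀ r ∈ T, r ∈ Icc α β → r ≤ α + a * g → f r = f α := by
    intro a
    induction a with
    | zero =>
      intro r _ hr2 hr3
      have h1 : r = α := le_antisymm (by simpa using hr3) hr2.1
      rw [h1]
    | succ a ih =>
      intro r hr1 hr2 hr3
      push_cast at hr3
      have hαI : α ∈ Icc α β := ⟨le_rfl, hr2.1.trans hr2.2⟩
      rcases le_or_gt r (α + 2 * g) with h | h
      · refine hf r hr1 α hα hr2 hαI ?_
        rw [abs_of_nonneg (by linarith [hr2.1])]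
        linarith
      · obtain ⟨t', h1, h2, h3⟩ := hT (r - 2 * g) ⟨by linarith, by linarith [hr2.2]⟩
        rw [abs_le] at h3
        have h4 : f r = f t' := by
          refine hf r hr1 t' h1 hr2 h2 ?_
          rw [abs_le]
          constructor <;> linarith
        rw [h4]
        exact ih t' h1 h2 (by linarith)
  intro t ht1 ht2
  obtain ⟨N, hN⟩ := exists_nat_ge ((t - α) / g)
  refine key N t ht1 ht2 ?_
  rw [div_le_iff₀ hg] at hN
  linarith

theorem density {T : Set ℝ} (hT : volume T ≠ 0) : ∃ θ ∈ T, ∀ η > 0, ∀ δ₀ > 0, ∃ δ > 0, δ < δ₀ ∧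
    ∀ c d, θ - δ ≤ c → d ≤ θ + δ → η * δ ≤ d - c → (T ∩ Ioo c d).Nonempty := by
  have hae := Besicovitch.ae_tendsto_measure_inter_div (volume : Measure ℝ) T
  obtain ⟨θ, hθT, hθ⟩ : ∃ θ ∈ T, Filter.Tendsto
      (fun r => volume (T ∩ Metric.closedBall θ r) / volume (Metric.closedBall θ r))
      (nhdsWithin 0 (Ioi 0)) (nhds 1) := by
    by_contra hcon
    push Not at hcon
    apply hT
    have h1 : (volume.restrict T) {x | ¬ Filter.Tendsto
        (fun r => volume (T ∩ Metric.closedBall x r) / volume (Metric.closedBall x r))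
        (nhdsWithin 0 (Ioi 0)) (nhds 1)} = 0 := hae
    have h2 := Measure.le_restrict_apply (μ := (volume : Measure ℝ)) T {x | ¬ Filter.Tendsto
        (fun r => volume (T ∩ Metric.closedBall x r) / volume (Metric.closedBall x r))
        (nhdsWithin 0 (Ioi 0)) (nhds 1)}
    rw [h1] at h2
    refine measure_mono_null ?_ (le_antisymm h2 zero_le)
    intro x hx
    exact ⟨hcon x hx, hx⟩
  refine ⟨θ, hθT, fun η hη δ₀ hδ₀ => ?_⟩
  have h1 : ENNReal.ofReal (1 - η / 2) < 1 := by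
    rw [← ENNReal.ofReal_one]
    exact (ENNReal.ofReal_lt_ofReal_iff one_pos).2 (by linarith)
  have h2 := hθ.eventually (lt_mem_nhds h1)
  have h3 : ∀ᶠ r in nhdsWithin (0 : ℝ) (Ioi 0), r ∈ Ioo 0 δ₀ := Ioo_mem_nhdsGT hδ₀
  obtain ⟨δ, h4, h5⟩ := (h2.and h3).exists
  refine ⟨δ, h5.1, h5.2, fun c d hc hd hcd => ?_⟩
  by_contra hne
  rw [not_nonempty_iff_eq_empty] at hne
  have h6 : T ∩ Metric.closedBall θ δ ⊆ Icc (θ - δ) (θ + δ) \ Ioo c d := by
    rintro x ⟨hx1, hx2⟩
    rw [Real.closedBall_eq_Icc] at hx2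
    refine ⟨hx2, fun hx3 => ?_⟩
    have : x ∈ T ∩ Ioo c d := ⟨hx1, hx3⟩
    rw [hne] at this
    exact this
  have hηδ : 0 < η * δ := mul_pos hη h5.1
  have h7 : volume (T ∩ Metric.closedBall θ δ) ≤ ENNReal.ofReal ((2 - η) * δ) := by
    refine (measure_mono h6).trans ?_
    have hsub : Ioo c d ⊆ Icc (θ - δ) (θ + δ) := fun x hx =>
      ⟨hc.trans hx.1.le, hx.2.le.trans hd⟩
    rw [measure_sdiff hsub measurableSet_Ioo.nullMeasurableSet (by rw [Real.volume_Ioo]; simp),
      Real.volume_Icc, Real.volume_Ioo, ← ENNReal.ofReal_sub _ (by linarith)]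
    exact ENNReal.ofReal_le_ofReal (by linarith)
  have hδ2 : (0 : ℝ) < 2 * δ := by linarith [h5.1]
  rw [Real.volume_closedBall] at h4
  have h8 : volume (T ∩ Metric.closedBall θ δ) / ENNReal.ofReal (2 * δ) ≤
      ENNReal.ofReal (1 - η / 2) := by
    refine (ENNReal.div_le_div_right h7 _).trans ?_
    rw [← ENNReal.ofReal_div_of_pos hδ2]
    refine ENNReal.ofReal_le_ofReal (le_of_eq ?_)
    have hδ0 : δ ≠ 0 := h5.1.ne'
    field_simp
  exact absurd h4 (not_lt.2 h8)

end Bil62
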