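import Pool.Agent.BCR.TurnS

/-! BCR-CovS: soundness of the certificate: the cells cover all directions.

Induction on the list of cells; a direction of the exit cone lies in the cone of some cell. -/

namespace Bil62

open MeasureTheory Set

open scoped ComplexConjugate

open Chk

namespace ConvexPolygon

variable {n : ℕ} [NeZero n] {P : ConvexPolygon n}

theorem cell_sound {S : List Sd} (hS : P.Tab S) {i j : Fin n} {t d₁ d₂ : Sd} (ht : P.IsSd i t)
    (h₁ : P.IsSd j d₁) (h₂ : P.IsSd (j + 1) d₂) {e : Cell} {a b a' b' : ℤ}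
    (h : cellOk S t d₁ d₂ e a b a' b' = true) {u : ℂ} (hu : DComb u a b a' b') :
    ∃ l, P.Path i l (-u, - cross u (P.V (j + 1))) ∨ ∃ b r, P.Turn i j b r l u := by
  obtain ⟨ty, r, w, x, y⟩ := e
  rcases ty with _ | _ | ty
  · obtain ⟨l, hl⟩ := (turn_sound hS ht h₁ h₂ 0 w (-a) (-b) (-a') (-b')).1 h
    refine ⟨l, Or.inl ?_⟩
    have h3 := hl (-u) (by
      obtain ⟨α, β, s, hα, hβ, hαβ, hs, h4, h5⟩ := hu
      refine ⟨α, β, s, hα, hβ, hαβ, hs, ?_, ?_⟩
      · rw [Complex.neg_re]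
        push_cast
        linarith
      · rw [Complex.neg_im]
        push_cast
        linarith)
    have h4 : P.Path i l (-u, cross (-u) (P.V (j + 1))) := h3
    rw [cross_neg_left] at h4
    exact h4
  · obtain ⟨l, hl⟩ := (turn_sound hS ht h₁ h₂ r w a b a' b').1 h
    exact ⟨l, Or.inr ⟨true, r, hl u hu⟩⟩
  · obtain ⟨l, hl⟩ := (turn_sound hS ht h₁ h₂ r w a b a' b').2 h
    exact ⟨l, Or.inr ⟨false, r, hl u hu⟩⟩

/-- a direction of the exit cone in the closed half plane of a vector -/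
private theorem covs_cone {j : Fin n}
    {u : ℂ} (hu1 : cross u (P.V j) ≤ cross u (P.V (j + 1)))
    (hu2 : cross u (P.V (j + 1)) ≤ cross u (P.V (j + 1 + 1))) (v : ℂ)
    (he : 0 ≤ cross (P.V (j + 1 + 1) - P.V (j + 1)) v) (hf : 0 ≤ cross (P.V j - P.V (j + 1)) v) :
    0 ≤ cross v u := by
  have hc := P.convex (j + 1) j (P.succ_ne j).symm (P.succ_succ_ne j).symm
  have hid : cross (P.V (j + 1 + 1) - P.V (j + 1)) (P.V j - P.V (j + 1)) * cross v u =
      (cross u (P.V (j + 1)) - cross u (P.V j)) * cross (P.V (j + 1 + 1) - P.V (j + 1)) v +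
      (cross u (P.V (j + 1 + 1)) - cross u (P.V (j + 1))) * cross (P.V j - P.V (j + 1)) v := by
    unfold cross
    simp only [Complex.sub_re, Complex.sub_im]
    ring
  have h1 : 0 ≤ (cross u (P.V (j + 1)) - cross u (P.V j)) *
      cross (P.V (j + 1 + 1) - P.V (j + 1)) v := mul_nonneg (by linarith) he
  have h2 : 0 ≤ (cross u (P.V (j + 1 + 1)) - cross u (P.V (j + 1))) *
      cross (P.V j - P.V (j + 1)) v := mul_nonneg (by linarith) hf
  by_contra h3
  rw [not_le] at h3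
  have h4 := mul_neg_of_pos_of_neg hc h3
  linarith

private theorem covs_cells {S : List Sd} (hS : P.Tab S) {i j : Fin n} {t d₁ d₂ : Sd}
    (ht : P.IsSd i t) (h₁ : P.IsSd j d₁) (h₂ : P.IsSd (j + 1) d₂) {u : ℂ} (hu : ‖u‖ = 1)
    (hu1 : cross u (P.V j) ≤ cross u (P.V (j + 1)))
    (hu2 : cross u (P.V (j + 1)) ≤ cross u (P.V (j + 1 + 1))) (es : List Cell) :
    ∀ a b : ℤ, cellsOk S t d₁ d₂ es a b = true → 0 ≤ (a : ℝ) * u.im - b * u.re →
      (es ≠ [] ∨ 0 < (a : ℝ) * u.im - b * u.re) →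
    ∃ l, P.Path i l (-u, - cross u (P.V (j + 1))) ∨ ∃ b r, P.Turn i j b r l u := by
  induction es with
  | nil =>
    intro a b h h0 h3
    exfalso
    rcases h3 with h3 | h3
    · exact h3 rfl
    · unfold cellsOk at h
      rw [Bool.and_eq_true, decide_eq_true_eq, decide_eq_true_eq] at h
      obtain ⟨h4, h5⟩ := h
      have h4' : ((d₂.bx : ℝ) - d₂.ax) * b - ((d₂.bY : ℝ) - d₂.ay) * a ≤ 0 := by exact_mod_cast h4
      have h5' : ((d₁.ax : ℝ) - d₂.ax) * b - ((d₁.ay : ℝ) - d₂.ay) * a ≤ 0 := by exact_mod_cast h5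
      have h6 := covs_cone hu1 hu2 (⟨-(a : ℝ), -(b : ℝ)⟩ : ℂ) (by
        unfold cross
        rw [Complex.sub_re, Complex.sub_im, h₂.a_re, h₂.a_im, h₂.b_re, h₂.b_im]
        show 0 ≤ ((d₂.bx : ℝ) - d₂.ax) * (-(b : ℝ)) - ((d₂.bY : ℝ) - d₂.ay) * (-(a : ℝ))
        linarith) (by
        unfold cross
        rw [Complex.sub_re, Complex.sub_im, h₂.a_re, h₂.a_im, h₁.a_re, h₁.a_im]
        show 0 ≤ ((d₁.ax : ℝ) - d₂.ax) * (-(b : ℝ)) - ((d₁.ay : ℝ) - d₂.ay) * (-(a : ℝ))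
        linarith)
      unfold cross at h6
      have h7 : 0 ≤ -(a : ℝ) * u.im - -(b : ℝ) * u.re := h6
      linarith
  | cons e es ih =>
    intro a b h h0 _
    unfold cellsOk at h
    rw [Bool.and_eq_true, Bool.and_eq_true, decide_eq_true_eq] at h
    obtain ⟨⟨h4, h5⟩, h6⟩ := h
    have h4' : (0 : ℝ) < (a : ℝ) * e.y - b * e.x := by exact_mod_cast h4
    rcases le_or_gt ((e.x : ℝ) * u.im - e.y * u.re) 0 with h7 | h7
    · refine cell_sound hS ht h₁ h₂ h5 ?_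
      refine ⟨u.re * e.y - u.im * e.x, (a : ℝ) * u.im - b * u.re, (a : ℝ) * e.y - b * e.x,
        by linarith, h0, ?_, h4', by ring, by ring⟩
      by_contra h8
      have h9 : (a : ℝ) * u.im - b * u.re = 0 := by linarith
      have h10 : u.re * e.y - u.im * e.x = 0 := by linarith
      have h11 : ((a : ℝ) * e.y - b * e.x) * u.re = 0 := by
        have : ((a : ℝ) * e.y - b * e.x) * u.re =
          (u.re * e.y - u.im * e.x) * a + ((a : ℝ) * u.im - b * u.re) * e.x := by ring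
        rw [this, h9, h10]
        ring
      have h12 : ((a : ℝ) * e.y - b * e.x) * u.im = 0 := by
        have : ((a : ℝ) * e.y - b * e.x) * u.im =
          (u.re * e.y - u.im * e.x) * b + ((a : ℝ) * u.im - b * u.re) * e.y := by ring
        rw [this, h9, h10]
        ring
      have h13 : u.re = 0 := (mul_eq_zero.1 h11).resolve_left h4'.ne'
      have h14 : u.im = 0 := (mul_eq_zero.1 h12).resolve_left h4'.ne'
      have h15 : u = 0 := Complex.ext h13 h14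
      rw [h15, norm_zero] at hu
      exact zero_ne_one hu
    · exact ih e.x e.y h6 h7.le (Or.inr h7)

theorem vert_sound {S : List Sd} (hS : P.Tab S) {i j : Fin n} {t d₁ d₂ : Sd} (ht : P.IsSd i t)
    (h₁ : P.IsSd j d₁) (h₂ : P.IsSd (j + 1) d₂) {a b : ℤ} {es : List Cell} (hes : es ≠ [])
    (h : vertOk S t d₁ d₂ a b es = true) {u : ℂ} (hu : ‖u‖ = 1)
    (hu1 : cross u (P.V j) ≤ cross u (P.V (j + 1)))
    (hu2 : cross u (P.V (j + 1)) ≤ cross u (P.V (j + 1 + 1))) :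
    ∃ l, P.Path i l (-u, - cross u (P.V (j + 1))) ∨ ∃ b r, P.Turn i j b r l u := by
  unfold vertOk at h
  rw [Bool.and_eq_true, Bool.and_eq_true, decide_eq_true_eq, decide_eq_true_eq] at h
  obtain ⟨⟨h4, h5⟩, h6⟩ := h
  have h4' : (a : ℝ) * ((d₂.bY : ℝ) - d₂.ay) - b * ((d₂.bx : ℝ) - d₂.ax) ≤ 0 := by
    exact_mod_cast h4
  have h5' : (a : ℝ) * ((d₁.ay : ℝ) - d₂.ay) - b * ((d₁.ax : ℝ) - d₂.ax) ≤ 0 := by
    exact_mod_cast h5
  have h7 := covs_cone hu1 hu2 (⟨(a : ℝ), (b : ℝ)⟩ : ℂ) (by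
    unfold cross
    rw [Complex.sub_re, Complex.sub_im, h₂.a_re, h₂.a_im, h₂.b_re, h₂.b_im]
    show 0 ≤ ((d₂.bx : ℝ) - d₂.ax) * (b : ℝ) - ((d₂.bY : ℝ) - d₂.ay) * (a : ℝ)
    linarith) (by
    unfold cross
    rw [Complex.sub_re, Complex.sub_im, h₂.a_re, h₂.a_im, h₁.a_re, h₁.a_im]
    show 0 ≤ ((d₁.ax : ℝ) - d₂.ax) * (b : ℝ) - ((d₁.ay : ℝ) - d₂.ay) * (a : ℝ)
    linarith)
  unfold cross at h7
  have h8 : 0 ≤ (a : ℝ) * u.im - (b : ℝ) * u.re := h7
  exact covs_cells hS ht h₁ h₂ hu hu1 hu2 es a b h6 h8 (Or.inl hes)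

/-- certificates for all vertices that are not ends of `a_i` -/
theorem crit_of_cert {S : List Sd} (hS : P.Tab S) {i : Fin n} {t : Sd} (ht : P.IsSd i t)
    (h : ∀ j : Fin n, j ≠ i → j + 1 ≠ i → ∃ (d₁ d₂ : Sd) (a b : ℤ) (es : List Cell),
      P.IsSd j d₁ ∧ P.IsSd (j + 1) d₂ ∧ es ≠ [] ∧ vertOk S t d₁ d₂ a b es = true) :
    P.Crit i := by
  intro j hj1 hj2 u hu hu1 hu2
  obtain ⟨d₁, d₂, a, b, es, h1, h2, hes, h3⟩ := h j hj1 hj2
  exact vert_sound hS ht h1 h2 hes h3 hu hu1 hu2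

end ConvexPolygon

end Bil62
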