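import Pool.Agent.BCR.CovS

/-! BCR: certificates for a convex polygon with 4 sides (32 cells). -/

namespace Bil62

open Chk

namespace ConvexPolygon

def X4 : Fin 4 → ℤ × ℤ := ![(54, 4), (-3, 29), (-45, -23), (-1, -28)]

/-- a convex polygon with 4 sides -/
noncomputable def P4 : ConvexPolygon 4 := ofZ X4 (by decide) (by decide)

def s4_0 : Sd := ⟨54, 4, -3, 29, 2624, -2850, 3874⟩
def s4_1 : Sd := ⟨-3, 29, -45, -23, -940, 4368, 4468⟩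
def s4_2 : Sd := ⟨-45, -23, -1, -28, 1911, -440, 1961⟩
def s4_3 : Sd := ⟨-1, -28, 54, 4, 2001, 3520, 4049⟩

theorem isSd4_0 : P4.IsSd 0 s4_0 := by
  constructor <;> simp [P4, ofZ, X4, s4_0]
theorem isSd4_1 : P4.IsSd 1 s4_1 := by
  constructor <;> simp [P4, ofZ, X4, s4_1]
theorem isSd4_2 : P4.IsSd 2 s4_2 := by
  constructor <;> simp [P4, ofZ, X4, s4_2]
theorem isSd4_3 : P4.IsSd 3 s4_3 := by
  constructor <;> simp [P4, ofZ, X4, s4_3]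

def S4 : List Sd := [s4_0, s4_1, s4_2, s4_3]

theorem tab4 : P4.Tab S4 := by
  intro m d h
  match m, h with
  | 0, h => exact ⟨0, by simp only [S4, List.getElem?_cons_succ, List.getElem?_cons_zero, Option.some.injEq] at h; rw [← h]; exact isSd4_0⟩
  | 1, h => exact ⟨1, by simp only [S4, List.getElem?_cons_succ, List.getElem?_cons_zero, Option.some.injEq] at h; rw [← h]; exact isSd4_1⟩
  | 2, h => exact ⟨2, by simp only [S4, List.getElem?_cons_succ, List.getElem?_cons_zero, Option.some.injEq] at h; rw [← h]; exact isSd4_2⟩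
  | 3, h => exact ⟨3, by simp only [S4, List.getElem?_cons_succ, List.getElem?_cons_zero, Option.some.injEq] at h; rw [← h]; exact isSd4_3⟩
  | m + 4, h => simp [S4] at h

def c4_0_1 : List Cell := [
  ⟨1, 3, 1, -3, -1⟩, ⟨0, 0, 1, -1, -1⟩, ⟨2, 3, 19, -2, -3⟩]

theorem v4_0_1 : vertOk S4 s4_0 s4_1 s4_2 (-5) (1) c4_0_1 = true := by
  decide +kernel

def c4_0_2 : List Cell := [
  ⟨1, 1, 305, -1, -1⟩, ⟨0, 0, 1, 0, -1⟩, ⟨1, 1, 1, 1, -1⟩, ⟨2, 1, 17, 3, -2⟩, ⟨1, 2, 1, 2, -1⟩, ⟨2, 1, 1, 1, 0⟩]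

theorem v4_0_2 : vertOk S4 s4_0 s4_2 s4_3 (-7) (-4) c4_0_2 = true := by
  decide +kernel

def c4_1_3 : List Cell := [
  ⟨1, 3, 1, 5, 1⟩, ⟨2, 3, 1, 1, 1⟩]

theorem v4_1_3 : vertOk S4 s4_1 s4_3 s4_0 (2) (-1) c4_1_3 = true := by
  decide +kernel

def c4_1_2 : List Cell := [
  ⟨1, 1, 1, -1, -3⟩, ⟨2, 1, 1, 1, -1⟩, ⟨0, 0, 1, 3, -1⟩, ⟨2, 1, 288, 9, -1⟩]

theorem v4_1_2 : vertOk S4 s4_1 s4_2 s4_3 (-2) (-1) c4_1_2 = true := by
  decide +kernel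

def c4_2_3 : List Cell := [
  ⟨1, 3, 17, 8, -1⟩, ⟨0, 0, 17, 4, 1⟩, ⟨2, 3, 17, 5, 3⟩]

theorem v4_2_3 : vertOk S4 s4_2 s4_3 s4_0 (2) (-1) c4_2_3 = true := by
  decide +kernel

def c4_2_0 : List Cell := [
  ⟨1, 1, 1, 1, 2⟩, ⟨0, 0, 1, 0, 1⟩, ⟨1, 2, 1, -3, 5⟩, ⟨0, 0, 4355, -66, 65⟩, ⟨2, 1, 259, -4, 3⟩, ⟨0, 0, 259, -20, 13⟩, ⟨2, 1, 4355, -5, 2⟩]

theorem v4_2_0 : vertOk S4 s4_2 s4_0 s4_1 (1) (1) c4_2_0 = true := by
  decide +kernel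

def c4_3_0 : List Cell := [
  ⟨1, 1, 4114, 1, 2⟩, ⟨2, 2, 1, -1, 2⟩, ⟨0, 0, 1, -1, 1⟩, ⟨2, 1, 1, -3, 1⟩]

theorem v4_3_0 : vertOk S4 s4_3 s4_0 s4_1 (5) (6) c4_3_0 = true := by
  decide +kernel

def c4_3_1 : List Cell := [
  ⟨1, 3, 16, -3, -1⟩, ⟨0, 0, 16, -1, -1⟩, ⟨2, 3, 1, -2, -3⟩]

theorem v4_3_1 : vertOk S4 s4_3 s4_1 s4_2 (-7) (1) c4_3_1 = true := by
  decide +kernel

theorem crit4 (i : Fin 4) : P4.Crit i := by
  match i with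
  | 0 =>
    refine crit_of_cert tab4 isSd4_0 fun j h1 h2 => ?_
    match j, h1, h2 with
    | 0, h1, _ => exact absurd rfl h1
    | 1, _, _ => exact ⟨_, _, _, _, _, isSd4_1, isSd4_2, by simp [c4_0_1], v4_0_1⟩
    | 2, _, _ => exact ⟨_, _, _, _, _, isSd4_2, isSd4_3, by simp [c4_0_2], v4_0_2⟩
    | 3, _, h2 => exact absurd rfl h2
  | 1 =>
    refine crit_of_cert tab4 isSd4_1 fun j h1 h2 => ?_
    match j, h1, h2 with
    | 0, _, h2 => exact absurd rfl h2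
    | 1, h1, _ => exact absurd rfl h1
    | 2, _, _ => exact ⟨_, _, _, _, _, isSd4_2, isSd4_3, by simp [c4_1_2], v4_1_2⟩
    | 3, _, _ => exact ⟨_, _, _, _, _, isSd4_3, isSd4_0, by simp [c4_1_3], v4_1_3⟩
  | 2 =>
    refine crit_of_cert tab4 isSd4_2 fun j h1 h2 => ?_
    match j, h1, h2 with
    | 0, _, _ => exact ⟨_, _, _, _, _, isSd4_0, isSd4_1, by simp [c4_2_0], v4_2_0⟩
    | 1, _, h2 => exact absurd rfl h2
    | 2, h1, _ => exact absurd rfl h1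
    | 3, _, _ => exact ⟨_, _, _, _, _, isSd4_3, isSd4_0, by simp [c4_2_3], v4_2_3⟩
  | 3 =>
    refine crit_of_cert tab4 isSd4_3 fun j h1 h2 => ?_
    match j, h1, h2 with
    | 0, _, _ => exact ⟨_, _, _, _, _, isSd4_0, isSd4_1, by simp [c4_3_0], v4_3_0⟩
    | 1, _, _ => exact ⟨_, _, _, _, _, isSd4_1, isSd4_2, by simp [c4_3_1], v4_3_1⟩
    | 2, _, h2 => exact absurd rfl h2
    | 3, h1, _ => exact absurd rfl h1

end ConvexPolygon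

end Bil62
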