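import Pool.Agent.BCR.CovS

/-! BCR: certificates for a convex polygon with 5 sides (114 cells). -/

namespace Bil62

open Chk

namespace ConvexPolygon

def X5 : Fin 5 → ℤ × ℤ := ![(95, 4), (34, 87), (-71, 57), (-75, -65), (26, -97)]

/-- a convex polygon with 5 sides -/
noncomputable def P5 : ConvexPolygon 5 := ofZ X5 (by decide) (by decide)

def s5_0 : Sd := ⟨95, 4, 34, 87, -3168, -10126, 10610⟩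
def s5_1 : Sd := ⟨34, 87, -71, 57, 10125, 6300, 11925⟩
def s5_2 : Sd := ⟨-71, 57, -75, -65, -14868, 976, 14900⟩
def s5_3 : Sd := ⟨-75, -65, 26, -97, 9177, -6464, 11225⟩
def s5_4 : Sd := ⟨26, -97, 95, 4, -5440, 13938, 14962⟩

theorem isSd5_0 : P5.IsSd 0 s5_0 := by
  constructor <;> simp [P5, ofZ, X5, s5_0]
theorem isSd5_1 : P5.IsSd 1 s5_1 := by
  constructor <;> simp [P5, ofZ, X5, s5_1]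
theorem isSd5_2 : P5.IsSd 2 s5_2 := by
  constructor <;> simp [P5, ofZ, X5, s5_2]
theorem isSd5_3 : P5.IsSd 3 s5_3 := by
  constructor <;> simp [P5, ofZ, X5, s5_3]
theorem isSd5_4 : P5.IsSd 4 s5_4 := by
  constructor <;> simp [P5, ofZ, X5, s5_4]

def S5 : List Sd := [s5_0, s5_1, s5_2, s5_3, s5_4]

theorem tab5 : P5.Tab S5 := by
  intro m d h
  match m, h with
  | 0, h => exact ⟨0, by simp only [S5, List.getElem?_cons_succ, List.getElem?_cons_zero, Option.some.injEq] at h; rw [← h]; exact isSd5_0⟩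
  | 1, h => exact ⟨1, by simp only [S5, List.getElem?_cons_succ, List.getElem?_cons_zero, Option.some.injEq] at h; rw [← h]; exact isSd5_1⟩
  | 2, h => exact ⟨2, by simp only [S5, List.getElem?_cons_succ, List.getElem?_cons_zero, Option.some.injEq] at h; rw [← h]; exact isSd5_2⟩
  | 3, h => exact ⟨3, by simp only [S5, List.getElem?_cons_succ, List.getElem?_cons_zero, Option.some.injEq] at h; rw [← h]; exact isSd5_3⟩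
  | 4, h => exact ⟨4, by simp only [S5, List.getElem?_cons_succ, List.getElem?_cons_zero, Option.some.injEq] at h; rw [← h]; exact isSd5_4⟩
  | m + 5, h => simp [S5] at h

def c5_0_1 : List Cell := [
  ⟨1, 1, 82484, 1, 32⟩, ⟨0, 0, 275, 1, 62⟩, ⟨2, 2, 5156, 0, 1⟩, ⟨0, 0, 19, -1, 3⟩, ⟨1, 1, 19, -5, 8⟩, ⟨2, 2, 4884, -5, 7⟩, ⟨1, 2, 19, -1, 1⟩, ⟨2, 2, 1, -5, 2⟩,
  ⟨0, 0, 4884, -3, 1⟩, ⟨2, 1, 1, -1, 0⟩, ⟨0, 0, 1, -11, -3⟩, ⟨2, 1, 4884, -3, -1⟩]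

theorem v5_0_1 : vertOk S5 s5_0 s5_1 s5_2 (1) (22) c5_0_1 = true := by
  decide +kernel

def c5_0_2 : List Cell := [
  ⟨1, 1, 20, -4, 1⟩, ⟨2, 2, 20, -5, 1⟩, ⟨0, 0, 4884, -7, 1⟩, ⟨2, 2, 1, -12, -5⟩, ⟨0, 0, 1, -8, -11⟩, ⟨1, 2, 1, -1, -6⟩, ⟨2, 1, 17, 0, -1⟩]

theorem v5_0_2 : vertOk S5 s5_0 s5_2 s5_3 (-3) (1) c5_0_2 = true := by
  decide +kernel

def c5_0_3 : List Cell := [
  ⟨1, 1, 4673, -2, -3⟩, ⟨0, 0, 1, -1, -2⟩, ⟨1, 1, 1, -1, -25⟩, ⟨0, 0, 4673, 0, -1⟩, ⟨1, 2, 1, 1, -2⟩, ⟨2, 2, 18, 5, -8⟩, ⟨1, 2, 4673, 5, -7⟩,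
  ⟨0, 0, 274, 1, -1⟩, ⟨2, 1, 18, 2, -1⟩, ⟨0, 0, 18, 7, -3⟩, ⟨2, 1, 274, 4, -1⟩]

theorem v5_0_3 : vertOk S5 s5_0 s5_3 s5_4 (-3) (-4) c5_0_3 = true := by
  decide +kernel

def c5_1_4 : List Cell := [
  ⟨1, 1, 4866, 3, -4⟩, ⟨0, 0, 1, 1, -1⟩, ⟨1, 1, 1, 7, -2⟩, ⟨2, 2, 291, 5, -1⟩, ⟨1, 2, 1, 3, 1⟩, ⟨2, 1, 19, 11, 8⟩, ⟨0, 0, 19, 5, 7⟩, ⟨2, 1, 4674, 2, 3⟩]

theorem v5_1_4 : vertOk S5 s5_1 s5_4 s5_0 (2) (-3) c5_1_4 = true := by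
  decide +kernel

def c5_1_2 : List Cell := [
  ⟨1, 1, 260, -13, 3⟩, ⟨0, 0, 20, -7, -1⟩, ⟨2, 2, 82720, -6, -1⟩, ⟨0, 0, 260, -3, -1⟩, ⟨1, 2, 20, -2, -1⟩, ⟨2, 2, 1, -2, -3⟩, ⟨0, 0, 1, -1, -2⟩,
  ⟨2, 1, 1, 0, -1⟩]

theorem v5_1_2 : vertOk S5 s5_1 s5_2 s5_3 (-3) (1) c5_1_2 = true := by
  decide +kernel

def c5_1_3 : List Cell := [
  ⟨1, 1, 1, -2, -3⟩, ⟨2, 2, 1, -1, -24⟩, ⟨0, 0, 1, 5, -8⟩, ⟨1, 2, 1, 11, -5⟩, ⟨2, 1, 18, 4, -1⟩]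

theorem v5_1_3 : vertOk S5 s5_1 s5_3 s5_4 (-1) (-1) c5_1_3 = true := by
  decide +kernel

def c5_2_4 : List Cell := [
  ⟨1, 1, 1, 3, -4⟩, ⟨2, 2, 1, 10, -3⟩, ⟨0, 0, 1, 5, 2⟩, ⟨1, 2, 1, 3, 4⟩, ⟨2, 1, 1, 1, 2⟩]

theorem v5_2_4 : vertOk S5 s5_2 s5_4 s5_0 (1) (-2) c5_2_4 = true := by
  decide +kernel

def c5_2_0 : List Cell := [
  ⟨1, 1, 5139, 31, 9⟩, ⟨0, 0, 1, 3, 4⟩, ⟨2, 2, 308, 3, 5⟩, ⟨1, 2, 1, 0, 1⟩, ⟨2, 1, 20, -1, 3⟩, ⟨0, 0, 20, -5, 7⟩, ⟨2, 1, 259, -1, 1⟩]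

theorem v5_2_0 : vertOk S5 s5_2 s5_0 s5_1 (4) (1) c5_2_0 = true := by
  decide +kernel

def c5_2_3 : List Cell := [
  ⟨1, 1, 321, -2, -3⟩, ⟨0, 0, 16, -1, -3⟩, ⟨1, 1, 16, -1, -45⟩, ⟨2, 2, 1, 2, -3⟩, ⟨0, 0, 1, 1, -1⟩, ⟨2, 1, 1, 4, -1⟩]

theorem v5_2_3 : vertOk S5 s5_2 s5_3 s5_4 (-3) (-4) c5_2_3 = true := by
  decide +kernel

def c5_3_4 : List Cell := [
  ⟨1, 1, 258, 3, -4⟩, ⟨0, 0, 17, 3, -2⟩, ⟨1, 1, 17, 7, -2⟩, ⟨2, 2, 1, 7, 2⟩, ⟨0, 0, 20976194, 3, 1⟩, ⟨2, 1, 1, 1, 1⟩, ⟨0, 0, 1, 5, 7⟩, ⟨2, 1, 20976194, 2, 3⟩]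

theorem v5_3_4 : vertOk S5 s5_3 s5_4 s5_0 (2) (-3) c5_3_4 = true := by
  decide +kernel

def c5_3_0 : List Cell := [
  ⟨1, 1, 1, 10, 3⟩, ⟨2, 2, 1, 1, 1⟩, ⟨0, 0, 18, 3, 4⟩, ⟨2, 2, 20, 2, 3⟩, ⟨0, 0, 1, 1, 7⟩, ⟨1, 2, 18, 0, 1⟩, ⟨0, 0, 20, -1, 5⟩, ⟨1, 2, 1, -5, 7⟩,
  ⟨2, 1, 1, -1, 1⟩]

theorem v5_3_0 : vertOk S5 s5_3 s5_0 s5_1 (4) (1) c5_3_0 = true := by
  decide +kernel

def c5_3_1 : List Cell := [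
  ⟨1, 1, 20, 1, 33⟩, ⟨0, 0, 1, -1, 2⟩, ⟨2, 2, 276, -5, 7⟩, ⟨1, 2, 1, -2, 1⟩, ⟨0, 0, 276, -3, 1⟩, ⟨2, 1, 16, -18, 1⟩, ⟨0, 0, 16, -11, -3⟩, ⟨2, 1, 276, -3, -1⟩]

theorem v5_3_1 : vertOk S5 s5_3 s5_1 s5_2 (1) (22) c5_3_1 = true := by
  decide +kernel

def c5_4_0 : List Cell := [
  ⟨1, 1, 275, 10, 3⟩, ⟨0, 0, 18, 3, 2⟩, ⟨1, 1, 18, 3, 4⟩, ⟨2, 2, 1, 1, 7⟩, ⟨1, 2, 306, 0, 1⟩, ⟨0, 0, 1, -5, 7⟩, ⟨2, 1, 4611, -3, 4⟩]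

theorem v5_4_0 : vertOk S5 s5_4 s5_0 s5_1 (4) (1) c5_4_0 = true := by
  decide +kernel

def c5_4_1 : List Cell := [
  ⟨1, 1, 1, 1, 33⟩, ⟨2, 2, 1, -2, 3⟩, ⟨0, 0, 1, -3, 1⟩, ⟨1, 2, 1, -11, -3⟩, ⟨2, 1, 1, -2, -1⟩]

theorem v5_4_1 : vertOk S5 s5_4 s5_1 s5_2 (1) (4) c5_4_1 = true := by
  decide +kernel

def c5_4_2 : List Cell := [
  ⟨1, 1, 1, -5, -1⟩, ⟨2, 2, 288, -3, -1⟩, ⟨1, 2, 1, -1, -1⟩, ⟨2, 2, 17, -2, -3⟩, ⟨0, 0, 257, -1, -2⟩, ⟨2, 1, 17, -1, -3⟩, ⟨0, 0, 17, -1, -6⟩,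
  ⟨2, 1, 257, 0, -1⟩]

theorem v5_4_2 : vertOk S5 s5_4 s5_2 s5_3 (-3) (1) c5_4_2 = true := by
  decide +kernel

theorem crit5 (i : Fin 5) : P5.Crit i := by
  match i with
  | 0 =>
    refine crit_of_cert tab5 isSd5_0 fun j h1 h2 => ?_
    match j, h1, h2 with
    | 0, h1, _ => exact absurd rfl h1
    | 1, _, _ => exact ⟨_, _, _, _, _, isSd5_1, isSd5_2, by simp [c5_0_1], v5_0_1⟩
    | 2, _, _ => exact ⟨_, _, _, _, _, isSd5_2, isSd5_3, by simp [c5_0_2], v5_0_2⟩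
    | 3, _, _ => exact ⟨_, _, _, _, _, isSd5_3, isSd5_4, by simp [c5_0_3], v5_0_3⟩
    | 4, _, h2 => exact absurd rfl h2
  | 1 =>
    refine crit_of_cert tab5 isSd5_1 fun j h1 h2 => ?_
    match j, h1, h2 with
    | 0, _, h2 => exact absurd rfl h2
    | 1, h1, _ => exact absurd rfl h1
    | 2, _, _ => exact ⟨_, _, _, _, _, isSd5_2, isSd5_3, by simp [c5_1_2], v5_1_2⟩
    | 3, _, _ => exact ⟨_, _, _, _, _, isSd5_3, isSd5_4, by simp [c5_1_3], v5_1_3⟩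
    | 4, _, _ => exact ⟨_, _, _, _, _, isSd5_4, isSd5_0, by simp [c5_1_4], v5_1_4⟩
  | 2 =>
    refine crit_of_cert tab5 isSd5_2 fun j h1 h2 => ?_
    match j, h1, h2 with
    | 0, _, _ => exact ⟨_, _, _, _, _, isSd5_0, isSd5_1, by simp [c5_2_0], v5_2_0⟩
    | 1, _, h2 => exact absurd rfl h2
    | 2, h1, _ => exact absurd rfl h1
    | 3, _, _ => exact ⟨_, _, _, _, _, isSd5_3, isSd5_4, by simp [c5_2_3], v5_2_3⟩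
    | 4, _, _ => exact ⟨_, _, _, _, _, isSd5_4, isSd5_0, by simp [c5_2_4], v5_2_4⟩
  | 3 =>
    refine crit_of_cert tab5 isSd5_3 fun j h1 h2 => ?_
    match j, h1, h2 with
    | 0, _, _ => exact ⟨_, _, _, _, _, isSd5_0, isSd5_1, by simp [c5_3_0], v5_3_0⟩
    | 1, _, _ => exact ⟨_, _, _, _, _, isSd5_1, isSd5_2, by simp [c5_3_1], v5_3_1⟩
    | 2, _, h2 => exact absurd rfl h2
    | 3, h1, _ => exact absurd rfl h1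
    | 4, _, _ => exact ⟨_, _, _, _, _, isSd5_4, isSd5_0, by simp [c5_3_4], v5_3_4⟩
  | 4 =>
    refine crit_of_cert tab5 isSd5_4 fun j h1 h2 => ?_
    match j, h1, h2 with
    | 0, _, _ => exact ⟨_, _, _, _, _, isSd5_0, isSd5_1, by simp [c5_4_0], v5_4_0⟩
    | 1, _, _ => exact ⟨_, _, _, _, _, isSd5_1, isSd5_2, by simp [c5_4_1], v5_4_1⟩
    | 2, _, _ => exact ⟨_, _, _, _, _, isSd5_2, isSd5_3, by simp [c5_4_2], v5_4_2⟩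
    | 3, _, h2 => exact absurd rfl h2
    | 4, h1, _ => exact absurd rfl h1

end ConvexPolygon

end Bil62
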