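import Pool.Agent.BCR.CovS

/-! BCR: certificates for a convex polygon with 6 sides (379 cells). -/

namespace Bil62

open Chk

namespace ConvexPolygon

def X6 : Fin 6 → ℤ × ℤ := ![(105, -5), (58, 70), (-74, 47), (-106, -27), (-20, -75), (50, -61)]

/-- a convex polygon with 6 sides -/
noncomputable def P6 : ConvexPolygon 6 := ofZ X6 (by decide) (by decide)

def s6_0 : Sd := ⟨105, -5, 58, 70, -3416, -7050, 7834⟩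
def s6_1 : Sd := ⟨58, 70, -74, 47, 16895, 6072, 17953⟩
def s6_2 : Sd := ⟨-74, 47, -106, -27, -4452, 4736, 6500⟩
def s6_3 : Sd := ⟨-106, -27, -20, -75, 5092, -8256, 9700⟩
def s6_4 : Sd := ⟨-20, -75, 50, -61, 4704, 1960, 5096⟩
def s6_5 : Sd := ⟨50, -61, 105, -5, -111, 6160, 6161⟩

theorem isSd6_0 : P6.IsSd 0 s6_0 := by
  constructor <;> simp [P6, ofZ, X6, s6_0]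
theorem isSd6_1 : P6.IsSd 1 s6_1 := by
  constructor <;> simp [P6, ofZ, X6, s6_1]
theorem isSd6_2 : P6.IsSd 2 s6_2 := by
  constructor <;> simp [P6, ofZ, X6, s6_2]
theorem isSd6_3 : P6.IsSd 3 s6_3 := by
  constructor <;> simp [P6, ofZ, X6, s6_3]
theorem isSd6_4 : P6.IsSd 4 s6_4 := by
  constructor <;> simp [P6, ofZ, X6, s6_4]
theorem isSd6_5 : P6.IsSd 5 s6_5 := by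
  constructor <;> simp [P6, ofZ, X6, s6_5]

def S6 : List Sd := [s6_0, s6_1, s6_2, s6_3, s6_4, s6_5]

theorem tab6 : P6.Tab S6 := by
  intro m d h
  match m, h with
  | 0, h => exact ⟨0, by simp only [S6, List.getElem?_cons_succ, List.getElem?_cons_zero, Option.some.injEq] at h; rw [← h]; exact isSd6_0⟩
  | 1, h => exact ⟨1, by simp only [S6, List.getElem?_cons_succ, List.getElem?_cons_zero, Option.some.injEq] at h; rw [← h]; exact isSd6_1⟩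
  | 2, h => exact ⟨2, by simp only [S6, List.getElem?_cons_succ, List.getElem?_cons_zero, Option.some.injEq] at h; rw [← h]; exact isSd6_2⟩
  | 3, h => exact ⟨3, by simp only [S6, List.getElem?_cons_succ, List.getElem?_cons_zero, Option.some.injEq] at h; rw [← h]; exact isSd6_3⟩
  | 4, h => exact ⟨4, by simp only [S6, List.getElem?_cons_succ, List.getElem?_cons_zero, Option.some.injEq] at h; rw [← h]; exact isSd6_4⟩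
  | 5, h => exact ⟨5, by simp only [S6, List.getElem?_cons_succ, List.getElem?_cons_zero, Option.some.injEq] at h; rw [← h]; exact isSd6_5⟩
  | m + 6, h => simp [S6] at h

def c6_0_1 : List Cell := [
  ⟨1, 1, 20, 9, 26⟩, ⟨0, 0, 4615050515, 7, 23⟩, ⟨1, 1, 336794900, 3, 11⟩, ⟨0, 0, 275, 1, 8⟩, ⟨2, 2, 74773, 1, 10⟩, ⟨0, 0, 19, -1, 5⟩, ⟨2, 2, 1, -1, 2⟩,
  ⟨1, 1, 275, -2, 3⟩, ⟨2, 1, 1, -27, 16⟩, ⟨0, 0, 74773, -9, 5⟩, ⟨1, 2, 19, -4, 1⟩, ⟨0, 0, 1, -6, -1⟩, ⟨2, 1, 288494868, -11, -2⟩]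

theorem v6_0_1 : vertOk S6 s6_0 s6_1 s6_2 (1) (2) c6_0_1 = true := by
  decide +kernel

def c6_0_2 : List Cell := [
  ⟨1, 1, 20, -2, 1⟩, ⟨0, 0, 20, -7, 2⟩, ⟨1, 2, 20, -11, 1⟩, ⟨2, 2, 1, -3, -1⟩, ⟨1, 2, 1, -9, -8⟩, ⟨2, 2, 78161, -1, -1⟩, ⟨1, 2, 17, -2, -3⟩,
  ⟨2, 1, 321, -5, -8⟩, ⟨0, 0, 1126737, -7, -12⟩, ⟨1, 2, 288440657, -7, -13⟩, ⟨2, 1, 1126737, -1, -2⟩, ⟨0, 0, 321, -4, -9⟩, ⟨2, 1, 78161, -2, -5⟩]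

theorem v6_0_2 : vertOk S6 s6_0 s6_2 s6_3 (-7) (4) c6_0_2 = true := by
  decide +kernel

def c6_0_3 : List Cell := [
  ⟨1, 1, 305, -3, -1⟩, ⟨0, 0, 21, -2, -1⟩, ⟨2, 2, 18, -3, -2⟩, ⟨0, 0, 1, -4, -7⟩, ⟨1, 1, 1, 0, -1⟩, ⟨2, 1, 305, 1, -6⟩, ⟨1, 1, 21, 1, -3⟩, ⟨0, 0, 305, 2, -5⟩,
  ⟨1, 2, 21, 2, -3⟩, ⟨0, 0, 18, 5, -6⟩, ⟨1, 2, 1, 3, -2⟩, ⟨2, 1, 1, 2, -1⟩]

theorem v6_0_3 : vertOk S6 s6_0 s6_3 s6_4 (-6) (-1) c6_0_3 = true := by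
  decide +kernel

def c6_0_4 : List Cell := [
  ⟨1, 1, 322, -30, -31⟩, ⟨0, 0, 1, -1, -16⟩, ⟨2, 1, 291, 1, -7⟩, ⟨1, 1, 20005185, 3, -17⟩, ⟨2, 1, 5411, 2, -9⟩, ⟨0, 0, 20005185, 2, -7⟩, ⟨2, 1, 322, 9, -20⟩,
  ⟨0, 0, 70209, 7, -15⟩, ⟨2, 1, 20005202, 1, -2⟩, ⟨1, 1, 1, 7, -3⟩, ⟨0, 0, 322, 3, -1⟩, ⟨1, 2, 1, 6, 1⟩, ⟨2, 1, 1, 2, 1⟩]

theorem v6_0_4 : vertOk S6 s6_0 s6_4 s6_5 (-5) (-4) c6_0_4 = true := by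
  decide +kernel

def c6_1_5 : List Cell := [
  ⟨1, 1, 1, 1, -1⟩, ⟨0, 0, 1, 2, -1⟩, ⟨1, 2, 1, 6, 1⟩, ⟨0, 0, 77859, 5, 1⟩, ⟨1, 2, 338, 4, 1⟩, ⟨0, 0, 291, 41, 14⟩, ⟨2, 1, 19072036, 8, 3⟩, ⟨0, 0, 19, 2, 1⟩,
  ⟨2, 1, 1069620, 12, 7⟩, ⟨1, 2, 5426, 11, 7⟩, ⟨0, 0, 4594035050480180, 17, 11⟩, ⟨1, 2, 77859, 4, 3⟩, ⟨2, 1, 19, 6, 5⟩, ⟨1, 2, 291, 58, 59⟩, ⟨2, 1, 291, 4, 5⟩]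

theorem v6_1_5 : vertOk S6 s6_1 s6_5 s6_0 (1) (-2) c6_1_5 = true := by
  decide +kernel

def c6_1_2 : List Cell := [
  ⟨1, 1, 4868, -118, 61⟩, ⟨2, 2, 318910548, -2, 1⟩, ⟨1, 1, 74500, -7, 3⟩, ⟨2, 2, 21, -10, 3⟩, ⟨1, 2, 17117700, -4, 1⟩, ⟨2, 2, 261, -8, 1⟩,
  ⟨1, 2, 4868, -13, 1⟩, ⟨0, 0, 261, -1, 0⟩, ⟨1, 2, 21, -9, -1⟩, ⟨2, 2, 304, -4, -1⟩, ⟨1, 2, 261, -10, -3⟩, ⟨2, 2, 4656, -3, -1⟩, ⟨0, 0, 304, -2, -1⟩,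
  ⟨2, 2, 1, -1, -1⟩, ⟨0, 0, 1, -1, -2⟩, ⟨2, 1, 1, -1, -3⟩]

theorem v6_1_2 : vertOk S6 s6_1 s6_2 s6_3 (-7) (4) c6_1_2 = true := by
  decide +kernel

def c6_1_3 : List Cell := [
  ⟨1, 1, 1, -3, -5⟩, ⟨0, 0, 16, -13, -24⟩, ⟨2, 1, 4178, -1, -2⟩, ⟨0, 0, 1, 1, -3⟩, ⟨2, 1, 1, 6, -5⟩, ⟨1, 2, 4656, 7, -5⟩, ⟨2, 1, 5152, 3, -2⟩,
  ⟨1, 2, 1069856, 30, -17⟩, ⟨2, 1, 86816, 9, -5⟩]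

theorem v6_1_3 : vertOk S6 s6_1 s6_3 s6_4 (-6) (-1) c6_1_3 = true := by
  decide +kernel

def c6_1_4 : List Cell := [
  ⟨1, 1, 1192002, -30, -31⟩, ⟨0, 0, 4656, -5, -6⟩, ⟨1, 1, 338, -3, -4⟩, ⟨0, 0, 1245744, -5, -7⟩, ⟨1, 1, 4178, -2, -3⟩, ⟨2, 2, 66851, -7, -12⟩,
  ⟨1, 1, 79106, -7, -13⟩, ⟨0, 0, 5152, -10, -21⟩, ⟨1, 1, 1, 0, -1⟩, ⟨0, 0, 1, 1, -1⟩, ⟨2, 1, 1, 14, 1⟩, ⟨1, 2, 16, 6, 1⟩, ⟨2, 1, 16, 3, 1⟩]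

theorem v6_1_4 : vertOk S6 s6_1 s6_4 s6_5 (-1) (-1) c6_1_4 = true := by
  decide +kernel

def c6_2_5 : List Cell := [
  ⟨1, 1, 17842481, 7, -11⟩, ⟨0, 0, 352399681, 2, -3⟩, ⟨1, 1, 1134897, 13, -19⟩, ⟨0, 0, 86977078864458049, 7, -10⟩, ⟨2, 2, 299347163038001, 12, -17⟩,
  ⟨0, 0, 321, 4, -5⟩, ⟨2, 2, 17, 17, -16⟩, ⟨0, 0, 1376561, 9, -8⟩, ⟨2, 2, 1, 5, -2⟩, ⟨0, 0, 17, 3, -1⟩, ⟨2, 2, 19, 4, -1⟩, ⟨0, 0, 1, 11, 1⟩, ⟨2, 2, 308, 5, 1⟩,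
  ⟨1, 2, 1, 5, 3⟩, ⟨0, 0, 308, 3, 2⟩, ⟨1, 2, 19, 58, 59⟩, ⟨2, 1, 19, 2, 3⟩]

theorem v6_2_5 : vertOk S6 s6_2 s6_5 s6_0 (3) (-5) c6_2_5 = true := by
  decide +kernel

def c6_2_0 : List Cell := [
  ⟨1, 1, 1112750101779, 17, 3⟩, ⟨0, 0, 1, 7, 4⟩, ⟨1, 1, 19, 5, 3⟩, ⟨0, 0, 19, 4, 3⟩, ⟨1, 1, 1, 3, 4⟩, ⟨2, 2, 21, 1, 2⟩, ⟨1, 2, 1, 2, 7⟩, ⟨2, 2, 4885, 15, 56⟩,
  ⟨1, 2, 19, 4, 29⟩, ⟨2, 1, 277, 1, 17⟩, ⟨0, 0, 309, 0, 1⟩, ⟨2, 1, 21, -1, 5⟩, ⟨0, 0, 21, -1, 3⟩, ⟨1, 2, 20, -8, 15⟩, ⟨2, 1, 66324, -71, 124⟩,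
  ⟨0, 0, 23171702199061, -23, 40⟩, ⟨2, 1, 324014868, -27, 43⟩]

theorem v6_2_0 : vertOk S6 s6_2 s6_0 s6_1 (6) (1) c6_2_0 = true := by
  decide +kernel

def c6_2_3 : List Cell := [
  ⟨1, 1, 73101553713, -69, -14⟩, ⟨0, 0, 4357, -7, -2⟩, ⟨2, 2, 1, -4, -5⟩, ⟨0, 0, 16, -2, -3⟩, ⟨2, 1, 1, -1, -11⟩, ⟨0, 0, 86337, 0, -1⟩, ⟨1, 1, 4928, 1, -25⟩,
  ⟨2, 1, 73101553713, 2, -47⟩, ⟨1, 1, 261, 8, -35⟩, ⟨2, 1, 17117505, 1, -4⟩, ⟨1, 1, 4357, 7, -19⟩, ⟨0, 0, 73101553713, 3, -8⟩, ⟨1, 2, 4357, 1, -2⟩,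
  ⟨0, 0, 1, 3, -2⟩, ⟨2, 1, 16, 2, -1⟩]

theorem v6_2_3 : vertOk S6 s6_2 s6_3 s6_4 (-26) (-5) c6_2_3 = true := by
  decide +kernel

def c6_2_4 : List Cell := [
  ⟨1, 1, 1, -3, -5⟩, ⟨2, 2, 19, -1, -3⟩, ⟨0, 0, 272, -1, -5⟩, ⟨1, 1, 4145, -1, -6⟩, ⟨0, 0, 4880, -1, -8⟩, ⟨2, 1, 19, 3, -13⟩, ⟨1, 1, 4945, 5, -21⟩,
  ⟨2, 1, 1, 2, -3⟩, ⟨1, 1, 272, 10, -11⟩, ⟨2, 1, 17, 12, -13⟩, ⟨1, 1, 16, 3, -2⟩, ⟨0, 0, 1, 9, -2⟩, ⟨1, 2, 16, 1, 0⟩, ⟨0, 0, 19, 7, 1⟩, ⟨2, 1, 4880, 279, 56⟩]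

theorem v6_2_4 : vertOk S6 s6_2 s6_4 s6_5 (-4) (-3) c6_2_4 = true := by
  decide +kernel

def c6_3_5 : List Cell := [
  ⟨1, 1, 17, 1, -1⟩, ⟨0, 0, 17, 2, -1⟩, ⟨2, 2, 18, 5, -2⟩, ⟨0, 0, 289, 3, -1⟩, ⟨2, 2, 1, 25, 1⟩, ⟨1, 2, 289, 6, 1⟩, ⟨0, 0, 1, 2, 1⟩, ⟨2, 1, 20, 3, 2⟩,
  ⟨1, 2, 1, 4, 3⟩, ⟨2, 1, 1, 2, 3⟩]

theorem v6_3_5 : vertOk S6 s6_3 s6_5 s6_0 (3) (-5) c6_3_5 = true := by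
  decide +kernel

def c6_3_0 : List Cell := [
  ⟨1, 1, 1, 5, 3⟩, ⟨0, 0, 1, 4, 7⟩, ⟨1, 2, 18, 2, 7⟩, ⟨0, 0, 276, 1, 4⟩, ⟨1, 2, 1, -3, 11⟩, ⟨2, 1, 21, -5, 12⟩, ⟨0, 0, 4629, -1, 2⟩, ⟨2, 1, 276, -2, 3⟩]

theorem v6_3_0 : vertOk S6 s6_3 s6_0 s6_1 (7) (1) c6_3_0 = true := by
  decide +kernel

def c6_3_1 : List Cell := [
  ⟨1, 1, 73988, 2, 5⟩, ⟨0, 0, 1, 0, 1⟩, ⟨1, 1, 1, -5, 6⟩, ⟨0, 0, 73988, -17, 18⟩, ⟨1, 2, 1, -1, 0⟩, ⟨2, 1, 73988, -27, -2⟩, ⟨0, 0, 307319360, -12, -1⟩,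
  ⟨2, 1, 1134612, -11, -1⟩, ⟨0, 0, 22106688, -10, -1⟩, ⟨2, 1, 70932, -7, -1⟩, ⟨0, 0, 16, -6, -1⟩, ⟨2, 1, 1185044, -11, -2⟩]

theorem v6_3_1 : vertOk S6 s6_3 s6_1 s6_2 (4) (9) c6_3_1 = true := by
  decide +kernel

def c6_3_4 : List Cell := [
  ⟨1, 1, 4162, -30, -31⟩, ⟨0, 0, 16, -5, -7⟩, ⟨1, 1, 69714, -2, -3⟩, ⟨2, 2, 1, -1, -3⟩, ⟨1, 1, 17, -1, -6⟩, ⟨2, 1, 1, 2, -9⟩, ⟨0, 0, 1130817, 2, -7⟩,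
  ⟨2, 1, 73794, 1, -3⟩, ⟨0, 0, 4417, 11, -25⟩, ⟨1, 1, 289493585, 6, -13⟩, ⟨2, 1, 1130834, 1, -2⟩, ⟨0, 0, 17, 1, -1⟩, ⟨2, 1, 17, 2, -1⟩, ⟨1, 1, 16, 116, -49⟩,
  ⟨2, 1, 4417, 3, -1⟩, ⟨1, 2, 16, 4, -1⟩, ⟨2, 1, 1130817, 14, -3⟩, ⟨0, 0, 1, 6, 1⟩, ⟨2, 1, 272, 279, 56⟩]

theorem v6_3_4 : vertOk S6 s6_3 s6_4 s6_5 (-1) (-1) c6_3_4 = true := by
  decide +kernel

def c6_4_5 : List Cell := [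
  ⟨1, 1, 4401, 7, -11⟩, ⟨0, 0, 17, 8, -9⟩, ⟨2, 2, 18023201, 27, -26⟩, ⟨0, 0, 19202353, 12, -11⟩, ⟨1, 1, 73777, 26, -23⟩, ⟨2, 2, 1238544943222370642, 8, -7⟩,
  ⟨1, 1, 17, 13, -8⟩, ⟨0, 0, 4401, 7, -4⟩, ⟨1, 2, 17, 13, -5⟩, ⟨0, 0, 18023201, 13, -4⟩, ⟨2, 2, 1126435, 15, -4⟩, ⟨0, 0, 90246754642, 61, -16⟩,
  ⟨2, 2, 65827, 16, -3⟩, ⟨0, 0, 18, 25, -1⟩, ⟨2, 2, 275, 1, 0⟩, ⟨0, 0, 306, 19, 1⟩, ⟨2, 2, 1, 7, 2⟩, ⟨1, 2, 18, 5, 2⟩, ⟨2, 1, 1, 3, 2⟩, ⟨0, 0, 1, 58, 59⟩,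
  ⟨2, 1, 18898681659683, 30, 31⟩]

theorem v6_4_5 : vertOk S6 s6_4 s6_5 s6_0 (3) (-5) c6_4_5 = true := by
  decide +kernel

def c6_4_0 : List Cell := [
  ⟨1, 1, 19804447773971, 17, 3⟩, ⟨0, 0, 18, 27, 7⟩, ⟨1, 1, 21049654777107, 23, 6⟩, ⟨0, 0, 306, 7, 2⟩, ⟨1, 1, 1104399050003, 10, 3⟩, ⟨0, 0, 288425266, 19, 6⟩,
  ⟨2, 2, 1, 5, 4⟩, ⟨0, 0, 275, 19, 20⟩, ⟨2, 2, 66101, 11, 13⟩, ⟨1, 1, 18, 13, 18⟩, ⟨0, 0, 19804447773971, 17, 24⟩, ⟨2, 2, 293, 15, 28⟩, ⟨0, 0, 1, 1, 8⟩,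
  ⟨1, 2, 275, 0, 1⟩, ⟨0, 0, 66101, -1, 13⟩, ⟨2, 1, 293, -1, 6⟩, ⟨0, 0, 293, -9, 31⟩, ⟨1, 2, 1, -1, 2⟩, ⟨2, 1, 1, -1, 1⟩]

theorem v6_4_0 : vertOk S6 s6_4 s6_0 s6_1 (6) (1) c6_4_0 = true := by
  decide +kernel

def c6_4_1 : List Cell := [
  ⟨1, 1, 1, 1, 9⟩, ⟨2, 2, 277, -1, 30⟩, ⟨0, 0, 70403, -6, 55⟩, ⟨2, 2, 4915802373, -20, 157⟩, ⟨0, 0, 259, -2, 9⟩, ⟨2, 2, 4613935952, -6, 25⟩,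
  ⟨1, 1, 70403, -1, 3⟩, ⟨2, 2, 16, -1, 2⟩, ⟨0, 0, 1, -9, 8⟩, ⟨1, 2, 70931, -7, 6⟩, ⟨2, 1, 336, -16, 13⟩, ⟨1, 2, 20074515, -9, 7⟩, ⟨0, 0, 5139075861, -39, 29⟩,
  ⟨1, 2, 270749715, -17, 12⟩, ⟨0, 0, 18902238233365, -13, 9⟩, ⟨2, 1, 16851792, -13, 8⟩, ⟨0, 0, 4314039061, -5, 3⟩, ⟨1, 2, 4115, -7, 4⟩, ⟨0, 0, 277, -5, 2⟩,
  ⟨2, 1, 277, -31, 9⟩, ⟨1, 2, 259, -21, 4⟩, ⟨0, 0, 4613935952, -17, 3⟩, ⟨2, 1, 5139075861, -13, 2⟩, ⟨1, 2, 336794475634771, -7, 1⟩, ⟨0, 0, 336, -8, 1⟩,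
  ⟨1, 2, 271716435, -11, 1⟩, ⟨2, 1, 1, -3, -1⟩]

theorem v6_4_1 : vertOk S6 s6_4 s6_1 s6_2 (1) (2) c6_4_1 = true := by
  decide +kernel

def c6_4_2 : List Cell := [
  ⟨1, 1, 1, -2, 1⟩, ⟨0, 0, 1, -4, 1⟩, ⟨1, 2, 1, -28, 1⟩, ⟨2, 2, 16, -67, -7⟩, ⟨0, 0, 336, -49, -8⟩, ⟨2, 2, 17743874249008, -6, -1⟩, ⟨0, 0, 16, -19, -6⟩,
  ⟨1, 2, 336, -8, -3⟩, ⟨2, 2, 257, -5, -2⟩, ⟨1, 2, 16, -11, -6⟩, ⟨0, 0, 18158128, -22, -13⟩, ⟨2, 2, 16921857, -5, -3⟩, ⟨0, 0, 257, -17, -12⟩,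
  ⟨2, 2, 4433, -7, -6⟩, ⟨1, 2, 18158128, -21, -19⟩, ⟨0, 0, 16921857, -11, -10⟩, ⟨1, 2, 257, -16, -17⟩, ⟨0, 0, 4433, -4, -5⟩, ⟨2, 2, 17, -7, -10⟩,
  ⟨0, 0, 302435811733841, -9, -13⟩, ⟨2, 1, 17, -8, -13⟩, ⟨1, 2, 4433, -1, -2⟩, ⟨0, 0, 17, -4, -9⟩, ⟨2, 1, 302435811733841, -19, -44⟩]

theorem v6_4_2 : vertOk S6 s6_4 s6_2 s6_3 (-3) (2) c6_4_2 = true := by
  decide +kernel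

def c6_5_0 : List Cell := [
  ⟨1, 1, 275, 10, 3⟩, ⟨0, 0, 306, 5, 2⟩, ⟨1, 1, 70675, 17, 8⟩, ⟨2, 2, 16924708, 2, 1⟩, ⟨1, 1, 4387, 13, 8⟩, ⟨2, 2, 1053460, 3, 2⟩, ⟨0, 0, 4387, 13, 10⟩,
  ⟨1, 1, 1196082, 5, 4⟩, ⟨0, 0, 70675, 12, 11⟩, ⟨2, 2, 1, 2, 9⟩, ⟨1, 2, 4387, 1, 5⟩, ⟨2, 1, 1, 0, 1⟩, ⟨0, 0, 1, -3, 5⟩, ⟨2, 1, 1053460, -2, 3⟩]

theorem v6_5_0 : vertOk S6 s6_5 s6_0 s6_1 (6) (1) c6_5_0 = true := by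
  decide +kernel

def c6_5_1 : List Cell := [
  ⟨1, 1, 1253636, 3, 7⟩, ⟨0, 0, 275, 2, 7⟩, ⟨2, 2, 1, -20, 157⟩, ⟨0, 0, 1192963, -1, 7⟩, ⟨2, 2, 16, -1, 4⟩, ⟨0, 0, 19, -2, 5⟩, ⟨2, 2, 66112, -4, 9⟩,
  ⟨0, 0, 70676, -1, 2⟩, ⟨2, 2, 4672, -6, 11⟩, ⟨0, 0, 276, -3, 4⟩, ⟨1, 1, 275, -11, 12⟩, ⟨2, 1, 66112, -17, 18⟩, ⟨1, 2, 275, -6, 5⟩, ⟨0, 0, 1, -2, 1⟩,
  ⟨2, 1, 1, -6, 1⟩, ⟨1, 2, 19, -35, 1⟩, ⟨2, 1, 1253636, -53, -1⟩, ⟨0, 0, 4672, -10, -1⟩, ⟨2, 1, 276, -4, -1⟩]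

theorem v6_5_1 : vertOk S6 s6_5 s6_1 s6_2 (4) (9) c6_5_1 = true := by
  decide +kernel

def c6_5_2 : List Cell := [
  ⟨1, 1, 1250052, -9, 5⟩, ⟨0, 0, 78340, -2, 1⟩, ⟨2, 2, 20, -9, 4⟩, ⟨0, 0, 1181451625220, -7, 3⟩, ⟨2, 2, 1, -5, 1⟩, ⟨0, 0, 1, -1, 0⟩, ⟨1, 2, 1, -10, -3⟩,
  ⟨2, 2, 70192, -3, -1⟩, ⟨0, 0, 4400, -13, -5⟩, ⟨1, 2, 4672, -9, -4⟩, ⟨2, 2, 257, -8, -5⟩, ⟨0, 0, 269685761, -3, -2⟩, ⟨2, 2, 17, -5, -6⟩, ⟨0, 0, 17, -4, -7⟩,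
  ⟨2, 1, 17, -1, -3⟩]

theorem v6_5_2 : vertOk S6 s6_5 s6_2 s6_3 (-7) (4) c6_5_2 = true := by
  decide +kernel

def c6_5_3 : List Cell := [
  ⟨1, 1, 20000817, -69, -14⟩, ⟨0, 0, 1, -2, -1⟩, ⟨2, 2, 74754, -73, -42⟩, ⟨1, 1, 1130817, -5, -3⟩, ⟨0, 0, 1057600, -13, -8⟩, ⟨1, 1, 4417, -4, -3⟩,
  ⟨2, 2, 18, -1, -1⟩, ⟨1, 1, 17, -18, -25⟩, ⟨0, 0, 70688, -2, -3⟩, ⟨2, 1, 18, -5, -12⟩, ⟨0, 0, 17, -1, -10⟩, ⟨2, 1, 16855058, -1, -11⟩, ⟨0, 0, 4417, 1, -108⟩,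
  ⟨2, 1, 17969201, 1, -35⟩, ⟨1, 1, 74560, 1, -25⟩, ⟨2, 1, 20000817, 2, -47⟩, ⟨1, 1, 1, 7, -19⟩, ⟨0, 0, 20000817, 3, -8⟩, ⟨1, 2, 1, 2, -3⟩, ⟨2, 1, 17, 1, -1⟩,
  ⟨0, 0, 18, 3, -2⟩, ⟨1, 2, 4896, 16, -9⟩, ⟨2, 1, 4896, 2, -1⟩]

theorem v6_5_3 : vertOk S6 s6_5 s6_3 s6_4 (-26) (-5) c6_5_3 = true := by
  decide +kernel

theorem crit6 (i : Fin 6) : P6.Crit i := by
  match i with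
  | 0 =>
    refine crit_of_cert tab6 isSd6_0 fun j h1 h2 => ?_
    match j, h1, h2 with
    | 0, h1, _ => exact absurd rfl h1
    | 1, _, _ => exact ⟨_, _, _, _, _, isSd6_1, isSd6_2, by simp [c6_0_1], v6_0_1⟩
    | 2, _, _ => exact ⟨_, _, _, _, _, isSd6_2, isSd6_3, by simp [c6_0_2], v6_0_2⟩
    | 3, _, _ => exact ⟨_, _, _, _, _, isSd6_3, isSd6_4, by simp [c6_0_3], v6_0_3⟩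
    | 4, _, _ => exact ⟨_, _, _, _, _, isSd6_4, isSd6_5, by simp [c6_0_4], v6_0_4⟩
    | 5, _, h2 => exact absurd rfl h2
  | 1 =>
    refine crit_of_cert tab6 isSd6_1 fun j h1 h2 => ?_
    match j, h1, h2 with
    | 0, _, h2 => exact absurd rfl h2
    | 1, h1, _ => exact absurd rfl h1
    | 2, _, _ => exact ⟨_, _, _, _, _, isSd6_2, isSd6_3, by simp [c6_1_2], v6_1_2⟩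
    | 3, _, _ => exact ⟨_, _, _, _, _, isSd6_3, isSd6_4, by simp [c6_1_3], v6_1_3⟩
    | 4, _, _ => exact ⟨_, _, _, _, _, isSd6_4, isSd6_5, by simp [c6_1_4], v6_1_4⟩
    | 5, _, _ => exact ⟨_, _, _, _, _, isSd6_5, isSd6_0, by simp [c6_1_5], v6_1_5⟩
  | 2 =>
    refine crit_of_cert tab6 isSd6_2 fun j h1 h2 => ?_
    match j, h1, h2 with
    | 0, _, _ => exact ⟨_, _, _, _, _, isSd6_0, isSd6_1, by simp [c6_2_0], v6_2_0⟩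
    | 1, _, h2 => exact absurd rfl h2
    | 2, h1, _ => exact absurd rfl h1
    | 3, _, _ => exact ⟨_, _, _, _, _, isSd6_3, isSd6_4, by simp [c6_2_3], v6_2_3⟩
    | 4, _, _ => exact ⟨_, _, _, _, _, isSd6_4, isSd6_5, by simp [c6_2_4], v6_2_4⟩
    | 5, _, _ => exact ⟨_, _, _, _, _, isSd6_5, isSd6_0, by simp [c6_2_5], v6_2_5⟩
  | 3 =>
    refine crit_of_cert tab6 isSd6_3 fun j h1 h2 => ?_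
    match j, h1, h2 with
    | 0, _, _ => exact ⟨_, _, _, _, _, isSd6_0, isSd6_1, by simp [c6_3_0], v6_3_0⟩
    | 1, _, _ => exact ⟨_, _, _, _, _, isSd6_1, isSd6_2, by simp [c6_3_1], v6_3_1⟩
    | 2, _, h2 => exact absurd rfl h2
    | 3, h1, _ => exact absurd rfl h1
    | 4, _, _ => exact ⟨_, _, _, _, _, isSd6_4, isSd6_5, by simp [c6_3_4], v6_3_4⟩
    | 5, _, _ => exact ⟨_, _, _, _, _, isSd6_5, isSd6_0, by simp [c6_3_5], v6_3_5⟩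
  | 4 =>
    refine crit_of_cert tab6 isSd6_4 fun j h1 h2 => ?_
    match j, h1, h2 with
    | 0, _, _ => exact ⟨_, _, _, _, _, isSd6_0, isSd6_1, by simp [c6_4_0], v6_4_0⟩
    | 1, _, _ => exact ⟨_, _, _, _, _, isSd6_1, isSd6_2, by simp [c6_4_1], v6_4_1⟩
    | 2, _, _ => exact ⟨_, _, _, _, _, isSd6_2, isSd6_3, by simp [c6_4_2], v6_4_2⟩
    | 3, _, h2 => exact absurd rfl h2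
    | 4, h1, _ => exact absurd rfl h1
    | 5, _, _ => exact ⟨_, _, _, _, _, isSd6_5, isSd6_0, by simp [c6_4_5], v6_4_5⟩
  | 5 =>
    refine crit_of_cert tab6 isSd6_5 fun j h1 h2 => ?_
    match j, h1, h2 with
    | 0, _, _ => exact ⟨_, _, _, _, _, isSd6_0, isSd6_1, by simp [c6_5_0], v6_5_0⟩
    | 1, _, _ => exact ⟨_, _, _, _, _, isSd6_1, isSd6_2, by simp [c6_5_1], v6_5_1⟩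
    | 2, _, _ => exact ⟨_, _, _, _, _, isSd6_2, isSd6_3, by simp [c6_5_2], v6_5_2⟩
    | 3, _, _ => exact ⟨_, _, _, _, _, isSd6_3, isSd6_4, by simp [c6_5_3], v6_5_3⟩
    | 4, _, h2 => exact absurd rfl h2
    | 5, h1, _ => exact absurd rfl h1

end ConvexPolygon

end Bil62
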