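import Pool.Agent.BCR.CovS

/-! BCR: certificates for a convex polygon with 7 sides (959 cells). -/

namespace Bil62

open Chk

namespace ConvexPolygon

def X7 : Fin 7 → ℤ × ℤ := ![(167, 118), (33, 159), (-163, 109), (-209, -43), (-93, -141), (110, -110), (214, -32)]

/-- a convex polygon with 7 sides -/
noncomputable def P7 : ConvexPolygon 7 := ofZ X7 (by decide) (by decide)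

def s7_0 : Sd := ⟨167, 118, 33, 159, 16275, -10988, 19637⟩
def s7_1 : Sd := ⟨33, 159, -163, 109, 35916, 19600, 40916⟩
def s7_2 : Sd := ⟨-163, 109, -209, -43, -20988, 13984, 25220⟩
def s7_3 : Sd := ⟨-209, -43, -93, -141, 3852, -22736, 23060⟩
def s7_4 : Sd := ⟨-93, -141, 110, -110, 40248, 12586, 42170⟩
def s7_5 : Sd := ⟨110, -110, 214, -32, 4732, 16224, 16900⟩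
def s7_6 : Sd := ⟨214, -32, 167, 118, -20291, -14100, 24709⟩

theorem isSd7_0 : P7.IsSd 0 s7_0 := by
  constructor <;> simp [P7, ofZ, X7, s7_0]
theorem isSd7_1 : P7.IsSd 1 s7_1 := by
  constructor <;> simp [P7, ofZ, X7, s7_1]
theorem isSd7_2 : P7.IsSd 2 s7_2 := by
  constructor <;> simp [P7, ofZ, X7, s7_2]
theorem isSd7_3 : P7.IsSd 3 s7_3 := by
  constructor <;> simp [P7, ofZ, X7, s7_3]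
theorem isSd7_4 : P7.IsSd 4 s7_4 := by
  constructor <;> simp [P7, ofZ, X7, s7_4]
theorem isSd7_5 : P7.IsSd 5 s7_5 := by
  constructor <;> simp [P7, ofZ, X7, s7_5]
theorem isSd7_6 : P7.IsSd 6 s7_6 := by
  constructor <;> simp [P7, ofZ, X7, s7_6]

def S7 : List Sd := [s7_0, s7_1, s7_2, s7_3, s7_4, s7_5, s7_6]

theorem tab7 : P7.Tab S7 := by
  intro m d h
  match m, h with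
  | 0, h => exact ⟨0, by simp only [S7, List.getElem?_cons_succ, List.getElem?_cons_zero, Option.some.injEq] at h; rw [← h]; exact isSd7_0⟩
  | 1, h => exact ⟨1, by simp only [S7, List.getElem?_cons_succ, List.getElem?_cons_zero, Option.some.injEq] at h; rw [← h]; exact isSd7_1⟩
  | 2, h => exact ⟨2, by simp only [S7, List.getElem?_cons_succ, List.getElem?_cons_zero, Option.some.injEq] at h; rw [← h]; exact isSd7_2⟩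
  | 3, h => exact ⟨3, by simp only [S7, List.getElem?_cons_succ, List.getElem?_cons_zero, Option.some.injEq] at h; rw [← h]; exact isSd7_3⟩
  | 4, h => exact ⟨4, by simp only [S7, List.getElem?_cons_succ, List.getElem?_cons_zero, Option.some.injEq] at h; rw [← h]; exact isSd7_4⟩
  | 5, h => exact ⟨5, by simp only [S7, List.getElem?_cons_succ, List.getElem?_cons_zero, Option.some.injEq] at h; rw [← h]; exact isSd7_5⟩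
  | 6, h => exact ⟨6, by simp only [S7, List.getElem?_cons_succ, List.getElem?_cons_zero, Option.some.injEq] at h; rw [← h]; exact isSd7_6⟩
  | m + 7, h => simp [S7] at h

def c7_0_1 : List Cell := [
  ⟨1, 1, 356, 2, 7⟩, ⟨2, 2, 78180, 1, 4⟩, ⟨1, 1, 20, 1, 8⟩, ⟨2, 2, 21, -1, 18⟩, ⟨0, 0, 1250899, -1, 13⟩, ⟨2, 2, 357, -1, 8⟩, ⟨0, 0, 5715, -1, 7⟩,
  ⟨1, 1, 5140, -2, 9⟩, ⟨2, 2, 305422918, -1, 4⟩, ⟨0, 0, 21050947, -5, 18⟩, ⟨1, 1, 25734800974817682755, -9, 32⟩, ⟨0, 0, 5140, -3, 8⟩, ⟨2, 2, 74566, -5, 12⟩,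
  ⟨0, 0, 86224606484, -3, 7⟩, ⟨2, 2, 310, -5, 11⟩, ⟨1, 1, 1250899, -19, 37⟩, ⟨2, 2, 23148841103938380086, -15, 29⟩, ⟨1, 1, 1251011081315, -11, 21⟩,
  ⟨0, 0, 5396, -37, 66⟩, ⟨2, 2, 1, -2, 3⟩, ⟨0, 0, 20, -10, 11⟩, ⟨2, 1, 1, -7, 5⟩, ⟨0, 0, 21, -11, 5⟩, ⟨2, 1, 1462854, -7, 3⟩, ⟨0, 0, 357, -13, 5⟩,
  ⟨1, 2, 5715, -50, 17⟩, ⟨0, 0, 5124146267829334, -63, 20⟩, ⟨1, 2, 95247489663329603, -29, 9⟩, ⟨0, 0, 5950979011916886, -10, 3⟩,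
  ⟨2, 1, 5950979011916886, -17, 5⟩, ⟨1, 2, 95883978051, -7, 2⟩, ⟨2, 1, 5124146267829334, -15, 4⟩, ⟨0, 0, 305422918, -4, 1⟩, ⟨1, 2, 21050947, -9, 2⟩,
  ⟨2, 1, 357, -5, 1⟩, ⟨1, 2, 5140, -7, 1⟩, ⟨2, 1, 21, -27, -1⟩, ⟨0, 0, 1, -4, -1⟩, ⟨2, 1, 20, -3, -1⟩]

theorem v7_0_1 : vertOk S7 s7_0 s7_1 s7_2 (7) (23) c7_0_1 = true := by
  decide +kernel

def c7_0_2 : List Cell := [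
  ⟨1, 1, 325133126, -6, 5⟩, ⟨0, 0, 20, -13, 8⟩, ⟨1, 1, 357, -2, 1⟩, ⟨2, 2, 5158, -9, 4⟩, ⟨0, 0, 86628, -5, 2⟩, ⟨2, 2, 1, -8, 1⟩, ⟨0, 0, 357, -24, 1⟩,
  ⟨1, 1, 20, -9, -1⟩, ⟨2, 2, 21050721, -7, -1⟩, ⟨1, 2, 20, -4, -1⟩, ⟨2, 2, 337, -17, -6⟩, ⟨0, 0, 5158, -5, -2⟩, ⟨1, 2, 86628, -9, -4⟩, ⟨0, 0, 1, -11, -9⟩,
  ⟨1, 2, 357, -25, -24⟩, ⟨2, 1, 21050721, -17, -18⟩, ⟨0, 0, 99527265645147591156833, -14, -15⟩, ⟨2, 1, 1446608847498331489, -53, -57⟩,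
  ⟨0, 0, 389680595002942268785435745, -13, -14⟩, ⟨2, 1, 24293369757148857697, -10, -11⟩, ⟨0, 0, 5657470049, -6, -7⟩, ⟨1, 2, 74566, -5, -6⟩,
  ⟨2, 1, 5657470049, -11, -14⟩, ⟨1, 2, 1123142, -36, -47⟩, ⟨2, 1, 99527265645147591156833, -40, -53⟩, ⟨0, 0, 21050721, -15, -22⟩, ⟨2, 1, 5675295841, -23, -34⟩,
  ⟨0, 0, 5713, -9, -14⟩, ⟨2, 1, 23405665, -7, -11⟩, ⟨0, 0, 337, -1, -2⟩, ⟨2, 1, 1, -1, -4⟩]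

theorem v7_0_2 : vertOk S7 s7_0 s7_2 s7_3 (-13) (11) c7_0_2 = true := by
  decide +kernel

def c7_0_3 : List Cell := [
  ⟨1, 1, 321, -15, -4⟩, ⟨0, 0, 1177699950949, -11, -3⟩, ⟨2, 2, 23167962796353, -52, -15⟩, ⟨1, 1, 5389037905, -13, -4⟩, ⟨2, 2, 82241, -5, -2⟩,
  ⟨0, 0, 82230, -9, -4⟩, ⟨1, 1, 337, -11, -6⟩, ⟨0, 0, 5158, -23, -14⟩, ⟨2, 2, 274, -3, -2⟩, ⟨1, 1, 1, -3, -4⟩, ⟨0, 0, 1, -8, -19⟩,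
  ⟨2, 1, 1608459355922117218, -5, -12⟩, ⟨1, 1, 1255761077286, -7, -17⟩, ⟨2, 1, 1456554127970, -19, -47⟩, ⟨1, 1, 91174, -2, -5⟩, ⟨2, 1, 1323618, -19, -48⟩,
  ⟨1, 1, 5158, -1, -3⟩, ⟨2, 1, 18, -4, -23⟩, ⟨1, 1, 1251012272741, -1, -6⟩, ⟨2, 1, 274, -8, -77⟩, ⟨1, 1, 1177699950949, -3, -32⟩, ⟨0, 0, 321, 1, -14⟩,
  ⟨2, 1, 82241, 4, -29⟩, ⟨1, 2, 78188323173, 1, -7⟩, ⟨2, 1, 86540112193, 9, -59⟩, ⟨0, 0, 86540112193, 4, -25⟩, ⟨2, 1, 23167962796353, 1, -6⟩,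
  ⟨0, 0, 82241, 1, -4⟩, ⟨2, 1, 321, 2, -5⟩, ⟨1, 2, 5158, 10, -23⟩, ⟨0, 0, 274, 21, -41⟩, ⟨2, 1, 5202133329, 14, -27⟩, ⟨0, 0, 18, 10, -13⟩, ⟨1, 2, 1, 1, -1⟩,
  ⟨2, 1, 1, 3, -2⟩]

theorem v7_0_3 : vertOk S7 s7_0 s7_3 s7_4 (-7) (-1) c7_0_3 = true := by
  decide +kernel

def c7_0_4 : List Cell := [
  ⟨1, 1, 338, -9, -7⟩, ⟨2, 2, 338, -5, -4⟩, ⟨1, 1, 5714, -23, -21⟩, ⟨2, 2, 6863304943291941922666621958366786, -47, -43⟩, ⟨0, 0, 5414, -12, -13⟩,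
  ⟨1, 1, 1193058, -17, -20⟩, ⟨0, 0, 1379778450982, -21, -25⟩, ⟨2, 2, 5991850275, -53, -65⟩, ⟨1, 1, 1668398299674436781768846905831723874, -22, -27⟩,
  ⟨2, 2, 20072079057187, -4, -5⟩, ⟨0, 0, 6909168744618039915790479894, -27, -34⟩, ⟨2, 2, 1452875735331, -27, -35⟩, ⟨1, 1, 1381218, -23, -32⟩,
  ⟨0, 0, 411818548716189856278, -5, -7⟩, ⟨1, 1, 18, -33, -49⟩, ⟨2, 2, 20988503113028952355, -2, -3⟩, ⟨1, 1, 21127969, -7, -11⟩,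
  ⟨0, 0, 23172997321494, -47, -75⟩, ⟨1, 1, 305, -4, -7⟩, ⟨0, 0, 4886, -4, -9⟩, ⟨2, 1, 5139, -5, -12⟩, ⟨0, 0, 22, -23, -91⟩, ⟨2, 1, 1251012272419, -3, -13⟩,
  ⟨0, 0, 1, 1, -4⟩, ⟨1, 1, 1, 3, -5⟩, ⟨2, 1, 1320497, 8, -13⟩, ⟨1, 1, 22, 11, -13⟩, ⟨0, 0, 353515057, 6, -7⟩, ⟨1, 1, 4886, 14, -13⟩, ⟨0, 0, 305, 7, -6⟩,
  ⟨1, 1, 23172997321494, 13, -11⟩, ⟨0, 0, 21127969, 11, -9⟩, ⟨2, 1, 82241, 15, -11⟩, ⟨1, 1, 23409174, 13, -9⟩, ⟨2, 1, 321, 19, -12⟩, ⟨0, 0, 1193058, 5, -3⟩,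
  ⟨2, 1, 1, 17, -1⟩, ⟨0, 0, 1251012272419, 26, -1⟩, ⟨2, 1, 22, 9, 1⟩, ⟨0, 0, 5139, 7, 1⟩, ⟨2, 1, 4886, 5, 1⟩]

theorem v7_0_4 : vertOk S7 s7_0 s7_4 s7_5 (-7) (-5) c7_0_4 = true := by
  decide +kernel

def c7_0_5 : List Cell := [
  ⟨1, 1, 305, 1, -3⟩, ⟨0, 0, 1, 2, -3⟩, ⟨1, 1, 1, 7, -5⟩, ⟨0, 0, 305, 5, -3⟩, ⟨1, 2, 1, 7, -1⟩, ⟨0, 0, 1386050, 8, -1⟩, ⟨1, 2, 4673, 14, -1⟩,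
  ⟨2, 2, 5412, 19, -1⟩, ⟨1, 2, 1320497, 29, -1⟩, ⟨2, 1, 5412, 1, 0⟩, ⟨0, 0, 322, 39, 1⟩, ⟨2, 1, 1446594545293878308, 32, 1⟩, ⟨0, 0, 1448312332579, 23, 1⟩,
  ⟨2, 1, 392740772930596, 20, 1⟩, ⟨0, 0, 19161379, 18, 1⟩, ⟨1, 2, 305, 6, 1⟩, ⟨0, 0, 5139, 24, 7⟩, ⟨2, 1, 287577363, 17, 5⟩, ⟨0, 0, 91155, 13, 4⟩,
  ⟨1, 2, 1453361353505, 19, 6⟩, ⟨2, 1, 91155, 3, 1⟩, ⟨0, 0, 287577363, 53, 18⟩, ⟨2, 1, 5139, 15, 7⟩, ⟨1, 2, 338, 7, 4⟩, ⟨0, 0, 4660, 5, 3⟩,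
  ⟨1, 2, 1386050, 35, 23⟩, ⟨2, 1, 322, 10, 7⟩, ⟨0, 0, 5412, 19, 14⟩, ⟨2, 1, 5992748610, 17, 13⟩]

theorem v7_0_5 : vertOk S7 s7_0 s7_5 s7_6 (1) (-4) c7_0_5 = true := by
  decide +kernel

def c7_1_6 : List Cell := [
  ⟨1, 1, 5639456292, 23, -7⟩, ⟨0, 0, 1, 1, 0⟩, ⟨1, 1, 19, 6, 1⟩, ⟨2, 2, 4661, 5, 1⟩, ⟨0, 0, 81986, 67, 21⟩, ⟨1, 1, 81986, 16, 7⟩,
  ⟨2, 2, 1254199682341, 29, 13⟩, ⟨0, 0, 19, 4, 3⟩, ⟨1, 1, 1, 15, 19⟩, ⟨0, 0, 5639456292, 3, 4⟩, ⟨1, 2, 1, 5, 14⟩, ⟨2, 1, 20, 1, 6⟩, ⟨1, 2, 81986, 1, 15⟩,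
  ⟨2, 1, 79396, -1, 39⟩, ⟨1, 2, 1375200240690, -1, 30⟩, ⟨2, 1, 19088932, -1, 24⟩, ⟨0, 0, 1254199682341, -1, 19⟩, ⟨1, 2, 19, -4, 13⟩, ⟨2, 1, 19, -1, 2⟩]

theorem v7_1_6 : vertOk S7 s7_1 s7_6 s7_0 (3) (-1) c7_1_6 = true := by
  decide +kernel

def c7_1_2 : List Cell := [
  ⟨1, 1, 74566, -5, 4⟩, ⟨2, 2, 310, -5, 3⟩, ⟨0, 0, 356, -2, 1⟩, ⟨2, 2, 1311782, -16, 7⟩, ⟨1, 1, 78204904453, -7, 3⟩, ⟨0, 0, 19944036, -89, 35⟩,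
  ⟨1, 1, 85950015060, -8, 3⟩, ⟨2, 2, 22347992904744969568, -19, 7⟩, ⟨0, 0, 1458788, -3, 1⟩, ⟨2, 2, 336, -6, 1⟩, ⟨1, 1, 5371875940, -19, 3⟩,
  ⟨2, 2, 1270352, -7, 1⟩, ⟨1, 1, 356, -9, 1⟩, ⟨2, 2, 1, -167, -83⟩, ⟨1, 2, 1458788, -9, -5⟩, ⟨2, 1, 1, -1, -1⟩, ⟨0, 0, 1, -10, -33⟩,
  ⟨2, 1, 22347992904744969568, -3, -10⟩]

theorem v7_1_2 : vertOk S7 s7_1 s7_2 s7_3 (-7) (6) c7_1_2 = true := by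
  decide +kernel

def c7_1_3 : List Cell := [
  ⟨1, 1, 1, -8, -5⟩, ⟨0, 0, 91174, -3, -2⟩, ⟨1, 1, 320, -275, -274⟩, ⟨0, 0, 336, -16, -17⟩, ⟨2, 2, 352596578, -14, -15⟩, ⟨1, 1, 5402677840, -12, -13⟩,
  ⟨2, 2, 23343714, -9, -10⟩, ⟨1, 1, 1375497245264, -7, -8⟩, ⟨2, 2, 74594, -19, -22⟩, ⟨1, 1, 4886717008, -23, -27⟩, ⟨2, 2, 4962, -2, -3⟩, ⟨0, 0, 320, -3, -7⟩,
  ⟨2, 1, 23343714, -5, -12⟩, ⟨0, 0, 1, 1, -4⟩, ⟨2, 1, 1, 5, -6⟩, ⟨0, 0, 23343714, 11, -13⟩, ⟨2, 1, 320, 5, -4⟩]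

theorem v7_1_3 : vertOk S7 s7_1 s7_3 s7_4 (-1) (0) c7_1_3 = true := by
  decide +kernel

def c7_1_4 : List Cell := [
  ⟨1, 1, 325206098, -9, -7⟩, ⟨0, 0, 91174, -5, -4⟩, ⟨1, 1, 5373036114, -7, -6⟩, ⟨2, 2, 23340610, -14, -13⟩, ⟨0, 0, 335742246, -24, -23⟩,
  ⟨1, 1, 22007955924066, -1, -1⟩, ⟨2, 2, 86051, -19, -20⟩, ⟨1, 1, 1332044178530, -15, -16⟩, ⟨0, 0, 5991826726, -27, -29⟩, ⟨2, 2, 291, -2, -3⟩,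
  ⟨1, 1, 1, 1, -42⟩, ⟨0, 0, 86064, 1, -25⟩, ⟨1, 1, 304, 2, -15⟩, ⟨0, 0, 81968, 2, -13⟩, ⟨1, 1, 81968, 1, -6⟩, ⟨0, 0, 304, 3, -11⟩, ⟨2, 1, 352466018, 19, -66⟩,
  ⟨0, 0, 1, 1, -1⟩, ⟨2, 1, 1, 19, -12⟩, ⟨0, 0, 352466018, 5, -3⟩, ⟨2, 1, 304, 2, -1⟩, ⟨1, 1, 335742246, 40, -19⟩, ⟨2, 1, 81968, 9, -4⟩,
  ⟨0, 0, 5373036114, 5, -2⟩, ⟨1, 1, 91174, 8, -3⟩, ⟨0, 0, 325206098, 3, -1⟩, ⟨1, 2, 91174, 43, -13⟩, ⟨0, 0, 373450050, 10, -3⟩, ⟨2, 1, 305422912, 18, -5⟩,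
  ⟨0, 0, 23340610, 4, -1⟩, ⟨2, 1, 1270336, 27, -5⟩, ⟨1, 2, 83251954982, 29, -5⟩, ⟨0, 0, 325210147, 6, -1⟩, ⟨2, 1, 95602213440, 25, -4⟩, ⟨0, 0, 291, 12, -1⟩,
  ⟨1, 2, 22, 7, 1⟩, ⟨2, 1, 22, 3, 1⟩]

theorem v7_1_4 : vertOk S7 s7_1 s7_4 s7_5 (-7) (-5) c7_1_4 = true := by
  decide +kernel

def c7_1_5 : List Cell := [
  ⟨1, 1, 1, 7, -12⟩, ⟨0, 0, 81690772256, 8, -13⟩, ⟨2, 2, 1443700810850, 5, -8⟩, ⟨1, 1, 1311776, 3, -4⟩, ⟨0, 0, 1311776, 8, -9⟩, ⟨2, 2, 20983890, 10, -11⟩,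
  ⟨1, 1, 81690772256, 19, -20⟩, ⟨0, 0, 1, 8, -3⟩, ⟨1, 2, 81690772256, 54, -19⟩, ⟨2, 2, 308, 25, -8⟩, ⟨1, 2, 5152, 10, -3⟩, ⟨2, 2, 4660, 4, -1⟩,
  ⟨1, 2, 1311776, 6, -1⟩, ⟨2, 2, 1376820, 83, -11⟩, ⟨1, 2, 1, 7, 2⟩, ⟨2, 1, 19, 5, 2⟩, ⟨0, 0, 4660, 13, 7⟩, ⟨2, 1, 291, 8, 5⟩, ⟨0, 0, 373449764, 41, 27⟩,
  ⟨1, 2, 5106902594, 3, 2⟩, ⟨2, 1, 352127294787650, 25, 17⟩, ⟨1, 2, 5698, 11, 8⟩, ⟨2, 1, 5698, 5, 4⟩]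

theorem v7_1_5 : vertOk S7 s7_1 s7_5 s7_6 (1) (-4) c7_1_5 = true := by
  decide +kernel

def c7_2_6 : List Cell := [
  ⟨1, 1, 20, 7, -2⟩, ⟨2, 2, 20, 5, -1⟩, ⟨0, 0, 17, 37, 1⟩, ⟨2, 2, 6015013946110954922772, 34, 1⟩, ⟨0, 0, 1, 3, 1⟩, ⟨1, 1, 1, 5, 3⟩, ⟨2, 2, 277, 32, 21⟩,
  ⟨1, 1, 17, 11, 12⟩, ⟨0, 0, 308, 8, 9⟩, ⟨2, 1, 21, 1, 2⟩, ⟨1, 2, 17, 5, 14⟩, ⟨0, 0, 6015013946110954922772, 11, 31⟩, ⟨1, 2, 1, 0, 1⟩, ⟨0, 0, 21, -2, 15⟩,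
  ⟨2, 1, 308, -1, 6⟩, ⟨0, 0, 277, -7, 32⟩, ⟨1, 2, 356690444091548435731, -11, 49⟩, ⟨2, 1, 4648604675, -3, 13⟩, ⟨1, 2, 5442664247002387, -4, 17⟩,
  ⟨2, 1, 85967770627, -1, 4⟩, ⟨1, 2, 1267219, -3, 11⟩, ⟨0, 0, 18154261, -11, 38⟩, ⟨2, 1, 390417159033859, -7, 23⟩, ⟨0, 0, 1676827705131417357058837, -9, 29⟩,
  ⟨2, 1, 1524781766163, -11, 35⟩]

theorem v7_2_6 : vertOk S7 s7_2 s7_6 s7_0 (2) (-1) c7_2_6 = true := by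
  decide +kernel

def c7_2_0 : List Cell := [
  ⟨1, 1, 261, 3, 1⟩, ⟨0, 0, 1, 4, 3⟩, ⟨2, 2, 326, 47, 48⟩, ⟨1, 1, 304577674216196, 31, 32⟩, ⟨2, 1, 326, 7, 10⟩, ⟨1, 1, 335811604, 13, 20⟩,
  ⟨2, 1, 1454406, 7, 12⟩, ⟨1, 1, 1525067027476, 9, 16⟩, ⟨0, 0, 4451, 10, 19⟩, ⟨2, 1, 86252983126, 14, 27⟩, ⟨0, 0, 355, 3, 7⟩, ⟨2, 1, 4950, 2, 5⟩,
  ⟨1, 1, 20, 1, 4⟩, ⟨2, 1, 261, 1, 6⟩, ⟨1, 1, 355, 2, 17⟩, ⟨0, 0, 85967770644, 1, 10⟩, ⟨2, 1, 5141, 1, 18⟩, ⟨1, 1, 352523523, 5, 121⟩, ⟨2, 1, 1270549, 1, 52⟩,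
  ⟨0, 0, 335811604, 0, 1⟩, ⟨2, 1, 90901, -1, 16⟩, ⟨0, 0, 352519188, -3, 35⟩, ⟨2, 1, 5957288725, -1, 9⟩, ⟨1, 1, 83475, -4, 25⟩, ⟨2, 1, 21, -2, 9⟩,
  ⟨0, 0, 1377028, -1, 4⟩, ⟨2, 1, 1377028, -5, 17⟩, ⟨1, 1, 1, -7, 8⟩, ⟨2, 1, 20, -1, 1⟩, ⟨1, 2, 1, -7, 3⟩, ⟨0, 0, 326, -49, 15⟩, ⟨2, 1, 353292218816019, -10, 3⟩]

theorem v7_2_0 : vertOk S7 s7_2 s7_0 s7_1 (4) (1) c7_2_0 = true := by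
  decide +kernel

def c7_2_3 : List Cell := [
  ⟨1, 1, 81985, -5, -1⟩, ⟨2, 2, 1454145, -14, -3⟩, ⟨1, 1, 5204164673, -23, -5⟩, ⟨2, 2, 94629902862602561, -59, -13⟩,
  ⟨0, 0, 1615106145881645536784741, -95, -21⟩, ⟨2, 2, 21057857, -4, -1⟩, ⟨0, 0, 341913957, -27, -7⟩, ⟨2, 2, 352123802964289, -15, -4⟩, ⟨0, 0, 4453, -38, -13⟩,
  ⟨2, 2, 20988225, -5, -2⟩, ⟨0, 0, 20988214, -9, -4⟩, ⟨2, 2, 1, -2, -3⟩, ⟨1, 1, 278, -3, -5⟩, ⟨2, 1, 1, 0, -1⟩, ⟨0, 0, 81985, 2, -37⟩,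
  ⟨2, 1, 20988225, 3, -26⟩, ⟨0, 0, 352123802964289, 1, -8⟩, ⟨1, 2, 4453, 5, -26⟩, ⟨0, 0, 20988225, 13, -51⟩, ⟨2, 1, 81985, 1, -3⟩, ⟨0, 0, 1, 7, -6⟩,
  ⟨2, 1, 5372985664, 19, -16⟩]

theorem v7_2_3 : vertOk S7 s7_2 s7_3 s7_4 (-7) (-1) c7_2_3 = true := by
  decide +kernel

def c7_2_4 : List Cell := [
  ⟨1, 1, 1, -3, -4⟩, ⟨0, 0, 278, -2, -3⟩, ⟨1, 1, 17, -7, -11⟩, ⟨0, 0, 21369622, -7, -12⟩, ⟨1, 1, 18178097, -4, -7⟩, ⟨2, 2, 336925715, -6, -11⟩,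
  ⟨1, 1, 5681, -5, -11⟩, ⟨2, 1, 1311763, -3, -7⟩, ⟨1, 1, 79409, -5, -12⟩, ⟨0, 0, 4358, -5, -16⟩, ⟨1, 1, 321, -2, -7⟩, ⟨2, 1, 19, -1, -7⟩, ⟨0, 0, 320, 0, -1⟩,
  ⟨2, 1, 1, 1, -3⟩, ⟨1, 1, 320, 1, -2⟩, ⟨0, 0, 5372985665, 9, -17⟩, ⟨2, 1, 5681, 5, -8⟩, ⟨1, 1, 262, 2, -3⟩, ⟨0, 0, 321, 7, -10⟩, ⟨1, 1, 4358, 11, -13⟩,
  ⟨0, 0, 79409, 22, -25⟩, ⟨2, 1, 4570034497, 8, -9⟩, ⟨0, 0, 5681, 25, -24⟩, ⟨2, 1, 5372985665, 10, -9⟩, ⟨1, 1, 21369622, 13, -11⟩, ⟨0, 0, 17, 6, -5⟩,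
  ⟨1, 1, 278, 4, -3⟩, ⟨0, 0, 1, 3, -1⟩, ⟨1, 2, 22, 5, -1⟩, ⟨0, 0, 19, 1, 0⟩, ⟨2, 1, 262, 56, 1⟩, ⟨1, 2, 21369622, 17, 1⟩, ⟨2, 1, 4358, 9, 1⟩,
  ⟨1, 2, 1377046, 8, 1⟩, ⟨0, 0, 1311763, 7, 1⟩, ⟨2, 1, 90246021910, 13, 2⟩]

theorem v7_2_4 : vertOk S7 s7_2 s7_4 s7_5 (-3) (-2) c7_2_4 = true := by
  decide +kernel

def c7_2_5 : List Cell := [
  ⟨1, 1, 6305847194386115320655990833, 11, -35⟩, ⟨2, 2, 104801731570713584816177, 7, -22⟩, ⟨1, 1, 1599147515422265393, 12, -37⟩,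
  ⟨0, 0, 20930439434218968286847280, 31, -95⟩, ⟨2, 2, 6868286280218285494512996401, 17, -52⟩, ⟨0, 0, 353292218884400, 15, -44⟩, ⟨2, 2, 1134641, 5, -14⟩,
  ⟨0, 0, 20275504, 7, -19⟩, ⟨1, 1, 5681, 5, -11⟩, ⟨2, 2, 17, 4, -7⟩, ⟨0, 0, 16, 2, -3⟩, ⟨2, 2, 1, 5, -4⟩, ⟨0, 0, 5681, 4, -3⟩, ⟨2, 2, 19, 5, -3⟩,
  ⟨0, 0, 86065, 16, -9⟩, ⟨2, 2, 1311763, 2, -1⟩, ⟨0, 0, 17, 5, -2⟩, ⟨1, 2, 16, 3, -1⟩, ⟨0, 0, 1, 1, 0⟩, ⟨2, 1, 20, 18, 1⟩, ⟨0, 0, 19, 8, 1⟩, ⟨2, 1, 308, 9, 2⟩,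
  ⟨1, 2, 17, 94, 31⟩, ⟨0, 0, 1316115, 17, 6⟩, ⟨1, 2, 1, 3, 2⟩, ⟨2, 1, 1, 1, 1⟩]

theorem v7_2_5 : vertOk S7 s7_2 s7_5 s7_6 (26) (-83) c7_2_5 = true := by
  decide +kernel

def c7_3_6 : List Cell := [
  ⟨1, 1, 83492, 23, -7⟩, ⟨0, 0, 17, 4, -1⟩, ⟨2, 2, 5668, 6, -1⟩, ⟨1, 1, 1, 6, 1⟩, ⟨2, 2, 21, 9, 2⟩, ⟨1, 1, 18, 7, 2⟩, ⟨0, 0, 1130562, 67, 21⟩,
  ⟨1, 1, 1130562, 14, 5⟩, ⟨0, 0, 18, 12, 5⟩, ⟨1, 1, 19040684818498, 16, 7⟩, ⟨0, 0, 1, 23, 22⟩, ⟨2, 1, 4629, 9, 10⟩, ⟨1, 1, 17, 15, 19⟩, ⟨0, 0, 83492, 3, 4⟩,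
  ⟨1, 2, 17, 7, 10⟩, ⟨0, 0, 5668, 2, 3⟩, ⟨1, 2, 289, 12, 25⟩, ⟨0, 0, 276, 4, 13⟩, ⟨2, 1, 276, 1, 7⟩, ⟨0, 0, 303482726868005, 20, 141⟩,
  ⟨2, 1, 17946053533732, 1, 8⟩, ⟨0, 0, 273835045, 1, 10⟩, ⟨1, 2, 1130562, 1, 15⟩, ⟨2, 1, 5668, 0, 1⟩, ⟨1, 2, 18, -1, 30⟩, ⟨2, 1, 83492, -1, 14⟩,
  ⟨1, 2, 1, -1, 4⟩, ⟨2, 1, 1, -1, 2⟩]

theorem v7_3_6 : vertOk S7 s7_3 s7_6 s7_0 (3) (-1) c7_3_6 = true := by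
  decide +kernel

def c7_3_0 : List Cell := [
  ⟨1, 1, 4613, 35, 9⟩, ⟨2, 2, 4613, 52, 15⟩, ⟨0, 0, 100941898993245544857666, 24, 7⟩, ⟨2, 2, 4381360726, 13, 4⟩, ⟨1, 1, 23502367244805, 22, 7⟩,
  ⟨0, 0, 1130562, 8, 3⟩, ⟨2, 2, 303448662, 13, 5⟩, ⟨0, 0, 91806122050, 5, 2⟩, ⟨2, 2, 342, 7, 4⟩, ⟨0, 0, 18, 11, 9⟩, ⟨2, 2, 90694, 7, 6⟩, ⟨0, 0, 1, 1, 2⟩,
  ⟨2, 1, 342, 3, 8⟩, ⟨1, 1, 22413604, 5, 14⟩, ⟨2, 1, 303448662, 4, 13⟩, ⟨0, 0, 289493028, 23, 76⟩, ⟨1, 1, 303551177838628, 21, 71⟩,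
  ⟨2, 1, 85985739350, 13, 45⟩, ⟨0, 0, 23502367313956, 7, 25⟩, ⟨2, 1, 4381360726, 4, 15⟩, ⟨0, 0, 22413604, 4, 17⟩, ⟨1, 1, 4381302820, 3, 13⟩,
  ⟨0, 0, 289800484, 3, 14⟩, ⟨1, 1, 75300, 1, 5⟩, ⟨0, 0, 276, 1, 6⟩, ⟨1, 1, 1, -1, 4⟩, ⟨2, 1, 260, -1, 3⟩, ⟨1, 1, 18, -2, 5⟩, ⟨0, 0, 277, -17, 28⟩,
  ⟨2, 1, 4648604692, -25, 38⟩, ⟨1, 1, 1185763442754, -77, 116⟩, ⟨0, 0, 74188923925, -13, 19⟩, ⟨1, 1, 91806122050, -7, 10⟩, ⟨0, 0, 70677, -8, 11⟩,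
  ⟨2, 1, 276, -11, 13⟩, ⟨0, 0, 4837163525, -7, 8⟩, ⟨2, 1, 289800484, -8, 9⟩, ⟨0, 0, 4613, -9, 10⟩, ⟨2, 1, 22413604, -19, 20⟩, ⟨0, 0, 4381360726, -35, 36⟩,
  ⟨2, 1, 23502367313956, -71, 72⟩, ⟨0, 0, 85985739350, -1, 1⟩, ⟨1, 2, 1130562, -11, 10⟩, ⟨0, 0, 303448662, -9, 8⟩, ⟨1, 2, 91806122050, -15, 13⟩,
  ⟨0, 0, 342, -3, 2⟩, ⟨2, 1, 1, -4, 1⟩]

theorem v7_3_0 : vertOk S7 s7_3 s7_0 s7_1 (4) (1) c7_3_0 = true := by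
  decide +kernel

def c7_3_1 : List Cell := [
  ⟨1, 1, 1183844, 2, 7⟩, ⟨0, 0, 1, -1, 4⟩, ⟨1, 1, 1, -1, 1⟩, ⟨0, 0, 1183844, -44, 43⟩, ⟨1, 2, 1, -9, 2⟩, ⟨2, 1, 73829, -47, 10⟩,
  ⟨0, 0, 77691630754488902, -19, 4⟩, ⟨2, 1, 4197, -41, 7⟩, ⟨0, 0, 18817801005486723654, -6, 1⟩, ⟨2, 1, 5125, -13, 2⟩, ⟨1, 2, 18088980, -8, 1⟩,
  ⟨2, 1, 261, -1, 0⟩, ⟨0, 0, 22, -38, -1⟩, ⟨2, 1, 4613, -27, -1⟩, ⟨0, 0, 70752, -78, -5⟩, ⟨2, 1, 1400763585557, -29, -2⟩, ⟨0, 0, 5472, -7, -1⟩,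
  ⟨2, 1, 4452, -16, -3⟩, ⟨1, 2, 87529100292, -37, -7⟩, ⟨2, 1, 1183844, -9, -2⟩, ⟨0, 0, 70101771616, -17, -4⟩, ⟨2, 1, 5380, -23, -6⟩]

theorem v7_3_1 : vertOk S7 s7_3 s7_1 s7_2 (7) (23) c7_3_1 = true := by
  decide +kernel

def c7_3_4 : List Cell := [
  ⟨1, 1, 23216210, -9, -7⟩, ⟨0, 0, 18965542, -5, -4⟩, ⟨1, 1, 74092512850, -25, -21⟩, ⟨2, 2, 22360220771906, -13, -11⟩, ⟨1, 1, 18971948615250, -34, -29⟩,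
  ⟨2, 2, 291776066, -15, -13⟩, ⟨0, 0, 273835046, -8, -7⟩, ⟨2, 2, 4855178818, -12, -11⟩, ⟨0, 0, 66854, -1, -1⟩, ⟨2, 2, 1, -1, -2⟩, ⟨1, 1, 17, -1, -3⟩,
  ⟨2, 1, 1, -1, -10⟩, ⟨0, 0, 90688, -1, -48⟩, ⟨1, 1, 4161, 1, -42⟩, ⟨0, 0, 16, 1, -4⟩, ⟨2, 1, 5218, 19, -66⟩, ⟨0, 0, 4161, 1, -3⟩, ⟨1, 1, 90688, 3, -7⟩,
  ⟨2, 1, 289, 4, -9⟩, ⟨0, 0, 290537793, 5, -11⟩, ⟨2, 1, 17, 3, -4⟩, ⟨0, 0, 17, 8, -7⟩, ⟨2, 1, 290537793, 43, -36⟩, ⟨1, 1, 4630, 3, -2⟩, ⟨2, 1, 4161, 19, -12⟩,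
  ⟨0, 0, 5218, 5, -3⟩, ⟨2, 1, 16, 22, -7⟩, ⟨0, 0, 341983314, 23, -7⟩, ⟨2, 1, 1335872, 29, -8⟩, ⟨1, 2, 273835046, 15, -4⟩, ⟨2, 1, 90688, 5, -1⟩,
  ⟨0, 0, 1, 7, 1⟩, ⟨2, 1, 278, 4, 1⟩]

theorem v7_3_4 : vertOk S7 s7_3 s7_4 s7_5 (-7) (-5) c7_3_4 = true := by
  decide +kernel

def c7_3_5 : List Cell := [
  ⟨1, 1, 17, 5, -11⟩, ⟨2, 2, 289, 4, -7⟩, ⟨0, 0, 288, 7, -11⟩, ⟨2, 2, 83298, 53, -78⟩, ⟨0, 0, 17110048, 13, -19⟩, ⟨2, 2, 1238313862738, 9, -13⟩,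
  ⟨1, 1, 18088992, 3, -4⟩, ⟨0, 0, 18088992, 48, -59⟩, ⟨2, 2, 4178, 7, -8⟩, ⟨1, 1, 288, 142, -141⟩, ⟨0, 0, 4631888449, 87, -86⟩, ⟨1, 1, 16, 4, -3⟩,
  ⟨2, 2, 1, 5, -2⟩, ⟨1, 2, 288, 3, -1⟩, ⟨2, 2, 20, 7, -1⟩, ⟨0, 0, 17114690, 8, -1⟩, ⟨2, 2, 77682861092, 28, -3⟩, ⟨0, 0, 335881794, 29, -3⟩,
  ⟨2, 2, 4668417060, 21, -2⟩, ⟨0, 0, 275064386, 11, -1⟩, ⟨2, 2, 357763532350500, 35, -3⟩, ⟨0, 0, 1185346, 19, -1⟩, ⟨1, 2, 17, 6, 1⟩, ⟨0, 0, 1, 3, 1⟩,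
  ⟨2, 1, 1, 20, 13⟩, ⟨0, 0, 4668417060, 41, 27⟩, ⟨1, 2, 275064386, 3, 2⟩, ⟨0, 0, 357763532350500, 31, 21⟩, ⟨1, 2, 1185346, 19, 14⟩, ⟨2, 1, 1185346, 5, 4⟩]

theorem v7_3_5 : vertOk S7 s7_3 s7_5 s7_6 (1) (-4) c7_3_5 = true := by
  decide +kernel

def c7_4_6 : List Cell := [
  ⟨1, 1, 1, 4, -1⟩, ⟨2, 2, 1, 9, 1⟩, ⟨0, 0, 18, 3, 1⟩, ⟨1, 1, 18, 5, 3⟩, ⟨2, 2, 1454613, 13, 8⟩, ⟨1, 1, 4434, 11, 7⟩, ⟨2, 2, 1238313087509, 48, 31⟩,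
  ⟨1, 1, 1253458, 17, 11⟩, ⟨2, 2, 74376950293, 32, 21⟩, ⟨1, 1, 289, 16, 13⟩, ⟨0, 0, 259, 136, 135⟩, ⟨2, 1, 21029522387477, 1, 1⟩, ⟨0, 0, 1, 1, 3⟩,
  ⟨2, 1, 1, -4, 21⟩, ⟨1, 2, 1314345125139, -1, 5⟩, ⟨2, 1, 259, -2, 7⟩, ⟨1, 2, 18044435, -4, 13⟩, ⟨2, 1, 18044435, -1, 3⟩]

theorem v7_4_6 : vertOk S7 s7_4 s7_6 s7_0 (2) (-1) c7_4_6 = true := by
  decide +kernel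

def c7_4_0 : List Cell := [
  ⟨1, 1, 78341, 35, 9⟩, ⟨0, 0, 18, 11, 6⟩, ⟨2, 2, 70486, 7, 4⟩, ⟨0, 0, 306, 3, 2⟩, ⟨2, 2, 22, 1, 1⟩, ⟨1, 1, 1, 1, 3⟩, ⟨0, 0, 1, -1, 4⟩, ⟨2, 1, 1, -1, 1⟩,
  ⟨1, 2, 18, -3, 2⟩, ⟨2, 1, 74083, -8, 5⟩, ⟨0, 0, 22, -49, 15⟩, ⟨2, 1, 87571, -10, 3⟩]

theorem v7_4_0 : vertOk S7 s7_4 s7_0 s7_1 (4) (1) c7_4_0 = true := by
  decide +kernel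

def c7_4_1 : List Cell := [
  ⟨1, 1, 1, -2, 9⟩, ⟨2, 2, 22, -1, 3⟩, ⟨0, 0, 1, -6, 5⟩, ⟨1, 2, 4707, -5, 4⟩, ⟨0, 0, 277, -4, 3⟩, ⟨2, 1, 352, -24, 17⟩, ⟨1, 2, 70499, -8, 5⟩,
  ⟨2, 1, 288710966, -13, 8⟩, ⟨1, 2, 18158435, -43, 24⟩, ⟨0, 0, 66309, -2, 1⟩, ⟨2, 1, 22, -3, 1⟩, ⟨1, 2, 19, -4, 1⟩, ⟨0, 0, 22, -5, 1⟩, ⟨1, 2, 1, -5, -1⟩,
  ⟨2, 1, 1, -2, -1⟩]

theorem v7_4_1 : vertOk S7 s7_4 s7_1 s7_2 (1) (3) c7_4_1 = true := by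
  decide +kernel

def c7_4_2 : List Cell := [
  ⟨1, 1, 22, -4, 3⟩, ⟨0, 0, 1, -3, 1⟩, ⟨1, 1, 1, -9, -1⟩, ⟨2, 2, 1127777, -7, -1⟩, ⟨1, 2, 1, -23, -16⟩, ⟨0, 0, 304728756990288, -10, -7⟩, ⟨1, 2, 261, -5, -4⟩,
  ⟨2, 1, 73910005841, -11, -9⟩, ⟨1, 2, 73829, -10, -9⟩, ⟨0, 0, 353, -5, -6⟩, ⟨2, 1, 353, -7, -11⟩, ⟨0, 0, 1060945, -13, -22⟩, ⟨1, 2, 4406, -29, -56⟩,
  ⟨0, 0, 4843766142808145, -79, -159⟩, ⟨2, 1, 82807863647416656, -14, -29⟩, ⟨1, 2, 4902, -5, -11⟩, ⟨0, 0, 1253457, -4, -9⟩, ⟨1, 2, 294, -3, -8⟩,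
  ⟨0, 0, 17, -7, -23⟩, ⟨2, 1, 1451360, -2, -7⟩]

theorem v7_4_2 : vertOk S7 s7_4 s7_2 s7_3 (-7) (6) c7_4_2 = true := by
  decide +kernel

def c7_4_5 : List Cell := [
  ⟨1, 1, 425632007780559014885150769, 11, -35⟩, ⟨0, 0, 288710960, 15, -44⟩, ⟨2, 2, 1182779134001, 13, -36⟩, ⟨0, 0, 1469184303408, 13, -35⟩,
  ⟨2, 2, 4351742001, 8, -21⟩, ⟨1, 1, 18163249, 5, -13⟩, ⟨2, 2, 23220273, 9, -23⟩, ⟨1, 1, 75313, 7, -15⟩, ⟨2, 2, 90913, 1, -2⟩, ⟨1, 1, 17, 4, -7⟩,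
  ⟨0, 0, 4896, 5, -8⟩, ⟨1, 1, 288, 2, -3⟩, ⟨0, 0, 288, 11, -12⟩, ⟨2, 2, 18, 30, -23⟩, ⟨0, 0, 18163249, 17, -13⟩, ⟨2, 2, 90403, 25, -18⟩,
  ⟨0, 0, 4563132220792881, 7, -5⟩, ⟨2, 2, 1401123, 10, -7⟩, ⟨1, 1, 288710960, 28, -19⟩, ⟨2, 2, 288710947, 26, -17⟩, ⟨1, 2, 288710960, 19, -12⟩,
  ⟨0, 0, 1182779134001, 33, -20⟩, ⟨1, 2, 1469184303408, 27, -16⟩, ⟨2, 2, 275, 5, -2⟩, ⟨1, 2, 4896, 3, -1⟩, ⟨2, 2, 1, 8, -1⟩, ⟨0, 0, 18, 1, 0⟩, ⟨2, 1, 1, 4, 1⟩,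
  ⟨0, 0, 275, 13, 4⟩, ⟨2, 1, 4620227859, 16, 5⟩, ⟨0, 0, 4620227859, 19, 6⟩, ⟨2, 1, 275, 5, 2⟩, ⟨0, 0, 1, 3, 2⟩, ⟨2, 1, 18, 5, 4⟩]

theorem v7_4_5 : vertOk S7 s7_4 s7_5 s7_6 (26) (-83) c7_4_5 = true := by
  decide +kernel

def c7_5_6 : List Cell := [
  ⟨1, 1, 270747172, 23, -7⟩, ⟨0, 0, 90417, 43, -11⟩, ⟨2, 2, 23148068, 4, -1⟩, ⟨0, 0, 4401, 17, -4⟩, ⟨2, 2, 1127972, 17, -3⟩, ⟨0, 0, 82721, 13, -2⟩,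
  ⟨2, 2, 90148, 11, -1⟩, ⟨1, 1, 4631827459, 13, -1⟩, ⟨0, 0, 4838396961, 95, -7⟩, ⟨1, 1, 1177730237971, 55, -4⟩, ⟨0, 0, 70689, 1, 0⟩, ⟨1, 1, 275, 23, 3⟩,
  ⟨2, 2, 1, 3, 2⟩, ⟨1, 1, 70689, 5, 4⟩, ⟨2, 1, 1, 47, 129⟩, ⟨0, 0, 20976688653076, 11, 31⟩, ⟨1, 2, 18, 10, 31⟩, ⟨0, 0, 4884, 4, 13⟩, ⟨2, 1, 4884, 9, 31⟩,
  ⟨1, 2, 302787780089410, 37, 139⟩, ⟨0, 0, 1250324, 7, 27⟩, ⟨2, 1, 20976688653076, 104, 417⟩, ⟨0, 0, 1, -4, 13⟩, ⟨2, 1, 5651, -1, 3⟩]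

theorem v7_5_6 : vertOk S7 s7_5 s7_6 s7_0 (3) (-1) c7_5_6 = true := by
  decide +kernel

def c7_5_0 : List Cell := [
  ⟨1, 1, 1, 6, 5⟩, ⟨2, 2, 18047558, 23, 21⟩, ⟨0, 0, 5651, 40, 41⟩, ⟨2, 1, 4331954758, 13, 14⟩, ⟨0, 0, 369247763, 10, 11⟩, ⟨1, 1, 276, 8, 9⟩,
  ⟨0, 0, 4620174867, 6, 7⟩, ⟨2, 1, 18047558, 4, 5⟩, ⟨1, 1, 16974868, 28, 37⟩, ⟨0, 0, 259, 4, 7⟩, ⟨2, 1, 4600508742, 14, 25⟩, ⟨0, 0, 18096483, 5, 9⟩,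
  ⟨2, 1, 22, 3, 11⟩, ⟨1, 1, 90148, 1, 4⟩, ⟨2, 1, 1, -2, 9⟩, ⟨0, 0, 66308, -1, 4⟩, ⟨2, 1, 66308, -5, 17⟩, ⟨0, 0, 1, -9, 10⟩, ⟨2, 1, 1442084, -19, 20⟩,
  ⟨0, 0, 22, -3, 2⟩, ⟨2, 1, 18096483, -35, 22⟩, ⟨0, 0, 4600508742, -13, 8⟩, ⟨2, 1, 259, -11, 5⟩, ⟨1, 2, 306, -7, 3⟩, ⟨0, 0, 18047558, -46, 17⟩,
  ⟨1, 2, 5651, -49, 15⟩, ⟨2, 1, 5651, -4, 1⟩]

theorem v7_5_0 : vertOk S7 s7_5 s7_0 s7_1 (4) (1) c7_5_0 = true := by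
  decide +kernel

def c7_5_1 : List Cell := [
  ⟨1, 1, 18843702530148, 13, 43⟩, ⟨0, 0, 5635, 6, 23⟩, ⟨1, 1, 260, 3, 13⟩, ⟨0, 0, 405990570956718883427, 2, 9⟩, ⟨2, 2, 18924236255588, 4, 19⟩,
  ⟨1, 1, 19897293497867441156, 5, 24⟩, ⟨2, 2, 1108980474212, 12, 61⟩, ⟨0, 0, 5121262179, 3, 16⟩, ⟨2, 2, 1, -1, 9⟩, ⟨0, 0, 19, -1, 7⟩, ⟨2, 2, 22, -1, 5⟩,
  ⟨0, 0, 323, -2, 9⟩, ⟨2, 2, 4331954758, -1, 4⟩, ⟨0, 0, 387106480404035, -12, 47⟩, ⟨1, 1, 387106480404035, -6, 23⟩, ⟨2, 2, 19161670, -2, 7⟩,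
  ⟨1, 1, 323, -1, 3⟩, ⟨2, 2, 4678, -5, 14⟩, ⟨1, 1, 19, -1, 2⟩, ⟨0, 0, 276, -5, 9⟩, ⟨1, 1, 78485009507, -17, 30⟩, ⟨0, 0, 94827324420, -73, 128⟩,
  ⟨1, 1, 1521594020963, -95, 166⟩, ⟨2, 2, 317089170789472, -39, 68⟩, ⟨1, 1, 70499, -5, 8⟩, ⟨2, 2, 352, -53, 61⟩, ⟨1, 1, 405990570956718883427, -8, 9⟩,
  ⟨0, 0, 260, -15, 16⟩, ⟨2, 1, 352, -9, 7⟩, ⟨0, 0, 1, -5, 2⟩, ⟨1, 2, 19, -11, 4⟩, ⟨0, 0, 22, -10, 3⟩, ⟨2, 1, 22, -17, 4⟩, ⟨1, 2, 1109179577923, -13, 3⟩,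
  ⟨2, 1, 1, -12, -1⟩, ⟨0, 0, 352, -17, -4⟩, ⟨2, 1, 260, -23, -6⟩]

theorem v7_5_1 : vertOk S7 s7_5 s7_1 s7_2 (7) (23) c7_5_1 = true := by
  decide +kernel

def c7_5_2 : List Cell := [
  ⟨1, 1, 81278949610125745267526, -6, 5⟩, ⟨0, 0, 18093060, -16, 13⟩, ⟨2, 2, 4406, -10, 7⟩, ⟨1, 1, 1, -7, 3⟩, ⟨2, 2, 352, -11, 4⟩, ⟨0, 0, 86739665508, -43, 15⟩,
  ⟨2, 2, 16, -5, 1⟩, ⟨0, 0, 1, -1, 0⟩, ⟨1, 1, 260, -15, -1⟩, ⟨0, 0, 1057606, -25, -2⟩, ⟨2, 2, 353, -19, -3⟩, ⟨1, 2, 260, -4, -1⟩, ⟨2, 2, 17, -5, -2⟩,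
  ⟨1, 2, 4708, -9, -4⟩, ⟨0, 0, 352, -29, -15⟩, ⟨2, 1, 16979521, -17, -9⟩, ⟨0, 0, 16, -4, -3⟩, ⟨1, 2, 1, -9, -10⟩, ⟨0, 0, 288760929, -6, -7⟩,
  ⟨1, 2, 1057606, -33, -41⟩, ⟨0, 0, 353, -5, -7⟩, ⟨1, 2, 4406, -2, -3⟩, ⟨0, 0, 17, -1, -2⟩, ⟨2, 1, 16, -1, -3⟩, ⟨1, 2, 352, -4, -13⟩, ⟨2, 1, 352, -1, -4⟩]

theorem v7_5_2 : vertOk S7 s7_5 s7_2 s7_3 (-13) (11) c7_5_2 = true := by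
  decide +kernel

def c7_5_3 : List Cell := [
  ⟨1, 1, 369246273, -6, -1⟩, ⟨0, 0, 1, -3, -1⟩, ⟨1, 1, 17, -69, -38⟩, ⟨2, 2, 19843493557159605778, -9, -5⟩, ⟨1, 1, 353, -8, -5⟩,
  ⟨2, 2, 6811391502904199358534934546, -11, -7⟩, ⟨1, 1, 1441507152339305230643520, -25, -16⟩, ⟨0, 0, 5925594150, -14, -9⟩, ⟨1, 1, 78144, -10, -7⟩,
  ⟨2, 2, 258, -54, -47⟩, ⟨1, 1, 6191304645553909812871914330341696, -31, -27⟩, ⟨2, 2, 5634, -1, -1⟩, ⟨1, 1, 16, -3, -4⟩, ⟨2, 2, 70498, -2, -3⟩,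
  ⟨0, 0, 1130816, -11, -17⟩, ⟨1, 1, 1516717224470, -9, -14⟩, ⟨0, 0, 302787682451776, -8, -13⟩, ⟨2, 1, 70498, -5, -9⟩, ⟨1, 1, 294, -300, -601⟩,
  ⟨2, 1, 5011328440048530788286993250, -105, -211⟩, ⟨1, 1, 23225382, -28, -57⟩, ⟨2, 1, 18975440507746, -14, -29⟩, ⟨1, 1, 5421229094, -10, -21⟩,
  ⟨0, 0, 78144, -23, -54⟩, ⟨2, 1, 1387834651234, -5, -12⟩, ⟨0, 0, 353, -4, -11⟩, ⟨2, 1, 5634, -1, -3⟩, ⟨0, 0, 17, -1, -6⟩, ⟨1, 1, 1, 0, -1⟩,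
  ⟨0, 0, 369246273, 1, -45⟩, ⟨1, 2, 1, 5, -24⟩, ⟨0, 0, 94527045953, 32, -139⟩, ⟨2, 1, 19279937, 11, -45⟩, ⟨1, 2, 1512134689078, 22, -87⟩,
  ⟨0, 0, 285956275978561, 14, -55⟩, ⟨1, 2, 4332732726, 13, -49⟩, ⟨2, 1, 5092748167731866648641, 15, -56⟩, ⟨1, 2, 94527045942, 9, -31⟩,
  ⟨2, 1, 369246273, 3, -10⟩, ⟨0, 0, 1197586, 27, -79⟩, ⟨1, 2, 1446454, 6, -17⟩, ⟨2, 1, 1177730236481, 4, -11⟩, ⟨0, 0, 5907891730, 32, -83⟩,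
  ⟨1, 2, 19843499955634570278, 12, -31⟩, ⟨2, 1, 425708463918738281742811201, 7, -18⟩, ⟨1, 2, 66598, 10, -23⟩, ⟨0, 0, 318296759392888184850, 4, -9⟩,
  ⟨2, 1, 17, 2, -3⟩, ⟨0, 0, 5634, 10, -13⟩, ⟨1, 2, 16, 1, -1⟩, ⟨0, 0, 70498, 23, -20⟩, ⟨2, 1, 302787682451776, 19, -16⟩]

theorem v7_5_3 : vertOk S7 s7_5 s7_3 s7_4 (-20) (-3) c7_5_3 = true := by
  decide +kernel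

def c7_6_0 : List Cell := [
  ⟨1, 1, 1323525, 35, 9⟩, ⟨2, 2, 1323525, 52, 15⟩, ⟨1, 1, 1131013, 24, 7⟩, ⟨2, 2, 1, 1, 1⟩, ⟨0, 0, 275, 6, 7⟩, ⟨2, 1, 1, 4, 15⟩, ⟨0, 0, 65828, 2, 9⟩,
  ⟨1, 1, 292, 1, 5⟩, ⟨0, 0, 4884, 6, 31⟩, ⟨1, 1, 19, 3, 37⟩, ⟨0, 0, 81958016020, 1, 22⟩, ⟨2, 1, 4885, -2, 31⟩, ⟨1, 1, 18023427, -3, 35⟩,
  ⟨2, 1, 320144149, -1, 9⟩, ⟨1, 1, 275, -7, 29⟩, ⟨2, 1, 19202820, -165, 578⟩, ⟨1, 1, 18023699, -15, 52⟩, ⟨0, 0, 293, -7, 20⟩, ⟨1, 1, 87090, -4, 11⟩,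
  ⟨0, 0, 78357, -3, 8⟩, ⟨1, 1, 5170, -1, 2⟩, ⟨0, 0, 4885, -17, 28⟩, ⟨2, 1, 81958016020, -11, 17⟩, ⟨0, 0, 16851989, -11, 16⟩, ⟨2, 1, 17746873291796, -12, 17⟩,
  ⟨1, 1, 20004930, -3, 4⟩, ⟨2, 1, 86804, -80, 97⟩, ⟨1, 1, 90112507300473431212098, -19, 23⟩, ⟨2, 1, 4884, -11, 13⟩, ⟨0, 0, 1387816632837, -7, 8⟩,
  ⟨2, 1, 65828, -19, 20⟩, ⟨0, 0, 1, -3, 1⟩, ⟨2, 1, 275, -4, 1⟩]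

theorem v7_6_0 : vertOk S7 s7_6 s7_0 s7_1 (4) (1) c7_6_0 = true := by
  decide +kernel

def c7_6_1 : List Cell := [
  ⟨1, 1, 20, 2, 7⟩, ⟨2, 2, 20, 1, 4⟩, ⟨0, 0, 19, -1, 42⟩, ⟨1, 1, 91319702804, -1, 35⟩, ⟨0, 0, 339, -1, 7⟩, ⟨2, 2, 1, -5, 9⟩, ⟨1, 1, 19, -29, 31⟩,
  ⟨2, 1, 16, -4, 3⟩, ⟨1, 2, 19, -3, 2⟩, ⟨2, 1, 1, -3, 1⟩, ⟨0, 0, 1, -38, -1⟩, ⟨2, 1, 69323796997, -34, -1⟩, ⟨0, 0, 16, -17, -4⟩,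
  ⟨1, 2, 321074912039940, -21, -5⟩, ⟨0, 0, 21176400, -55, -14⟩, ⟨2, 1, 17970436, -23, -6⟩]

theorem v7_6_1 : vertOk S7 s7_6 s7_1 s7_2 (1) (3) c7_6_1 = true := by
  decide +kernel

def c7_6_2 : List Cell := [
  ⟨1, 1, 1, -4, 3⟩, ⟨2, 2, 1, -2, 1⟩, ⟨0, 0, 20, -3, 1⟩, ⟨1, 1, 20, -12, 1⟩, ⟨2, 2, 17, -7, -1⟩, ⟨0, 0, 1, -3, -1⟩, ⟨1, 2, 20, -5, -3⟩, ⟨0, 0, 78160, -14, -9⟩,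
  ⟨1, 2, 340, -13, -9⟩, ⟨0, 0, 5122306384, -10, -7⟩, ⟨1, 2, 74757, -11, -8⟩, ⟨2, 1, 73825071185, -4, -3⟩, ⟨1, 2, 1057797, -9, -7⟩, ⟨2, 1, 1126481, -6, -5⟩,
  ⟨1, 2, 21, -1, -1⟩, ⟨2, 1, 17, -2, -3⟩, ⟨1, 2, 1, -3, -8⟩, ⟨0, 0, 321, -4, -13⟩, ⟨2, 1, 16, -1, -4⟩]

theorem v7_6_2 : vertOk S7 s7_6 s7_2 s7_3 (-1) (1) c7_6_2 = true := by
  decide +kernel

def c7_6_3 : List Cell := [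
  ⟨1, 1, 16924737, -6, -1⟩, ⟨0, 0, 21, -17, -6⟩, ⟨2, 2, 4332732737, -8, -3⟩, ⟨0, 0, 1, -9, -8⟩, ⟨2, 2, 258, -1, -1⟩, ⟨1, 1, 306205264, -17, -18⟩,
  ⟨2, 2, 18, -2, -3⟩, ⟨1, 1, 1, -3, -17⟩, ⟨0, 0, 17973585, -1, -6⟩, ⟨1, 1, 21, 0, -1⟩, ⟨2, 1, 274, 1, -35⟩, ⟨1, 2, 21, 5, -24⟩, ⟨0, 0, 4332732737, 2, -9⟩,
  ⟨1, 2, 1, 3, -4⟩, ⟨2, 1, 17, 4, -5⟩, ⟨0, 0, 18, 7, -6⟩, ⟨2, 1, 78387429696, 19, -16⟩]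

theorem v7_6_3 : vertOk S7 s7_6 s7_3 s7_4 (-20) (-3) c7_6_3 = true := by
  decide +kernel

def c7_6_4 : List Cell := [
  ⟨1, 1, 1196114, -9, -7⟩, ⟨0, 0, 1, -2, -7⟩, ⟨2, 1, 4387, -2, -13⟩, ⟨0, 0, 66112, -1, -9⟩, ⟨2, 1, 320950307, -1, -10⟩, ⟨0, 0, 4672, 1, -81⟩,
  ⟨2, 1, 1196114, 1, -14⟩, ⟨1, 1, 4400, 1, -7⟩, ⟨0, 0, 20135616266288, 3, -19⟩, ⟨2, 1, 18, 1, -3⟩, ⟨1, 1, 4672, 3, -7⟩, ⟨2, 1, 4897, 4, -9⟩,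
  ⟨1, 1, 66112, 1, -2⟩, ⟨0, 0, 78387429697, 9, -17⟩, ⟨2, 1, 305, 2, -3⟩, ⟨1, 1, 1, 8, -3⟩, ⟨0, 0, 1196114, 3, -1⟩, ⟨1, 2, 1, 1, 0⟩, ⟨2, 1, 1, 3, 1⟩]

theorem v7_6_4 : vertOk S7 s7_6 s7_4 s7_5 (-7) (-5) c7_6_4 = true := by
  decide +kernel

theorem crit7 (i : Fin 7) : P7.Crit i := by
  match i with
  | 0 =>
    refine crit_of_cert tab7 isSd7_0 fun j h1 h2 => ?_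
    match j, h1, h2 with
    | 0, h1, _ => exact absurd rfl h1
    | 1, _, _ => exact ⟨_, _, _, _, _, isSd7_1, isSd7_2, by simp [c7_0_1], v7_0_1⟩
    | 2, _, _ => exact ⟨_, _, _, _, _, isSd7_2, isSd7_3, by simp [c7_0_2], v7_0_2⟩
    | 3, _, _ => exact ⟨_, _, _, _, _, isSd7_3, isSd7_4, by simp [c7_0_3], v7_0_3⟩
    | 4, _, _ => exact ⟨_, _, _, _, _, isSd7_4, isSd7_5, by simp [c7_0_4], v7_0_4⟩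
    | 5, _, _ => exact ⟨_, _, _, _, _, isSd7_5, isSd7_6, by simp [c7_0_5], v7_0_5⟩
    | 6, _, h2 => exact absurd rfl h2
  | 1 =>
    refine crit_of_cert tab7 isSd7_1 fun j h1 h2 => ?_
    match j, h1, h2 with
    | 0, _, h2 => exact absurd rfl h2
    | 1, h1, _ => exact absurd rfl h1
    | 2, _, _ => exact ⟨_, _, _, _, _, isSd7_2, isSd7_3, by simp [c7_1_2], v7_1_2⟩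
    | 3, _, _ => exact ⟨_, _, _, _, _, isSd7_3, isSd7_4, by simp [c7_1_3], v7_1_3⟩
    | 4, _, _ => exact ⟨_, _, _, _, _, isSd7_4, isSd7_5, by simp [c7_1_4], v7_1_4⟩
    | 5, _, _ => exact ⟨_, _, _, _, _, isSd7_5, isSd7_6, by simp [c7_1_5], v7_1_5⟩
    | 6, _, _ => exact ⟨_, _, _, _, _, isSd7_6, isSd7_0, by simp [c7_1_6], v7_1_6⟩
  | 2 =>
    refine crit_of_cert tab7 isSd7_2 fun j h1 h2 => ?_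
    match j, h1, h2 with
    | 0, _, _ => exact ⟨_, _, _, _, _, isSd7_0, isSd7_1, by simp [c7_2_0], v7_2_0⟩
    | 1, _, h2 => exact absurd rfl h2
    | 2, h1, _ => exact absurd rfl h1
    | 3, _, _ => exact ⟨_, _, _, _, _, isSd7_3, isSd7_4, by simp [c7_2_3], v7_2_3⟩
    | 4, _, _ => exact ⟨_, _, _, _, _, isSd7_4, isSd7_5, by simp [c7_2_4], v7_2_4⟩
    | 5, _, _ => exact ⟨_, _, _, _, _, isSd7_5, isSd7_6, by simp [c7_2_5], v7_2_5⟩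
    | 6, _, _ => exact ⟨_, _, _, _, _, isSd7_6, isSd7_0, by simp [c7_2_6], v7_2_6⟩
  | 3 =>
    refine crit_of_cert tab7 isSd7_3 fun j h1 h2 => ?_
    match j, h1, h2 with
    | 0, _, _ => exact ⟨_, _, _, _, _, isSd7_0, isSd7_1, by simp [c7_3_0], v7_3_0⟩
    | 1, _, _ => exact ⟨_, _, _, _, _, isSd7_1, isSd7_2, by simp [c7_3_1], v7_3_1⟩
    | 2, _, h2 => exact absurd rfl h2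
    | 3, h1, _ => exact absurd rfl h1
    | 4, _, _ => exact ⟨_, _, _, _, _, isSd7_4, isSd7_5, by simp [c7_3_4], v7_3_4⟩
    | 5, _, _ => exact ⟨_, _, _, _, _, isSd7_5, isSd7_6, by simp [c7_3_5], v7_3_5⟩
    | 6, _, _ => exact ⟨_, _, _, _, _, isSd7_6, isSd7_0, by simp [c7_3_6], v7_3_6⟩
  | 4 =>
    refine crit_of_cert tab7 isSd7_4 fun j h1 h2 => ?_
    match j, h1, h2 with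
    | 0, _, _ => exact ⟨_, _, _, _, _, isSd7_0, isSd7_1, by simp [c7_4_0], v7_4_0⟩
    | 1, _, _ => exact ⟨_, _, _, _, _, isSd7_1, isSd7_2, by simp [c7_4_1], v7_4_1⟩
    | 2, _, _ => exact ⟨_, _, _, _, _, isSd7_2, isSd7_3, by simp [c7_4_2], v7_4_2⟩
    | 3, _, h2 => exact absurd rfl h2
    | 4, h1, _ => exact absurd rfl h1
    | 5, _, _ => exact ⟨_, _, _, _, _, isSd7_5, isSd7_6, by simp [c7_4_5], v7_4_5⟩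
    | 6, _, _ => exact ⟨_, _, _, _, _, isSd7_6, isSd7_0, by simp [c7_4_6], v7_4_6⟩
  | 5 =>
    refine crit_of_cert tab7 isSd7_5 fun j h1 h2 => ?_
    match j, h1, h2 with
    | 0, _, _ => exact ⟨_, _, _, _, _, isSd7_0, isSd7_1, by simp [c7_5_0], v7_5_0⟩
    | 1, _, _ => exact ⟨_, _, _, _, _, isSd7_1, isSd7_2, by simp [c7_5_1], v7_5_1⟩
    | 2, _, _ => exact ⟨_, _, _, _, _, isSd7_2, isSd7_3, by simp [c7_5_2], v7_5_2⟩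
    | 3, _, _ => exact ⟨_, _, _, _, _, isSd7_3, isSd7_4, by simp [c7_5_3], v7_5_3⟩
    | 4, _, h2 => exact absurd rfl h2
    | 5, h1, _ => exact absurd rfl h1
    | 6, _, _ => exact ⟨_, _, _, _, _, isSd7_6, isSd7_0, by simp [c7_5_6], v7_5_6⟩
  | 6 =>
    refine crit_of_cert tab7 isSd7_6 fun j h1 h2 => ?_
    match j, h1, h2 with
    | 0, _, _ => exact ⟨_, _, _, _, _, isSd7_0, isSd7_1, by simp [c7_6_0], v7_6_0⟩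
    | 1, _, _ => exact ⟨_, _, _, _, _, isSd7_1, isSd7_2, by simp [c7_6_1], v7_6_1⟩
    | 2, _, _ => exact ⟨_, _, _, _, _, isSd7_2, isSd7_3, by simp [c7_6_2], v7_6_2⟩
    | 3, _, _ => exact ⟨_, _, _, _, _, isSd7_3, isSd7_4, by simp [c7_6_3], v7_6_3⟩
    | 4, _, _ => exact ⟨_, _, _, _, _, isSd7_4, isSd7_5, by simp [c7_6_4], v7_6_4⟩
    | 5, _, h2 => exact absurd rfl h2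
    | 6, h1, _ => exact absurd rfl h1

end ConvexPolygon

end Bil62
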