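import Pool.Agent.Helper62.Bil.Near

/-! BCR: a finite criterion for the problem on invariant sets containing one side: definitions.
The plane is `ℂ`; an oriented line with unit direction `u` is the pair `(u, p)`, `p` the common
value of `cross u z` at its points `z`. -/

namespace Bil62

open MeasureTheory Set

open scoped ComplexConjugate

namespace ConvexPolygon

variable {n : ℕ} [NeZero n] (P : ConvexPolygon n)

/-- the reflection of an oriented line in side `k` -/
noncomputable def bnc (k : Fin n) (x : ℂ × ℝ) : ℂ × ℝ :=
  (P.refl k x.1, cross (P.refl k x.1) (P.V k) + cross x.1 (P.V k) - x.2)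

/-- the billiard trajectory along the oriented line `x` leaves through (the interior of) the
sides of the list `l`, being reflected each time, and then arrives at the side `i` -/
def Path (i : Fin n) : List (Fin n) → ℂ × ℝ → Prop
  | [], x => P.Exit x.1 x.2 i
  | k :: l, x => P.Exit x.1 x.2 k ∧ Path i l (P.bnc k x)

/-- Turning around the vertex `V (j+1)` between the sides `j` and `j+1`: a trajectory with
direction `u` that passes the vertex infinitely close, being reflected alternately in the two
sides (first in side `j` if the flag is `true`, in side `j+1` otherwise), in total `r` times, and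
then follows the path `l` from the vertex to the side `i`. -/
def Turn (i j : Fin n) : Bool → ℕ → List (Fin n) → ℂ → Prop
  | _, 0, l, u => P.Path i l (u, cross u (P.V (j + 1)))
  | true, r + 1, l, u =>
      cross u (P.V j) < cross u (P.V (j + 1)) ∧ Turn i j false r l (P.refl j u)
  | false, r + 1, l, u =>
      cross u (P.V (j + 1)) < cross u (P.V (j + 1 + 1)) ∧ Turn i j true r l (P.refl (j + 1) u)

/-- The criterion for side `i`: for every vertex `V (j+1)` that is not an end of `a_i` and every
unit vector `u` with which one can arrive at this vertex inside the (closed) polygon, the side `i`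
is reached by at least one of: the incoming trajectory followed backwards, the two trajectories
that turn around the vertex on either side. -/
def Crit (i : Fin n) : Prop :=
  ∀ j, j ≠ i → j + 1 ≠ i → ∀ u : ℂ, ‖u‖ = 1 → cross u (P.V j) ≤ cross u (P.V (j + 1)) →
    cross u (P.V (j + 1)) ≤ cross u (P.V (j + 1 + 1)) →
    ∃ l, P.Path i l (-u, - cross u (P.V (j + 1))) ∨ ∃ b r, P.Turn i j b r l u

/-- separation at one vertex, for one direction -/
def SepAt (i j : Fin n) (u : ℂ) (ε : ℝ) : Prop :=
  ∀ p p' : ℝ, (∃ k, cross u (P.V k) < p) → (∃ k, p' < cross u (P.V k)) →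
    cross u (P.V j) - ε < p → p < cross u (P.V j) → cross u (P.V j) < p' →
    p' < cross u (P.V j) + ε →
    ∃ l, P.Path i l (u, p) ∨ P.Path i l (u, p') ∨ P.Path i l (-u, -p) ∨ P.Path i l (-u, -p')

/-- of two parallel lines through the polygon that pass a vertex on different sides, both at
distance `< ε`, one reaches side `i` (forwards or backwards) -/
def Sep (i : Fin n) (ε : ℝ) : Prop := ∀ (j : Fin n) (u : ℂ), ‖u‖ = 1 → P.SepAt i j u ε

/-! ### trapped lines and unfolding -/

/-- the line belongs to a two-sided orbit that misses side `i` -/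
def TrL (i : Fin n) (x : ℂ × ℝ) : Prop :=
  ∃ y : ℤ → ℂ × ℝ, y 0 = x ∧ ∀ m, P.ChordR i (y m) (y (m + 1))

/-- the line after `m` reflections in the sides `κ 0, κ 1, …` -/
noncomputable def itr (κ : ℕ → Fin n) : ℕ → ℂ × ℝ → ℂ × ℝ
  | 0, x => x
  | m + 1, x => P.bnc (κ m) (itr κ m x)

/-- the unfolding: the isometry that carries the polygon to its `m`-th copy -/
noncomputable def unf (κ : ℕ → Fin n) : ℕ → ℂ → ℂ
  | 0, z => z
  | m + 1, z => unf κ m (P.rpt (κ m) z)

/-- the line has the infinite itinerary `κ` -/
def Itin (κ : ℕ → Fin n) (x : ℂ × ℝ) : Prop :=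
  ∀ m, P.Exit (P.itr κ m x).1 (P.itr κ m x).2 (κ m)

/-- the oriented line through the point `pt k s` of side `k` with angle `θ` -/
noncomputable def ln (k : Fin n) (θ s : ℝ) : ℂ × ℝ := (P.vk k θ, cross (P.vk k θ) (P.pt k s))

/-- all lines of direction `θ` from the points of side `k` with `|s - s₀| ≤ h` have the infinite
itinerary `κ`, and the copies of the polygon met by them go to infinity -/
def Strip (k : Fin n) (s₀ h θ : ℝ) (κ : ℕ → Fin n) : Prop :=
  (∀ s ∈ Icc (s₀ - h) (s₀ + h), P.Itin κ (P.ln k θ s)) ∧
  ∀ T : ℝ, ∃ m, T < ‖P.unf κ m (P.V (κ m)) - P.pt k s₀‖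

end ConvexPolygon

end Bil62
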