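import Pool.Agent.BCR.Defs

/-! BCR: integer certificates for the criterion: definitions of the checker.  All arithmetic is
in `ℤ`; `frc`, `frcN` force the kernel to evaluate a number before it is used. -/

namespace Bil62

namespace Chk

/-- data of one side: end points `(ax, ay)`, `(bx, by')`, and for `d = b - a`:
`c = dx ^ 2 - dy ^ 2`, `s = 2 dx dy`, `N = dx ^ 2 + dy ^ 2` -/
structure Sd where
  ax : ℤ
  ay : ℤ
  bx : ℤ
  bY : ℤ
  c : ℤ
  s : ℤ
  N : ℤ

/-- force the evaluation of a natural number -/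
def frcN {α : Sort*} (m : ℕ) (f : ℕ → α) : α := Nat.rec (f 0) (fun t _ => f (t + 1)) m

/-- force the evaluation of an integer -/
def frc {α : Sort*} (z : ℤ) (f : ℤ → α) : α :=
  match z with
  | Int.ofNat m => frcN m fun t => f (Int.ofNat t)
  | Int.negSucc m => frcN m fun t => f (Int.negSucc t)

/-- the line `(a, b; p)` leaves through the side -/
def ex (d : Sd) (a b p : ℤ) : Bool := decide (a * d.ay - b * d.ax < p) && decide (p < a * d.bY - b * d.bx)

/-- reflect the line `(a, b; p)` in the side (and scale it by `N`) -/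
def bn {α : Sort*} (d : Sd) (a b p : ℤ) (f : ℤ → ℤ → ℤ → α) : α :=
  frc (d.c * a + d.s * b) fun a' => frc (d.s * a - d.c * b) fun b' =>
    frc (a' * d.ay - b' * d.ax + d.N * (a * d.ay - b * d.ax - p)) fun p' => f a' b' p'

/-- follow the path coded by `w` (digits in base 16, ended by a leading 1) for both lines and check
that they arrive at side `t` -/
def run (S : List Sd) (t : Sd) : ℕ → ℕ → ℤ → ℤ → ℤ → ℤ → ℤ → ℤ → Bool
  | 0, _, _, _, _, _, _, _ => false
  | f + 1, w, a, b, p, a', b', p' =>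
      bif w == 1 then ex t a b p && ex t a' b' p'
      else frcN (w / 16) fun w' =>
        match S[w % 16]? with
        | none => false
        | some d => (ex d a b p && ex d a' b' p') &&
            bn d a b p fun x y z => bn d a' b' p' fun x' y' z' => run S t f w' x y z x' y' z'

/-- turn `r` times around the vertex `(vx, vy)` with the sides `d₁`, `d₂` alternately -/
def turn (S : List Sd) (t : Sd) (vx vy : ℤ) : ℕ → Sd → Sd → ℕ → ℤ → ℤ → ℤ → ℤ → Bool
  | 0, _, _, w, a, b, a', b' =>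
      run S t 1000 w a b (a * vy - b * vx) a' b' (a' * vy - b' * vx)
  | r + 1, d₁, d₂, w, a, b, a', b' =>
      (decide (a * d₁.ay - b * d₁.ax < a * d₁.bY - b * d₁.bx) &&
        decide (a' * d₁.ay - b' * d₁.ax < a' * d₁.bY - b' * d₁.bx)) &&
      bn d₁ a b 0 fun x y _ => bn d₁ a' b' 0 fun x' y' _ => turn S t vx vy r d₂ d₁ w x y x' y'

/-- one cell: type (0: backwards, 1: first reflection in side `j`, otherwise first in side `j+1`),
number of reflections at the vertex, word, direction at the end of the cell -/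
structure Cell where
  ty : ℕ
  r : ℕ
  w : ℕ
  x : ℤ
  y : ℤ

/-- check of one cell with directions `(a, b)`, `(a', b')` at its ends; `d₁` is side `j`, `d₂` is
side `j+1`, they meet at `(d₂.ax, d₂.ay)` -/
def cellOk (S : List Sd) (t d₁ d₂ : Sd) (e : Cell) (a b a' b' : ℤ) : Bool :=
  match e.ty with
  | 0 => turn S t d₂.ax d₂.ay 0 d₁ d₂ e.w (-a) (-b) (-a') (-b')
  | 1 => turn S t d₂.ax d₂.ay e.r d₁ d₂ e.w a b a' b'
  | _ => turn S t d₂.ax d₂.ay e.r d₂ d₁ e.w a b a' b'

/-- check of all cells from the direction `(a, b)` on -/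
def cellsOk (S : List Sd) (t d₁ d₂ : Sd) : List Cell → ℤ → ℤ → Bool
  | [], a, b =>
      decide ((d₂.bx - d₂.ax) * b - (d₂.bY - d₂.ay) * a ≤ 0) &&
      decide ((d₁.ax - d₂.ax) * b - (d₁.ay - d₂.ay) * a ≤ 0)
  | e :: es, a, b =>
      (decide (0 < a * e.y - b * e.x) && cellOk S t d₁ d₂ e a b e.x e.y) &&
      cellsOk S t d₁ d₂ es e.x e.y

/-- certificate for one side `i` and one vertex -/
def vertOk (S : List Sd) (t d₁ d₂ : Sd) (a b : ℤ) (es : List Cell) : Bool :=
  (decide (a * (d₂.bY - d₂.ay) - b * (d₂.bx - d₂.ax) ≤ 0) &&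
    decide (a * (d₁.ay - d₂.ay) - b * (d₁.ax - d₂.ax) ≤ 0)) &&
  cellsOk S t d₁ d₂ es a b

end Chk

open Chk

namespace ConvexPolygon

variable {n : ℕ} [NeZero n]

/-- the integer data `d` describe side `k` of `P` -/
structure IsSd (P : ConvexPolygon n) (k : Fin n) (d : Sd) : Prop where
  a_re : (P.V k).re = d.ax
  a_im : (P.V k).im = d.ay
  b_re : (P.V (k + 1)).re = d.bx
  b_im : (P.V (k + 1)).im = d.bY
  c_eq : d.c = (d.bx - d.ax) ^ 2 - (d.bY - d.ay) ^ 2
  s_eq : d.s = 2 * (d.bx - d.ax) * (d.bY - d.ay)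
  N_eq : d.N = (d.bx - d.ax) ^ 2 + (d.bY - d.ay) ^ 2

/-- the list `S` describes the sides of `P` -/
def Tab (P : ConvexPolygon n) (S : List Sd) : Prop :=
  ∀ (m : ℕ) (d : Sd), S[m]? = some d → ∃ k : Fin n, P.IsSd k d

/-- the line `(u, q)` is, up to a positive factor, a nonnegative combination of the integer lines
`(a, b; p)` and `(a', b'; p')` -/
def Comb (u : ℂ) (q : ℝ) (a b p a' b' p' : ℤ) : Prop :=
  ∃ α β t : ℝ, 0 ≤ α ∧ 0 ≤ β ∧ 0 < α + β ∧ 0 < t ∧ t * u.re = α * a + β * a' ∧
    t * u.im = α * b + β * b' ∧ t * q = α * p + β * p'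

/-- convex polygon with integer vertices -/
noncomputable def ofZ (X : Fin n → ℤ × ℤ) (h3 : 3 ≤ n)
    (hc : ∀ k j : Fin n, j ≠ k → j ≠ k + 1 →
      0 < ((X (k + 1)).1 - (X k).1) * ((X j).2 - (X k).2) -
        ((X (k + 1)).2 - (X k).2) * ((X j).1 - (X k).1)) : ConvexPolygon n where
  V := fun k => ⟨((X k).1 : ℝ), ((X k).2 : ℝ)⟩
  three_le := h3
  convex := by
    intro k j h1 h2
    have := hc k j h1 h2
    unfold cross
    simp only [Complex.sub_re, Complex.sub_im]
    exact_mod_cast this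

end ConvexPolygon

end Bil62
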