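import Pool.Agent.BCR.Rot
import Pool.Agent.BCR.Chn

/-! BCR-Fan: no fan of uncut strips (deterministic part).

By induction all strips of a dense family of directions have the same itinerary (a nearby ray leaves
through the same side, chains of nearby directions), and two rays with different directions cross
the same unfolded side only near the base point, so the copies of the polygon stay bounded. -/

namespace Bil62

open MeasureTheory Set

open scoped ComplexConjugate

namespace ConvexPolygon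

variable {n : ℕ} [NeZero n] (P : ConvexPolygon n)

/-- the exit through the unfolded side, as inequalities for the cross product -/
private lemma fan_exit {κ : ℕ → Fin n} {m : ℕ} {k : Fin n} {θ s₀ : ℝ}
    (h : P.Itin κ (P.ln k θ s₀)) :
    (-1) ^ m * cross (P.vk k θ) (P.unf κ m (P.V (κ m)) - P.pt k s₀) < 0 ∧
      0 < (-1) ^ m * cross (P.vk k θ) (P.unf κ m (P.V (κ m + 1)) - P.pt k s₀) := by
  have h1 := (P.exit_unf κ m (P.ln k θ s₀) (κ m)).1 (h m)
  unfold ln at h1
  simp only at h1
  have h2 : ∀ z w : ℂ, cross (P.vk k θ) (z - w) = cross (P.vk k θ) z - cross (P.vk k θ) w := by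
    intro z w
    unfold cross
    simp only [Complex.sub_re, Complex.sub_im]
    ring
  rw [h2, h2]
  exact h1

/-- two rays with the same itinerary up to time `a` -/
private lemma fan_two {k : Fin n} {s₀ h : ℝ} (hh : 0 < h) {α β L : ℝ} {κα κβ : ℕ → Fin n}
    (hSα : P.Strip k s₀ h α κα) (hSβ : P.Strip k s₀ h β κβ)
    (hsin : 0 < Real.sin (β - α)) (hL : ∀ j j', ‖P.V j - P.V j'‖ ≤ L) {a : ℕ}
    (hag : ∀ b ≤ a, κβ b = κα b) :
    ‖P.unf κα a (P.V (κα a)) - P.pt k s₀‖ ≤ 2 * L / Real.sin (β - α) := by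
  have hs0 : s₀ ∈ Icc (s₀ - h) (s₀ + h) := ⟨by linarith, by linarith⟩
  have eα := P.fan_exit (m := a) (hSα.1 s₀ hs0)
  have eβ := P.fan_exit (m := a) (hSβ.1 s₀ hs0)
  rw [P.unf_congr (κ := κβ) (κ' := κα) (fun b hb => hag b hb.le),
    P.unf_congr (κ := κβ) (κ' := κα) (fun b hb => hag b hb.le), hag a (le_refl a)] at eβ
  have hs : |(-1 : ℝ) ^ a| = 1 := by
    rw [abs_pow, abs_neg, abs_one, one_pow]
  have hab : ‖(P.unf κα a (P.V (κα a)) - P.pt k s₀) - (P.unf κα a (P.V (κα a + 1)) - P.pt k s₀)‖ ≤ L := by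
    rw [sub_sub_sub_cancel_right, P.unf_norm]
    exact hL _ _
  have h1 := (two_rays (P.norm_vk k α) (P.norm_vk k β) hs eα.1 eα.2 eβ.1 eβ.2 hab).1
  rw [P.cross_vk, abs_of_pos hsin] at h1
  rw [le_div_iff₀ hsin]
  linarith

theorem no_common {k : Fin n} {s₀ h : ℝ} (hh : 0 < h) {T : Set ℝ} {κ : ℝ → ℕ → Fin n}
    (hS : ∀ θ ∈ T, P.Strip k s₀ h θ (κ θ)) {α β g D L σ : ℝ} (hα : α ∈ T) (hβ : β ∈ T)
    (hαβ : 0 < β - α) (hαβ1 : β - α ≤ 1) (hg : 0 < g) (hg1 : 3 * g ≤ 1) (hσ : 0 < σ)
    (hsin : ∀ θ ∈ Icc α β, σ ≤ Real.sin θ)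
    (hL : ∀ j j', ‖P.V j - P.V j'‖ ≤ L) (hL0 : ∀ j, ‖P.V j - P.pt k s₀‖ ≤ L)
    (hT : ∀ x ∈ Icc α β, ∃ t ∈ T, t ∈ Icc α β ∧ |t - x| ≤ g)
    (hD : 2 * L / Real.sin (β - α) + L ≤ D) (hgD : 3 * g * D < h * σ / 2) : False := by
  have hsp : 0 < Real.sin (β - α) :=
    Real.sin_pos_of_pos_of_lt_pi hαβ (by linarith [Real.pi_gt_three])
  have hLnn : 0 ≤ L := (norm_nonneg _).trans (hL0 k)
  have hw : 0 ≤ 2 * L / Real.sin (β - α) := by positivity
  have hs0 : s₀ ∈ Icc (s₀ - h) (s₀ + h) := ⟨by linarith, by linarith⟩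
  have hαI : α ∈ Icc α β := ⟨le_refl _, by linarith⟩
  have hβI : β ∈ Icc α β := ⟨by linarith, le_refl _⟩
  have claim : ∀ m : ℕ, ∀ θ ∈ T, θ ∈ Icc α β → ∀ a < m, κ θ a = κ α a := by
    intro m
    induction m with
    | zero => intro θ _ _ a ha; exact absurd ha (Nat.not_lt_zero a)
    | succ m ih =>
      -- the copies of the vertices are bounded
      have bound : ∀ θ ∈ T, θ ∈ Icc α β → ∀ j, ‖P.unf (κ θ) m (P.V j) - P.pt k s₀‖ ≤ D := by
        intro θ hθ hθI j
        refine le_trans ?_ hD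
        rcases m with _ | a
        · have : P.unf (κ θ) 0 (P.V j) = P.V j := rfl
          rw [this]
          exact (hL0 j).trans (by linarith)
        · have hθα : ∀ b < a + 1, κ θ b = κ α b := ih θ hθ hθI
          have h1 := P.fan_two hh (hS α hα) (hS β hβ) hsp hL (a := a)
            (fun b hb => ih β hβ hβI b (by omega))
          rw [P.unf_congr hθα]
          have h2 : P.unf (κ α) (a + 1) (P.V j) - P.pt k s₀ =
              (P.unf (κ α) (a + 1) (P.V j) - P.unf (κ α) (a + 1) (P.V (κ α a))) +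
                (P.unf (κ α) a (P.V (κ α a)) - P.pt k s₀) := by
            rw [P.unf_succ_V (κ α) a]
            ring
          rw [h2]
          refine (norm_add_le _ _).trans ?_
          rw [P.unf_norm, add_comm]
          exact add_le_add h1 (hL _ _)
      have step : ∀ t ∈ T, ∀ t' ∈ T, t ∈ Icc α β → t' ∈ Icc α β → |t - t'| ≤ 3 * g →
          κ t m = κ t' m := by
        intro t ht t' ht' htI ht'I htt
        have hst := hsin t htI
        have h1 := P.rot_exit (κ := κ t) (m := m) (k := k) (j := κ t m) (θ := t) (θ' := t')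
          (s₀ := s₀) (h := h) (g := 3 * g) (D := D) hh (by linarith)
          (fun s hs => (hS t ht).1 s hs m) (bound t ht htI _) (bound t ht htI _)
          (by rw [abs_sub_comm]; exact htt) hg1
          (lt_of_lt_of_le hgD (by
            have := mul_le_mul_of_nonneg_left hst hh.le
            linarith))
        have h2 : P.itr (κ t) m (P.ln k t' s₀) = P.itr (κ t') m (P.ln k t' s₀) :=
          P.itr_congr (fun a ha => (ih t ht htI a ha).trans (ih t' ht' ht'I a ha).symm) _
        rw [h2] at h1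
        have h3 := (hS t' ht').1 s₀ hs0 m
        refine P.exit_unique ?_ h1 h3
        rw [P.norm_itr]
        exact P.norm_vk k t'
      have hch := chain hg hα hT (fun θ => κ θ m) step
      intro θ hθ hθI a ha
      rcases Nat.lt_succ_iff_lt_or_eq.1 ha with h1 | h1
      · exact ih θ hθ hθI a h1
      · subst h1
        exact hch θ hθ hθI
  obtain ⟨m, hm⟩ := (hS α hα).2 (2 * L / Real.sin (β - α))
  have h1 := P.fan_two hh (hS α hα) (hS β hβ) hsp hL (a := m)
    (fun b _ => claim (b + 1) β hβ hβI b (Nat.lt_succ_self b))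
  linarith

end ConvexPolygon

end Bil62
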