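import Pool.Agent.BCR.Fan

/-! BCR-Fan2: no positive measure set of angles with uncut strips over one base point.

PLAN.  `density hT` gives `θ* ∈ T ⊆ (0, π)`.  Let `σ = sin θ* / 2 > 0`; there is `δ₁ > 0` with
`sin θ ≥ σ` for `|θ - θ*| ≤ δ₁` (continuity, or `|sin a - sin b| ≤ |a - b|`: `δ₁ = σ`).  Let
`L ≥ 1` bound all `‖V j - V j'‖` and `‖V j - pt k s₀‖` (finitely many).  Let `η = hσ/(400 L)`
(make it `≤ 1/10` by taking `min`), `δ₀ = min δ₁ (1/4)`, and take `δ` from `density`.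
There are `α ∈ T ∩ Ioo (θ*-δ) (θ*-δ+ηδ)`, `β ∈ T ∩ Ioo (θ*+δ-ηδ) (θ*+δ)`; `δ ≤ β - α ≤ 2 δ ≤ 1/2`
(if `η ≤ 1/2`).  Put `g = η δ`: for `x ∈ [α, β]`: if `x + ηδ ≤ β` there is `t ∈ T ∩ Ioo x (x+ηδ)`,
`t ∈ [α, β]`; otherwise `t = β`.  `sin (β-α) ≥ (β-α)/2 ≥ δ/2` (`Real.mul_le_sin` or
`Real.sin_gt_sub_cube`), so `2L/sin(β-α) + L ≤ 4L/δ + L ≤ 5L/δ =: D`, and
`3 g D = 15 η L < hσ/2`.  Apply `P.no_common` with `κ θ` chosen by `choose`/`Classical.choose`
(define `κ θ := if hθ : θ ∈ T then (hS θ hθ).choose else fun _ => k`). -/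

namespace Bil62

open MeasureTheory Set

open scoped ComplexConjugate

namespace ConvexPolygon

variable {n : ℕ} [NeZero n] (P : ConvexPolygon n)

private theorem fan_sin {x y : ℝ} : Real.sin y - |x - y| ≤ Real.sin x := by
  have h1 := Real.lipschitzWith_sin.dist_le_mul x y
  rw [Real.dist_eq, Real.dist_eq, NNReal.coe_one, one_mul] at h1
  have h2 := (abs_le.1 h1).1
  linarith

omit [NeZero n] in
private theorem fan_bound (f : Fin n → Fin n → ℝ) (g : Fin n → ℝ) (hf : ∀ i j, 0 ≤ f i j)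
    (hg : ∀ i, 0 ≤ g i) : ∃ L : ℝ, 1 ≤ L ∧ (∀ i j, f i j ≤ L) ∧ ∀ i, g i ≤ L := by
  refine ⟨1 + (∑ i, ∑ j, f i j) + ∑ i, g i, ?_, fun i j => ?_, fun i => ?_⟩
  · have h1 : 0 ≤ ∑ i, ∑ j, f i j := Finset.sum_nonneg fun i _ => Finset.sum_nonneg fun j _ => hf i j
    have h2 : 0 ≤ ∑ i, g i := Finset.sum_nonneg fun i _ => hg i
    linarith
  · have h1 : f i j ≤ ∑ j, f i j :=
      Finset.single_le_sum (f := f i) (fun j _ => hf i j) (Finset.mem_univ j)
    have h3 : ∑ j, f i j ≤ ∑ i, ∑ j, f i j :=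
      Finset.single_le_sum (f := fun i => ∑ j, f i j)
        (fun i _ => Finset.sum_nonneg fun j _ => hf i j) (Finset.mem_univ i)
    have h2 : 0 ≤ ∑ i, g i := Finset.sum_nonneg fun i _ => hg i
    linarith
  · have h1 : 0 ≤ ∑ i, ∑ j, f i j := Finset.sum_nonneg fun i _ => Finset.sum_nonneg fun j _ => hf i j
    have h2 : g i ≤ ∑ i, g i := Finset.single_le_sum (fun i _ => hg i) (Finset.mem_univ i)
    linarith

theorem no_fan {k : Fin n} {s₀ h : ℝ} (hh : 0 < h) {T : Set ℝ} (hT : volume T ≠ 0)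
    (hT1 : T ⊆ Ioo 0 Real.pi) (hS : ∀ θ ∈ T, ∃ κ, P.Strip k s₀ h θ κ) : False := by
  classical
  obtain ⟨θ, hθ, hd⟩ := density hT
  have hθ1 := hT1 hθ
  have hsθ : 0 < Real.sin θ := Real.sin_pos_of_pos_of_lt_pi hθ1.1 hθ1.2
  obtain ⟨L, hL1, hL, hL0⟩ := fan_bound (fun j j' => ‖P.V j - P.V j'‖)
    (fun j => ‖P.V j - P.pt k s₀‖) (fun _ _ => norm_nonneg _) (fun _ => norm_nonneg _)
  obtain ⟨σ, hσ⟩ : ∃ σ : ℝ, σ = Real.sin θ / 2 := ⟨_, rfl⟩
  have hσ0 : 0 < σ := by linarith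
  have hLpos : 0 < L := by linarith
  obtain ⟨η, hη⟩ : ∃ η : ℝ, η = min (1 / 10) (h * σ / (400 * L)) := ⟨_, rfl⟩
  have hη0 : 0 < η := by
    rw [hη]
    exact lt_min (by norm_num) (by positivity)
  have hη1 : η ≤ 1 / 10 := by
    rw [hη]
    exact min_le_left _ _
  have hη2 : η * L ≤ h * σ / 400 := by
    have h1 : η ≤ h * σ / (400 * L) := by
      rw [hη]
      exact min_le_right _ _
    calc η * L ≤ h * σ / (400 * L) * L := mul_le_mul_of_nonneg_right h1 hLpos.le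
      _ = h * σ / 400 := by field_simp
  obtain ⟨δ, hδ, hδ0, hI⟩ := hd η hη0 (min σ (1 / 4)) (lt_min hσ0 (by norm_num))
  have hδσ : δ < σ := hδ0.trans_le (min_le_left _ _)
  have hδ4 : δ < 1 / 4 := hδ0.trans_le (min_le_right _ _)
  have hηδ : η * δ ≤ δ / 10 := by nlinarith
  have hηδ0 : 0 < η * δ := mul_pos hη0 hδ
  obtain ⟨α, hαT, hα1, hα2⟩ := hI (θ - δ) (θ - δ + η * δ) le_rfl (by linarith) (by linarith)
  obtain ⟨β, hβT, hβ1, hβ2⟩ := hI (θ + δ - η * δ) (θ + δ) (by linarith) le_rfl (by linarith)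
  have hβα : δ ≤ β - α := by linarith
  have hβα2 : β - α ≤ 1 / 2 := by linarith
  have hsin : δ / 2 ≤ Real.sin (β - α) := by
    have hpi := Real.pi_gt_three
    have hpi4 := Real.pi_le_four
    have h1 := Real.mul_le_sin (x := β - α) (by linarith) (by linarith)
    have h2 : (1 : ℝ) / 2 ≤ 2 / Real.pi := by
      rw [div_le_div_iff₀ (by norm_num) Real.pi_pos]
      linarith
    have h3 : 1 / 2 * δ ≤ 2 / Real.pi * (β - α) :=
      mul_le_mul h2 hβα hδ.le (by positivity)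
    linarith
  refine P.no_common (k := k) (s₀ := s₀) (h := h) hh (T := T)
    (κ := fun θ => if hθ : θ ∈ T then (hS θ hθ).choose else fun _ => k) ?_ (α := α) (β := β)
    (g := η * δ) (D := 5 * L / δ) (L := L) (σ := σ) hαT hβT (by linarith) (by linarith) hηδ0
    (by linarith) hσ0 ?_ hL hL0 ?_ ?_ ?_
  · intro θ hθ
    simp only [dif_pos hθ]
    exact (hS θ hθ).choose_spec
  · intro x hx
    have h1 : |x - θ| ≤ σ := by
      rw [abs_le]
      constructor
      · linarith [hx.1]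
      · linarith [hx.2]
    have h2 := fan_sin (x := x) (y := θ)
    linarith
  · intro x hx
    by_cases hxb : x + η * δ ≤ β
    · obtain ⟨t, htT, ht1, ht2⟩ := hI x (x + η * δ) (by linarith [hx.1]) (by linarith) (by linarith)
      refine ⟨t, htT, ⟨by linarith [hx.1], by linarith⟩, ?_⟩
      rw [abs_le]
      constructor <;> linarith
    · refine ⟨β, hβT, ⟨by linarith, le_rfl⟩, ?_⟩
      rw [abs_le]
      constructor <;> linarith [hx.2]
  · have h1 : 2 * L / Real.sin (β - α) ≤ 4 * L / δ := by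
      rw [div_le_div_iff₀ (by linarith) hδ]
      nlinarith
    have h2 : L ≤ L / δ := by
      rw [le_div_iff₀ hδ]
      nlinarith
    have h3 : 5 * L / δ = 4 * L / δ + L / δ := by ring
    rw [h3]
    exact add_le_add h1 h2
  · have h1 : 3 * (η * δ) * (5 * L / δ) = 15 * (η * L) := by
      field_simp
      ring
    rw [h1]
    have h2 : 0 < h * σ := mul_pos hh hσ0
    linarith

end ConvexPolygon

end Bil62
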