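import Pool.Agent.BCR.LocA

/-! BCR-Loc: local separation for all directions, and compactness.

Near every direction of the unit circle the separation property holds for all polygons near `P₀`
(the exit case, its reversal, and the vacuous cases of a local extremum); compactness of the
circle gives it for all directions at once. -/

namespace Bil62

open MeasureTheory Set Filter Topology

open scoped ComplexConjugate

namespace ConvexPolygon

variable {n : ℕ} [NeZero n]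

theorem sepAt_neg {P : ConvexPolygon n} {i j : Fin n} {u : ℂ} {ε : ℝ} (h : P.SepAt i j (-u) ε) :
    P.SepAt i j u ε := by
  intro p p' h1 h2 h3 h4 h5 h6
  obtain ⟨k1, hk1⟩ := h1
  obtain ⟨k2, hk2⟩ := h2
  obtain ⟨l, hl⟩ := h (-p') (-p) ⟨k2, by rw [cross_neg_left]; linarith⟩
    ⟨k1, by rw [cross_neg_left]; linarith⟩ (by rw [cross_neg_left]; linarith)
    (by rw [cross_neg_left]; linarith) (by rw [cross_neg_left]; linarith)
    (by rw [cross_neg_left]; linarith)
  rw [neg_neg, neg_neg, neg_neg] at hl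
  refine ⟨l, ?_⟩
  rcases hl with hl | hl | hl | hl
  · exact Or.inr (Or.inr (Or.inr hl))
  · exact Or.inr (Or.inr (Or.inl hl))
  · exact Or.inr (Or.inl hl)
  · exact Or.inl hl

theorem loc_exit {P₀ : ConvexPolygon n} {i : Fin n} (hC : P₀.Crit i) (j : Fin n) {u₀ : ℂ}
    (hu₀ : ‖u₀‖ = 1) (h1 : cross u₀ (P₀.V j) ≤ cross u₀ (P₀.V (j + 1)))
    (h2 : cross u₀ (P₀.V (j + 1)) ≤ cross u₀ (P₀.V (j + 1 + 1))) :
    ∀ᶠ q : (ConvexPolygon n × ℝ) × ℂ in 𝓝 ((P₀, (0 : ℝ)), u₀),
      q.1.1.SepAt i (j + 1) q.2 q.1.2 := by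
  by_cases hj : j = i
  · subst hj
    exact locC P₀ j hu₀ h1 h2
  · by_cases hj1 : j + 1 = i
    · subst hj1
      exact locB P₀ j hu₀ h1 h2
    · exact locA hC hj hj1 hu₀ h1 h2

/-- the cross product with a vertex is continuous in all variables -/
private lemma cont_cross3 (k : Fin n) :
    Continuous fun q : (ConvexPolygon n × ℝ) × ℂ => cross q.2 (q.1.1.V k) :=
  (continuous_crossV k).comp (f := fun q : (ConvexPolygon n × ℝ) × ℂ => (q.1.1, q.2)) (by fun_prop)

private lemma ev_lt {P₀ : ConvexPolygon n} {u₀ : ℂ} {j k : Fin n}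
    (h : cross u₀ (P₀.V j) < cross u₀ (P₀.V k)) :
    ∀ᶠ q : (ConvexPolygon n × ℝ) × ℂ in 𝓝 ((P₀, (0 : ℝ)), u₀),
      cross q.2 (q.1.1.V j) < cross q.2 (q.1.1.V k) :=
  (cont_cross3 j).continuousAt.eventually_lt (cont_cross3 k).continuousAt h

theorem loc_all {P₀ : ConvexPolygon n} {i : Fin n} (hC : P₀.Crit i) (j : Fin n) {u₀ : ℂ}
    (hu₀ : ‖u₀‖ = 1) :
    ∀ᶠ q : (ConvexPolygon n × ℝ) × ℂ in 𝓝 ((P₀, (0 : ℝ)), u₀),
      q.1.1.SepAt i (j + 1) q.2 q.1.2 := by
  by_cases hA : cross u₀ (P₀.V j) ≤ cross u₀ (P₀.V (j + 1)) ∧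
      cross u₀ (P₀.V (j + 1)) ≤ cross u₀ (P₀.V (j + 1 + 1))
  · exact loc_exit hC j hu₀ hA.1 hA.2
  · by_cases hB : cross u₀ (P₀.V (j + 1)) ≤ cross u₀ (P₀.V j) ∧
      cross u₀ (P₀.V (j + 1 + 1)) ≤ cross u₀ (P₀.V (j + 1))
    · have h1 := loc_exit hC j (u₀ := -u₀) (by rw [norm_neg]; exact hu₀)
        (by rw [cross_neg_left, cross_neg_left]; linarith [hB.1])
        (by rw [cross_neg_left, cross_neg_left]; linarith [hB.2])
      have hc : Continuous fun q : (ConvexPolygon n × ℝ) × ℂ => (q.1, -q.2) := by fun_prop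
      have h2 : Tendsto (fun q : (ConvexPolygon n × ℝ) × ℂ => (q.1, -q.2))
          (𝓝 ((P₀, (0 : ℝ)), u₀)) (𝓝 ((P₀, (0 : ℝ)), -u₀)) := hc.tendsto _
      filter_upwards [h2.eventually h1] with q hq
      exact sepAt_neg hq
    · rcases lt_or_ge (cross u₀ (P₀.V (j + 1))) (cross u₀ (P₀.V j)) with h | h
      · -- local minimum
        have h' : cross u₀ (P₀.V (j + 1)) < cross u₀ (P₀.V (j + 1 + 1)) := by
          by_contra hcon
          exact hB ⟨h.le, not_lt.1 hcon⟩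
        filter_upwards [ev_lt h, ev_lt h'] with q hq hq'
        intro p p' h1 _ _ h4 _ _
        obtain ⟨k, hk⟩ := h1
        have := q.1.1.min_of_local hq.le hq'.le k
        linarith
      · have h' : cross u₀ (P₀.V (j + 1 + 1)) < cross u₀ (P₀.V (j + 1)) := by
          by_contra hcon
          exact hA ⟨h, not_lt.1 hcon⟩
        have h'' : cross u₀ (P₀.V j) < cross u₀ (P₀.V (j + 1)) := by
          by_contra hcon
          exact hB ⟨not_lt.1 hcon, h'.le⟩
        filter_upwards [ev_lt h'', ev_lt h'] with q hq hq'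
        intro p p' _ h2 _ _ h5 _
        obtain ⟨k, hk⟩ := h2
        have := q.1.1.max_of_local hq.le hq'.le k
        linarith

private lemma sepAt_mono {P : ConvexPolygon n} {i j : Fin n} {u : ℂ} {ε ε' : ℝ} (hε : ε' ≤ ε)
    (h : P.SepAt i j u ε) : P.SepAt i j u ε' := by
  intro p p' h1 h2 h3 h4 h5 h6
  exact h p p' h1 h2 (by linarith) h4 h5 (by linarith)

/-- the criterion is stable and implies the separation property near `P₀` -/
theorem sep_near {P₀ : ConvexPolygon n} {i : Fin n} (hC : P₀.Crit i) :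
    ∃ ε > 0, ∀ P : ConvexPolygon n, (∀ k, ‖P.V k - P₀.V k‖ < ε) → P.Sep i ε := by
  have hK : IsCompact (Metric.sphere (0 : ℂ) 1) := isCompact_sphere 0 1
  have h1 : ∀ j : Fin n, ∀ᶠ x : ConvexPolygon n × ℝ in 𝓝 (P₀, (0 : ℝ)),
      ∀ u ∈ Metric.sphere (0 : ℂ) 1, x.1.SepAt i (j + 1) u x.2 := by
    intro j
    refine hK.eventually_forall_of_forall_eventually
      (P := fun (x : ConvexPolygon n × ℝ) (u : ℂ) => x.1.SepAt i (j + 1) u x.2) ?_
    intro u hu
    exact loc_all hC j (by simpa using hu)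
  have h2 : ∀ᶠ x : ConvexPolygon n × ℝ in 𝓝 (P₀, (0 : ℝ)), ∀ j : Fin n,
      ∀ u ∈ Metric.sphere (0 : ℂ) 1, x.1.SepAt i (j + 1) u x.2 := Filter.eventually_all.2 h1
  rw [nhds_prod_eq, Filter.eventually_prod_iff] at h2
  obtain ⟨pa, hpa, pb, hpb, hp⟩ := h2
  obtain ⟨ε₂, hε₂, h3⟩ := exists_eps hpa
  rw [Metric.eventually_nhds_iff] at hpb
  obtain ⟨δ, hδ, h4⟩ := hpb
  have h5 : pb (δ / 2) := by
    refine h4 ?_
    rw [Real.dist_eq, sub_zero, abs_of_pos (by linarith)]
    linarith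
  refine ⟨min ε₂ (δ / 2), lt_min hε₂ (by linarith), ?_⟩
  intro P hP j u hu
  have h6 := hp (h3 P fun k => lt_of_lt_of_le (hP k) (min_le_left _ _)) h5 (j - 1) u (by simpa using hu)
  rw [sub_add_cancel] at h6
  exact sepAt_mono (min_le_right _ _) h6

end ConvexPolygon

end Bil62
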