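import Pool.Agent.BCR.Null
import Pool.Agent.BCR.Loc
import Pool.Agent.BCR.D4
import Pool.Agent.BCR.D5
import Pool.Agent.BCR.D6
import Pool.Agent.BCR.D7
import Pool.Agent.BCR.D8

/-! BCR: the criterion theorem and the open sets of polygons. -/

namespace Bil62

open MeasureTheory Set

namespace ConvexPolygon

variable {n : ℕ} [NeZero n]

theorem saturates_of_sep {P : ConvexPolygon n} {i : Fin n} {ε : ℝ} (hε : 0 < ε)
    (h : P.Sep i ε) : P.Saturates i :=
  fun _ hM hi => (P.trap_of_invariant hM hi).null_of_sep hε h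

theorem finite_criterion (P₀ : ConvexPolygon n) (i : Fin n) (h : P₀.Crit i) :
    ∃ ε > 0, ∀ P : ConvexPolygon n, (∀ k, ‖P.V k - P₀.V k‖ < ε) → P.Saturates i := by
  obtain ⟨ε, hε, hS⟩ := sep_near h
  exact ⟨ε, hε, fun P hP => saturates_of_sep hε (hS P hP)⟩

end ConvexPolygon

end Bil62
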