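import Pool.Agent.BCR.Defs

/-! BCR-Lat: a local extremum of a linear form over the vertices of a convex polygon is a global
one (with the strict versions for a direction parallel to a side). -/

namespace Bil62

open MeasureTheory Set

open scoped ComplexConjugate

namespace ConvexPolygon

variable {n : ℕ} [NeZero n] (P : ConvexPolygon n)

private theorem lat_e (j k : Fin n) (h1 : k ≠ j + 1) (h2 : k ≠ j + 1 + 1) :
    0 < cross (P.V (j + 1 + 1) - P.V (j + 1)) (P.V k - P.V (j + 1)) :=
  P.convex (j + 1) k h1 h2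

private theorem lat_e' (j k : Fin n) :
    0 ≤ cross (P.V (j + 1 + 1) - P.V (j + 1)) (P.V k - P.V (j + 1)) := by
  by_cases h1 : k = j + 1
  · rw [h1, sub_self, cross_zero_right]
  · by_cases h2 : k = j + 1 + 1
    · rw [h2, cross_self]
    · exact (P.lat_e j k h1 h2).le

private theorem lat_f (j k : Fin n) (h1 : k ≠ j) (h2 : k ≠ j + 1) :
    0 < cross (P.V k - P.V (j + 1)) (P.V j - P.V (j + 1)) := by
  have h := P.convex j k h1 h2
  have e : cross (P.V k - P.V (j + 1)) (P.V j - P.V (j + 1)) =
      cross (P.V (j + 1) - P.V j) (P.V k - P.V j) := by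
    simp only [cross, Complex.sub_re, Complex.sub_im]
    ring
  rw [e]
  exact h

private theorem lat_f' (j k : Fin n) :
    0 ≤ cross (P.V k - P.V (j + 1)) (P.V j - P.V (j + 1)) := by
  by_cases h1 : k = j
  · rw [h1, cross_self]
  · by_cases h2 : k = j + 1
    · rw [h2, sub_self]
      simp [cross]
    · exact (P.lat_f j k h1 h2).le

private theorem lat_ef (j : Fin n) :
    0 < cross (P.V (j + 1 + 1) - P.V (j + 1)) (P.V j - P.V (j + 1)) :=
  P.lat_e j j (P.succ_ne j).symm (P.succ_succ_ne j).symm

private theorem lat_id (e f u w : ℂ) :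
    cross e f * cross u w = cross w f * cross u e + cross e w * cross u f := by
  simp only [cross]
  ring

private theorem lat_zero {e f u : ℂ} (h : 0 < cross e f) (h1 : cross u e = 0)
    (h2 : cross u f = 0) : u = 0 := by
  have hr : cross e f * u.re = cross u f * e.re - cross u e * f.re := by
    simp only [cross]
    ring
  have hi : cross e f * u.im = cross u f * e.im - cross u e * f.im := by
    simp only [cross]
    ring
  rw [h1, h2, zero_mul, zero_mul, sub_zero] at hr hi
  apply Complex.ext
  · exact (mul_eq_zero.1 hr).resolve_left h.ne'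
  · exact (mul_eq_zero.1 hi).resolve_left h.ne'

theorem min_of_local {u : ℂ} {j : Fin n} (h1 : cross u (P.V (j + 1)) ≤ cross u (P.V j))
    (h2 : cross u (P.V (j + 1)) ≤ cross u (P.V (j + 1 + 1))) (k : Fin n) :
    cross u (P.V (j + 1)) ≤ cross u (P.V k) := by
  have hid := lat_id (P.V (j + 1 + 1) - P.V (j + 1)) (P.V j - P.V (j + 1)) u
    (P.V k - P.V (j + 1))
  have hef := P.lat_ef j
  have he := P.lat_e' j k
  have hf := P.lat_f' j k
  rw [cross_sub_right u, cross_sub_right u, cross_sub_right u] at hid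
  have h3 := mul_nonneg hf (sub_nonneg.2 h2)
  have h4 := mul_nonneg he (sub_nonneg.2 h1)
  have h5 : 0 ≤ cross (P.V (j + 1 + 1) - P.V (j + 1)) (P.V j - P.V (j + 1)) *
      (cross u (P.V k) - cross u (P.V (j + 1))) := by
    rw [hid]
    exact add_nonneg h3 h4
  exact sub_nonneg.1 ((mul_nonneg_iff_of_pos_left hef).1 h5)

theorem max_of_local {u : ℂ} {j : Fin n} (h1 : cross u (P.V j) ≤ cross u (P.V (j + 1)))
    (h2 : cross u (P.V (j + 1 + 1)) ≤ cross u (P.V (j + 1))) (k : Fin n) :
    cross u (P.V k) ≤ cross u (P.V (j + 1)) := by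
  have h := P.min_of_local (u := -u) (j := j)
    (by rw [cross_neg_left, cross_neg_left]; linarith)
    (by rw [cross_neg_left, cross_neg_left]; linarith) k
  rw [cross_neg_left, cross_neg_left] at h
  linarith

/-- the direction is parallel to side `j+1` and side `j` is strictly below: all other vertices are
strictly below -/
theorem max_strict {u : ℂ} (hu : u ≠ 0) {j : Fin n} (h1 : cross u (P.V j) ≤ cross u (P.V (j + 1)))
    (h2 : cross u (P.V (j + 1 + 1)) = cross u (P.V (j + 1))) {k : Fin n} (hk1 : k ≠ j + 1)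
    (hk2 : k ≠ j + 1 + 1) : cross u (P.V k) < cross u (P.V (j + 1)) := by
  have hid := lat_id (P.V (j + 1 + 1) - P.V (j + 1)) (P.V j - P.V (j + 1)) u
    (P.V k - P.V (j + 1))
  have hef := P.lat_ef j
  have he := P.lat_e j k hk1 hk2
  have h3 : cross u (P.V (j + 1 + 1) - P.V (j + 1)) = 0 := by
    rw [cross_sub_right, h2, sub_self]
  have h4 : cross u (P.V j - P.V (j + 1)) < 0 := by
    refine lt_of_le_of_ne ?_ fun h0 => hu (lat_zero hef h3 h0)
    rw [cross_sub_right]
    linarith
  rw [h3, mul_zero, zero_add] at hid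
  have h5 : cross (P.V (j + 1 + 1) - P.V (j + 1)) (P.V j - P.V (j + 1)) *
      cross u (P.V k - P.V (j + 1)) < 0 := by
    rw [hid]
    exact mul_neg_of_pos_of_neg he h4
  have h6 : cross u (P.V k - P.V (j + 1)) < 0 := by
    by_contra hc
    exact absurd h5 (not_lt.2 (mul_nonneg hef.le (not_lt.1 hc)))
  rw [cross_sub_right] at h6
  linarith

/-- the direction is parallel to side `j` and side `j+1` is above: all other vertices are
strictly above -/
theorem min_strict {u : ℂ} (hu : u ≠ 0) {j : Fin n} (h1 : cross u (P.V j) = cross u (P.V (j + 1)))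
    (h2 : cross u (P.V (j + 1)) ≤ cross u (P.V (j + 1 + 1))) {k : Fin n} (hk1 : k ≠ j)
    (hk2 : k ≠ j + 1) : cross u (P.V (j + 1)) < cross u (P.V k) := by
  have hid := lat_id (P.V (j + 1 + 1) - P.V (j + 1)) (P.V j - P.V (j + 1)) u
    (P.V k - P.V (j + 1))
  have hef := P.lat_ef j
  have hf := P.lat_f j k hk1 hk2
  have h3 : cross u (P.V j - P.V (j + 1)) = 0 := by
    rw [cross_sub_right, h1, sub_self]
  have h4 : 0 < cross u (P.V (j + 1 + 1) - P.V (j + 1)) := by
    refine lt_of_le_of_ne ?_ fun h0 => hu (lat_zero hef h0.symm h3)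
    rw [cross_sub_right]
    linarith
  rw [h3, mul_zero, add_zero] at hid
  have h5 : 0 < cross (P.V (j + 1 + 1) - P.V (j + 1)) (P.V j - P.V (j + 1)) *
      cross u (P.V k - P.V (j + 1)) := by
    rw [hid]
    exact mul_pos hf h4
  have h6 := (mul_pos_iff_of_pos_left hef).1 h5
  rw [cross_sub_right] at h6
  linarith

end ConvexPolygon

end Bil62
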