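import Pool.Agent.BCR.TurnL
import Pool.Agent.BCR.Lat

/-! BCR-LocA: the local separation property in the exit case.

PLAN of `locA` (vertex not an end of `a_i`).  `hC` gives a list `l` and one of three cases.
`Path i l (-u₀, -c₀)`, `c₀ = cross u₀ (V (j+1))`: use `near_path` at `-u₀` (as `-c₀ = cross (-u₀) (V (j+1))`)
pulled back under `((P,ε),u) ↦ ((P,ε),-u)`: for `q` near, `p` with `|p - c| < ε`: `Path i l (-u, -p)`.
`Turn true r l u₀` / `Turn false r l u₀`: `turn_local` gives `l'` with `Path i l' (u, p)` for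
`c - ε < p < c`, resp. `Path i l' (u, p')` for `c < p' < c + ε`.  In all cases `SepAt` holds.
PLAN of `locB` (vertex `V i`, the first end of `a_i`; `i = j+1`).  Let `c₀ = cross u₀ (V (j+1))`.
If `c₀ < cross u₀ (V (j+1+1))`: eventually `c + ε < cross u (V (j+1+1))`, so `Exit u p' (j+1)`, i.e.
`Path (j+1) [] (u, p')`.  If `c₀ = cross u₀ (V (j+1+1))`: by `max_strict` for all
`k ≠ j+1, j+1+1`: `cross u₀ (V k) < c₀`, so eventually `cross u (V k) < c` for all these `k`
(finitely many).  The hypothesis `∃ k, p' < cross u (V k)` and `c < p'` give `k = j+1+1`, so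
`Exit u p' (j+1)` again.
PLAN of `locC` (vertex `V (i+1)`, the second end of `a_i`; `i = j`): the same with `min_strict`,
`p` and side `j`. -/

namespace Bil62

open MeasureTheory Set Filter Topology

open scoped ComplexConjugate

namespace ConvexPolygon

variable {n : ℕ} [NeZero n]

private theorem locA_cont (k : Fin n) :
    Continuous fun q : (ConvexPolygon n × ℝ) × ℂ => cross q.2 (q.1.1.V k) :=
  (continuous_crossV k).comp ((continuous_fst.comp continuous_fst).prodMk continuous_snd)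

private theorem locA_eps : Continuous fun q : (ConvexPolygon n × ℝ) × ℂ => q.1.2 :=
  continuous_snd.comp continuous_fst

private theorem locA_neg (P₀ : ConvexPolygon n) (u₀ : ℂ) :
    Tendsto (fun q : (ConvexPolygon n × ℝ) × ℂ => (q.1, -q.2)) (𝓝 ((P₀, (0 : ℝ)), u₀))
      (𝓝 ((P₀, (0 : ℝ)), -u₀)) :=
  (continuous_fst.prodMk continuous_snd.neg).tendsto ((P₀, (0 : ℝ)), u₀)

private theorem locA_ne {u : ℂ} (hu : ‖u‖ = 1) : u ≠ 0 := by
  intro h
  rw [h, norm_zero] at hu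
  exact zero_ne_one hu

theorem locA {P₀ : ConvexPolygon n} {i j : Fin n} (hC : P₀.Crit i) (hj : j ≠ i)
    (hj1 : j + 1 ≠ i) {u₀ : ℂ} (hu₀ : ‖u₀‖ = 1) (h1 : cross u₀ (P₀.V j) ≤ cross u₀ (P₀.V (j + 1)))
    (h2 : cross u₀ (P₀.V (j + 1)) ≤ cross u₀ (P₀.V (j + 1 + 1))) :
    ∀ᶠ q : (ConvexPolygon n × ℝ) × ℂ in 𝓝 ((P₀, (0 : ℝ)), u₀),
      q.1.1.SepAt i (j + 1) q.2 q.1.2 := by
  obtain ⟨l, hl | ⟨b, r, hT⟩⟩ := hC j hj hj1 u₀ hu₀ h1 h2
  · rw [← cross_neg_left] at hl
    have hn := near_path hl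
    have hn' := (locA_neg P₀ u₀).eventually hn
    filter_upwards [hn'] with q hq
    intro p p' _ _ h3 h4 _ _
    refine ⟨l, Or.inr (Or.inr (Or.inl ?_))⟩
    refine hq (-p) ?_
    show |(-p) - cross (-q.2) (q.1.1.V (j + 1))| < q.1.2
    rw [cross_neg_left, abs_lt]
    constructor <;> linarith
  · obtain ⟨l', hl'⟩ := turn_local b r hT
    filter_upwards [hl'] with q hq
    intro p p' _ _ h3 h4 h5 h6
    cases b with
    | true =>
      refine ⟨l', Or.inl (hq p (fun _ => ⟨h3, h4⟩) fun h => ?_)⟩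
      exact absurd h (by decide)
    | false =>
      refine ⟨l', Or.inr (Or.inl (hq p' (fun h => ?_) fun _ => ⟨h5, h6⟩))⟩
      exact absurd h (by decide)

theorem locB (P₀ : ConvexPolygon n) (j : Fin n) {u₀ : ℂ} (hu₀ : ‖u₀‖ = 1)
    (h1 : cross u₀ (P₀.V j) ≤ cross u₀ (P₀.V (j + 1)))
    (h2 : cross u₀ (P₀.V (j + 1)) ≤ cross u₀ (P₀.V (j + 1 + 1))) :
    ∀ᶠ q : (ConvexPolygon n × ℝ) × ℂ in 𝓝 ((P₀, (0 : ℝ)), u₀),
      q.1.1.SepAt (j + 1) (j + 1) q.2 q.1.2 := by
  rcases lt_or_eq_of_le h2 with h3 | h3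
  · have hc : ∀ᶠ q : (ConvexPolygon n × ℝ) × ℂ in 𝓝 ((P₀, (0 : ℝ)), u₀),
        cross q.2 (q.1.1.V (j + 1)) + q.1.2 < cross q.2 (q.1.1.V (j + 1 + 1)) := by
      refine ContinuousAt.eventually_lt (((locA_cont (j + 1)).add locA_eps).continuousAt)
        (locA_cont (j + 1 + 1)).continuousAt ?_
      show cross u₀ (P₀.V (j + 1)) + 0 < cross u₀ (P₀.V (j + 1 + 1))
      linarith
    filter_upwards [hc] with q hq
    intro p p' _ _ _ _ h6 h7
    refine ⟨[], Or.inr (Or.inl ?_)⟩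
    show q.1.1.Exit q.2 p' (j + 1)
    exact ⟨h6, by linarith⟩
  · have hc : ∀ᶠ q : (ConvexPolygon n × ℝ) × ℂ in 𝓝 ((P₀, (0 : ℝ)), u₀),
        ∀ k, k ≠ j + 1 → k ≠ j + 1 + 1 →
          cross q.2 (q.1.1.V k) < cross q.2 (q.1.1.V (j + 1)) := by
      rw [eventually_all]
      intro k
      by_cases hk1 : k = j + 1
      · exact Filter.Eventually.of_forall fun q h => absurd hk1 h
      by_cases hk2 : k = j + 1 + 1
      · exact Filter.Eventually.of_forall fun q _ h => absurd hk2 h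
      have h4 : ∀ᶠ q : (ConvexPolygon n × ℝ) × ℂ in 𝓝 ((P₀, (0 : ℝ)), u₀),
          cross q.2 (q.1.1.V k) < cross q.2 (q.1.1.V (j + 1)) := by
        refine ContinuousAt.eventually_lt (locA_cont k).continuousAt
          (locA_cont (j + 1)).continuousAt ?_
        exact P₀.max_strict (locA_ne hu₀) h1 h3.symm hk1 hk2
      filter_upwards [h4] with q hq _ _
      exact hq
    filter_upwards [hc] with q hq
    intro p p' _ h5 _ _ h6 _
    refine ⟨[], Or.inr (Or.inl ?_)⟩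
    show q.1.1.Exit q.2 p' (j + 1)
    refine ⟨h6, ?_⟩
    obtain ⟨k, hk⟩ := h5
    by_cases hk1 : k = j + 1
    · rw [hk1] at hk
      exact absurd (hk.trans h6) (lt_irrefl _)
    by_cases hk2 : k = j + 1 + 1
    · rw [hk2] at hk
      exact hk
    · exact absurd ((hk.trans (hq k hk1 hk2)).trans h6) (lt_irrefl _)

theorem locC (P₀ : ConvexPolygon n) (j : Fin n) {u₀ : ℂ} (hu₀ : ‖u₀‖ = 1)
    (h1 : cross u₀ (P₀.V j) ≤ cross u₀ (P₀.V (j + 1)))
    (h2 : cross u₀ (P₀.V (j + 1)) ≤ cross u₀ (P₀.V (j + 1 + 1))) :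
    ∀ᶠ q : (ConvexPolygon n × ℝ) × ℂ in 𝓝 ((P₀, (0 : ℝ)), u₀),
      q.1.1.SepAt j (j + 1) q.2 q.1.2 := by
  rcases lt_or_eq_of_le h1 with h3 | h3
  · have hc : ∀ᶠ q : (ConvexPolygon n × ℝ) × ℂ in 𝓝 ((P₀, (0 : ℝ)), u₀),
        cross q.2 (q.1.1.V j) < cross q.2 (q.1.1.V (j + 1)) - q.1.2 := by
      refine ContinuousAt.eventually_lt (locA_cont j).continuousAt
        (((locA_cont (j + 1)).sub locA_eps).continuousAt) ?_
      show cross u₀ (P₀.V j) < cross u₀ (P₀.V (j + 1)) - 0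
      linarith
    filter_upwards [hc] with q hq
    intro p p' _ _ h6 h7 _ _
    refine ⟨[], Or.inl ?_⟩
    show q.1.1.Exit q.2 p j
    exact ⟨by linarith, h7⟩
  · have hc : ∀ᶠ q : (ConvexPolygon n × ℝ) × ℂ in 𝓝 ((P₀, (0 : ℝ)), u₀),
        ∀ k, k ≠ j → k ≠ j + 1 →
          cross q.2 (q.1.1.V (j + 1)) < cross q.2 (q.1.1.V k) := by
      rw [eventually_all]
      intro k
      by_cases hk1 : k = j
      · exact Filter.Eventually.of_forall fun q h => absurd hk1 h
      by_cases hk2 : k = j + 1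
      · exact Filter.Eventually.of_forall fun q _ h => absurd hk2 h
      have h4 : ∀ᶠ q : (ConvexPolygon n × ℝ) × ℂ in 𝓝 ((P₀, (0 : ℝ)), u₀),
          cross q.2 (q.1.1.V (j + 1)) < cross q.2 (q.1.1.V k) := by
        refine ContinuousAt.eventually_lt (locA_cont (j + 1)).continuousAt
          (locA_cont k).continuousAt ?_
        exact P₀.min_strict (locA_ne hu₀) h3 h2 hk1 hk2
      filter_upwards [h4] with q hq _ _
      exact hq
    filter_upwards [hc] with q hq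
    intro p p' h5 _ _ h6 _ _
    refine ⟨[], Or.inl ?_⟩
    show q.1.1.Exit q.2 p j
    refine ⟨?_, h6⟩
    obtain ⟨k, hk⟩ := h5
    by_cases hk1 : k = j
    · rw [hk1] at hk
      exact hk
    by_cases hk2 : k = j + 1
    · rw [hk2] at hk
      exact absurd (hk.trans h6) (lt_irrefl _)
    · exact absurd (((hq k hk1 hk2).trans hk).trans h6) (lt_irrefl _)

end ConvexPolygon

end Bil62
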