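import Pool.Agent.BCR.Defs

/-! BCR-Pos: a set of positive measure contains pairs of points of one fibre around a common base
point, for a set of angles of positive (outer) measure (Fubini and a countable covering). -/

namespace Bil62

open MeasureTheory Set

open scoped ComplexConjugate

namespace ConvexPolygon

/-- a set of reals of positive measure contains two different points that are close -/
private theorem pos_two_pts {S : Set ℝ} (h : volume S ≠ 0) {ε : ℝ} (hε : 0 < ε) :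
    ∃ s ∈ S, ∃ s' ∈ S, s < s' ∧ s' - s < ε := by
  by_contra hcon
  push Not at hcon
  apply h
  have hsub : S ⊆ ⋃ a : ℤ, S ∩ Ico ((a : ℝ) * (ε / 2)) (((a : ℝ) + 1) * (ε / 2)) := by
    intro x hx
    rw [mem_iUnion]
    have he : 0 < ε / 2 := by linarith
    refine ⟨⌊x / (ε / 2)⌋, hx, ?_, ?_⟩
    · have := Int.floor_le (x / (ε / 2))
      rwa [le_div_iff₀ he] at this
    · have := Int.lt_floor_add_one (x / (ε / 2))
      rwa [div_lt_iff₀ he] at this
  refine measure_mono_null hsub (measure_iUnion_null fun a => ?_)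
  refine Set.Subsingleton.measure_zero ?_ _
  intro x hx y hy
  obtain ⟨hx1, hx2, hx3⟩ := hx
  obtain ⟨hy1, hy2, hy3⟩ := hy
  rcases lt_trichotomy x y with hlt | heq | hgt
  · have := hcon x hx1 y hy1 hlt
    nlinarith
  · exact heq
  · have := hcon y hy1 x hx1 hgt
    nlinarith

variable {n : ℕ} [NeZero n] (P : ConvexPolygon n)

theorem pos_strip {N : Set (Fin n × ℝ × ℝ)} (hN : MeasurableSet N) (h0 : P.mu N ≠ 0)
    (good : Fin n × ℝ × ℝ → Prop) (hg : ∀ᵐ z ∂P.mu, z ∈ N → good z) {ε : ℝ} (hε : 0 < ε) :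
    ∃ (k : Fin n) (s₀ h : ℝ), 0 < h ∧
      volume {θ : ℝ | θ ∈ Ioo 0 Real.pi ∧ ∃ s s' : ℝ, (k, θ, s) ∈ P.Phase ∧ (k, θ, s') ∈ P.Phase ∧
        good (k, θ, s) ∧ good (k, θ, s') ∧ s ≤ s₀ - h ∧ s₀ + h ≤ s' ∧ s' - s < ε} ≠ 0 := by
  set Z : Set (Fin n × ℝ × ℝ) := toMeasurable P.mu {z | ¬ (z ∈ N → good z)} with hZ
  have hZm : MeasurableSet Z := measurableSet_toMeasurable _ _
  have hZ0 : P.mu Z = 0 := by
    rw [hZ, measure_toMeasurable]
    exact hg
  have hN' : P.mu (N \ Z) ≠ 0 := by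
    rw [measure_sdiff_null hZ0]
    exact h0
  have hNm : MeasurableSet (N \ Z) := hN.diff hZm
  have hgood : ∀ z ∈ N \ Z, good z := by
    rintro z ⟨h1, h2⟩
    by_contra h3
    apply h2
    apply subset_toMeasurable
    intro h4
    exact h3 (h4 h1)
  rw [P.mu_apply hNm] at hN'
  obtain ⟨k, -, hk⟩ := Finset.exists_ne_zero_of_sum_ne_zero hN'
  set A : Set (ℝ × ℝ) := {x | (k, x) ∈ N \ Z} with hA
  have hAm : MeasurableSet A := measurableSet_slice hNm k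
  set Θ : Set ℝ := {θ | θ ∈ Ioo 0 Real.pi ∧ volume {s | s ∈ Ioo 0 (P.len k) ∧ (θ, s) ∈ A} ≠ 0}
    with hΘ
  have hΘ0 : volume Θ ≠ 0 := by
    intro hz
    apply hk
    rw [P.nu_apply k hAm, ← lintegral_zero (α := ℝ) (μ := volume)]
    refine lintegral_congr_ae ?_
    have hae : ∀ᵐ θ ∂(volume : Measure ℝ), θ ∉ Θ := by
      rw [ae_iff]
      simpa using hz
    filter_upwards [hae] with θ hθ
    by_cases hp : θ ∈ Ioo 0 Real.pi
    · rw [indicator_of_mem hp]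
      have : volume {s | s ∈ Ioo 0 (P.len k) ∧ (θ, s) ∈ A} = 0 := by
        by_contra h5
        exact hθ ⟨hp, h5⟩
      rw [this, mul_zero]
    · rw [indicator_of_notMem hp]
  by_contra hcon
  push Not at hcon
  apply hΘ0
  have hsub : Θ ⊆ ⋃ r : ℕ, ⋃ l : ℤ, {θ : ℝ | θ ∈ Ioo 0 Real.pi ∧ ∃ s s' : ℝ,
      (k, θ, s) ∈ P.Phase ∧ (k, θ, s') ∈ P.Phase ∧
        good (k, θ, s) ∧ good (k, θ, s') ∧ s ≤ (l : ℝ) / ((r : ℝ) + 1) - 1 / ((r : ℝ) + 1) ∧
        (l : ℝ) / ((r : ℝ) + 1) + 1 / ((r : ℝ) + 1) ≤ s' ∧ s' - s < ε} := by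
    rintro θ ⟨hθ1, hθ2⟩
    obtain ⟨s, ⟨hs1, hs2⟩, s', ⟨hs1', hs2'⟩, hlt, hlt'⟩ := pos_two_pts hθ2 hε
    obtain ⟨r, hr⟩ := exists_nat_gt (4 / (s' - s))
    have hd : 0 < s' - s := by linarith
    rw [div_lt_iff₀ hd] at hr
    have hr0 : (0 : ℝ) < (r : ℝ) + 1 := by positivity
    rw [mem_iUnion]
    refine ⟨r, ?_⟩
    rw [mem_iUnion]
    refine ⟨⌈s * ((r : ℝ) + 1)⌉ + 1, hθ1, s, s', ⟨hθ1, hs1⟩, ⟨hθ1, hs1'⟩, hgood _ hs2,
      hgood _ hs2', ?_, ?_, hlt'⟩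
    · rw [← sub_div, le_div_iff₀ hr0]
      have := Int.le_ceil (s * ((r : ℝ) + 1))
      push_cast
      linarith
    · rw [← add_div, div_le_iff₀ hr0]
      have := Int.ceil_lt_add_one (s * ((r : ℝ) + 1))
      push_cast
      nlinarith
  refine measure_mono_null hsub (measure_iUnion_null fun r => measure_iUnion_null fun l => ?_)
  have hr0 : (0 : ℝ) < 1 / ((r : ℝ) + 1) := by positivity
  exact hcon k ((l : ℝ) / ((r : ℝ) + 1)) (1 / ((r : ℝ) + 1)) hr0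

end ConvexPolygon

end Bil62
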