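import Pool.Agent.BCR.Defs

/-! BCR-Rec: almost every orbit has infinite length (Poincaré recurrence).

PLAN.  `P.mu` is finite and `P.phi` is measure preserving (`P.measurePreserving_phi`), so it is
conservative (`MeasurePreserving.conservative`).  Let `c z = ‖pos (phi z) - pos z‖` (measurable:
`measurable_pos`, `measurable_phi`).  For almost all `z`: `z ∈ Dom` and by `P.hits_map` and
`P.phi_of_mem`, `Hits z (phi z)`, so `c z = t ‖vel z‖ = t > 0`.  For every `r : ℕ` and the
measurable set `A r = {z | 1/(r+1) < c z}`: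
`Conservative.ae_mem_imp_frequently_image_mem` (or `ae_frequently_mem_of_mem_nullMeasurableSet`):
a.e. `z ∈ A r` has `∃ᶠ m in atTop, phi^[m] z ∈ A r`.  Take all `r` at once (`ae_all_iff`).  For
such `z` choose `r` with `z ∈ A r`; the partial sums are nondecreasing and increase by at least
`1/(r+1)` infinitely often, so they are unbounded: by induction on `K : ℕ` there is `m` with
`K/(r+1) ≤ ∑ a ∈ range m, …`.  (`P.phi^[a+1] z = P.phi (P.phi^[a] z)`:
`Function.iterate_succ_apply'`.) -/

namespace Bil62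

open MeasureTheory Set

open scoped ComplexConjugate

namespace ConvexPolygon

variable {n : ℕ} [NeZero n] (P : ConvexPolygon n)

/-- the length of the step at `z` -/
private noncomputable def cst (z : Fin n × ℝ × ℝ) : ℝ := ‖P.pos (P.phi z) - P.pos z‖

private theorem measurable_cst : Measurable P.cst :=
  ((measurable_pos.comp P.measurable_phi).sub measurable_pos).norm

private theorem ae_cst_pos : ∀ᵐ z ∂P.mu, 0 < P.cst z := by
  filter_upwards [P.ae_dom] with z hz
  obtain ⟨t, ht, hpos, -, -⟩ := (P.hits_map hz).2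
  unfold cst
  rw [P.phi_of_mem hz, hpos, add_sub_cancel_left, norm_mul, P.norm_vel, mul_one,
    Complex.norm_real, Real.norm_eq_abs, abs_of_pos ht]
  exact ht

theorem ae_unbounded : ∀ᵐ z ∂P.mu, ∀ T : ℝ, ∃ m : ℕ,
    T < ∑ a ∈ Finset.range m, ‖P.pos (P.phi^[a + 1] z) - P.pos (P.phi^[a] z)‖ := by
  have h1 : ∀ r : ℕ, ∀ᵐ z ∂P.mu, z ∈ {z | 1 / ((r : ℝ) + 1) < P.cst z} →
      ∃ᶠ m in Filter.atTop, P.phi^[m] z ∈ {z | 1 / ((r : ℝ) + 1) < P.cst z} := fun r =>
    P.measurePreserving_phi.conservative.ae_mem_imp_frequently_image_mem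
      (measurableSet_lt measurable_const P.measurable_cst).nullMeasurableSet
  filter_upwards [ae_all_iff.2 h1, P.ae_cst_pos] with z h2 h3 T
  obtain ⟨r, hr⟩ := exists_nat_one_div_lt h3
  have h4 := h2 r hr
  have hr0 : (0 : ℝ) < (r : ℝ) + 1 := by positivity
  have h5 : ∀ K : ℕ, ∃ m : ℕ, (K : ℝ) / (r + 1) ≤
      ∑ a ∈ Finset.range m, P.cst (P.phi^[a] z) := by
    intro K
    induction K with
    | zero => exact ⟨0, by simp⟩
    | succ K ih =>
      obtain ⟨m, hm⟩ := ih
      obtain ⟨m', hmm, hm'⟩ := Filter.frequently_atTop.1 h4 m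
      refine ⟨m' + 1, ?_⟩
      have h6 : ∑ a ∈ Finset.range m, P.cst (P.phi^[a] z) ≤
          ∑ a ∈ Finset.range m', P.cst (P.phi^[a] z) :=
        Finset.sum_le_sum_of_subset_of_nonneg (Finset.range_mono hmm)
          fun a _ _ => norm_nonneg _
      have h7 : 1 / ((r : ℝ) + 1) < P.cst (P.phi^[m'] z) := hm'
      rw [Finset.sum_range_succ]
      push_cast
      rw [add_div]
      linarith
  obtain ⟨K, hK⟩ := exists_nat_gt (T * (r + 1))
  obtain ⟨m, hm⟩ := h5 K
  refine ⟨m, ?_⟩
  have h8 : T < (K : ℝ) / (r + 1) := (lt_div_iff₀ hr0).2 hK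
  have h9 : ∑ a ∈ Finset.range m, ‖P.pos (P.phi^[a + 1] z) - P.pos (P.phi^[a] z)‖ =
      ∑ a ∈ Finset.range m, P.cst (P.phi^[a] z) := by
    refine Finset.sum_congr rfl fun a _ => ?_
    rw [Function.iterate_succ_apply']
    rfl
  rw [h9]
  linarith

end ConvexPolygon

end Bil62
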