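import Pool.Agent.BCR.Tl

/-! BCR-Same: two trapped parallel lines at distance `< ε` are never separated.

PLAN.
* `same_exit`: for every vertex, `cross u (V j) ∉ Ioo p p'`: otherwise `hSep j u` applied to `p, p'`
  (with `TrL.low`, `TrL.high`; the distances to the vertex are `< ε`) gives a path to side `i` for one
  of `(u,p)`, `(u,p')`, `(-u,-p)`, `(-u,-p')`, contradicting `TrL.not_path` (and `TrL.neg`).  For
  `q ∈ Ioo p p'` there is an exit side by `P.exit_or_vertex` (lower and upper vertices from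
  `TrL.low`, `TrL.high`).  `Exit u p k` and `Exit u p' k'` hold for some `k, k'` (`TrL.exit`).
  `Exit u · k` is an open condition and an interval condition: for `q > p` close to `p`, `Exit u q k`;
  for `q < p'` close to `p'`, `Exit u q k'`; by `P.exit_const` (with the interval `Ioo p p'`)
  `Exit u q k` and `Exit u q k'` for all `q ∈ Ioo p p'`, so `k = k'` by `P.exit_unique`; then
  `cross u (V k) < p` and `p' < cross u (V (k+1))`, so `Exit u q k` for all `q ∈ Icc p p'`.
* `same_itin`: choose the itinerary of the line `(u, p)`: by `TrL.exit` and recursion there is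
  `κ : ℕ → Fin n` with `TrL i (itr κ m (u,p))` and `Exit (itr κ m (u,p)) (κ m)` for all `m` (define
  the sequence of states `{x // TrL i x}` by `Nat.rec` and choice).  Show by induction on `m`:
  `TrL i (itr κ m (u,p'))` and the direction components of `itr κ m (u, q)` are independent of `q`,
  and `(itr κ m (u,q)).2 = (itr κ m (u,p)).2 + (-1)^m (q - p)` for all `q`.  Then the two lines
  `itr κ m (u,p)`, `itr κ m (u,p')` have the same direction (norm 1) and distance `p' - p < ε`; by
  `same_exit` (in the order given by the parity of `m`) all lines between them leave through one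
  side, which is `κ m` by `P.exit_unique`; and `TrL i (bnc (κ m) _)` for the `(m+1)`-st line of
  `p'` by `TrL.exit` and uniqueness. -/

namespace Bil62

open MeasureTheory Set

open scoped ComplexConjugate

namespace ConvexPolygon

variable {n : ℕ} [NeZero n] {P : ConvexPolygon n} {i : Fin n}

theorem same_exit {ε : ℝ} (hSep : P.Sep i ε) {u : ℂ} (hu : ‖u‖ = 1) {p p' : ℝ}
    (h : P.TrL i (u, p)) (h' : P.TrL i (u, p')) (hlt : p < p') (hε : p' < p + ε) :
    ∃ k, k ≠ i ∧ ∀ q ∈ Icc p p', P.Exit u q k := by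
  obtain ⟨k1, hk1⟩ := h.low
  obtain ⟨k2, hk2⟩ := h'.high
  have hno : ∀ j, p < cross u (P.V j) → cross u (P.V j) < p' → False := by
    intro j h1 h2
    have hu' : ‖-u‖ = 1 := by rwa [norm_neg]
    obtain ⟨l, hl | hl | hl | hl⟩ := hSep j u hu p p' ⟨k1, hk1⟩ ⟨k2, hk2⟩ (by linarith) h1 h2
      (by linarith)
    · exact h.not_path hu l hl
    · exact h'.not_path hu l hl
    · exact h.neg.not_path hu' l hl
    · exact h'.neg.not_path hu' l hl
  obtain ⟨k, hki, hk, _⟩ := h.exit
  obtain ⟨k', _, hk', _⟩ := h'.exit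
  have a1 : cross u (P.V k) < p := hk.1
  have a2 : p < cross u (P.V (k + 1)) := hk.2
  have b1 : cross u (P.V k') < p' := hk'.1
  have b2 : p' < cross u (P.V (k' + 1)) := hk'.2
  have h3 : p' ≤ cross u (P.V (k + 1)) := by
    by_contra hcon
    exact hno (k + 1) a2 (not_le.1 hcon)
  have h4 : cross u (P.V k') ≤ p := by
    by_contra hcon
    exact hno k' (not_le.1 hcon) b1
  have e1 : P.Exit u ((p + p') / 2) k := ⟨by linarith, by linarith⟩
  have e2 : P.Exit u ((p + p') / 2) k' := ⟨by linarith, by linarith⟩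
  have hkk : k = k' := P.exit_unique hu e1 e2
  subst hkk
  exact ⟨k, hki, fun q hq => ⟨by linarith [hq.1], by linarith [hq.2]⟩⟩

theorem same_itin {ε : ℝ} (hSep : P.Sep i ε) {u : ℂ} (hu : ‖u‖ = 1) {p p' : ℝ}
    (h : P.TrL i (u, p)) (h' : P.TrL i (u, p')) (hlt : p < p') (hε : p' < p + ε) :
    ∃ κ : ℕ → Fin n, ∀ q ∈ Icc p p', P.Itin κ (u, q) := by
  classical
  have hf : ∀ x : {x : ℂ × ℝ // P.TrL i x}, ∃ k, k ≠ i ∧ P.Exit x.1.1 x.1.2 k ∧
      P.TrL i (P.bnc k x.1) := fun x => x.2.exit
  choose f hf1 hf2 hf3 using hf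
  let xs : ℕ → {x : ℂ × ℝ // P.TrL i x} := fun m =>
    Nat.rec ⟨(u, p), h⟩ (fun _ x => ⟨P.bnc (f x) x.1, hf3 x⟩) m
  have xss : ∀ m, (xs (m + 1)).1 = P.bnc (f (xs m)) (xs m).1 := fun m => rfl
  set κ : ℕ → Fin n := fun m => f (xs m) with hκ
  have hit : ∀ m, P.itr κ m (u, p) = (xs m).1 := by
    intro m
    induction m with
    | zero => rfl
    | succ m ih =>
      show P.bnc (κ m) (P.itr κ m (u, p)) = _
      rw [ih, xss]
  have hstep : ∀ (m : ℕ) (v : ℂ) (c σ : ℝ), ‖v‖ = 1 → (σ = 1 ∨ σ = -1) →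
      (∀ q, P.itr κ m (u, q) = (v, c + σ * (q - p))) → P.TrL i (P.itr κ m (u, p')) →
      ∀ q ∈ Icc p p', P.Exit v (c + σ * (q - p)) (κ m) := by
    intro m v c σ hv hσ hq hT q hqI
    have e0 : (v, c + σ * (p - p)) = (v, c) := by rw [sub_self, mul_zero, add_zero]
    have hTp : P.TrL i (v, c) := by
      have h1 := (xs m).2
      rw [← hit m, hq p, e0] at h1
      exact h1
    have hTp' : P.TrL i (v, c + σ * (p' - p)) := by
      rw [hq p'] at hT
      exact hT
    have hE : P.Exit v c (κ m) := by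
      have h1 := hf2 (xs m)
      rw [← hit m, hq p, e0] at h1
      exact h1
    have q1 := hqI.1
    have q2 := hqI.2
    rcases hσ with rfl | rfl
    · obtain ⟨k, _, hk⟩ := same_exit hSep hv hTp hTp' (by linarith) (by linarith)
      have h2 : k = κ m := P.exit_unique hv (hk c ⟨le_refl _, by linarith⟩) hE
      rw [← h2]
      exact hk _ ⟨by linarith, by linarith⟩
    · obtain ⟨k, _, hk⟩ := same_exit hSep hv hTp' hTp (by linarith) (by linarith)
      have h2 : k = κ m := P.exit_unique hv (hk c ⟨by linarith, le_refl _⟩) hE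
      rw [← h2]
      exact hk _ ⟨by linarith, by linarith⟩
  have key : ∀ m : ℕ, ∃ (v : ℂ) (c σ : ℝ), ‖v‖ = 1 ∧ (σ = 1 ∨ σ = -1) ∧
      (∀ q, P.itr κ m (u, q) = (v, c + σ * (q - p))) ∧ P.TrL i (P.itr κ m (u, p')) := by
    intro m
    induction m with
    | zero =>
      refine ⟨u, p, 1, hu, Or.inl rfl, fun q => ?_, h'⟩
      show (u, q) = (u, p + 1 * (q - p))
      congr 1
      ring
    | succ m ih =>
      obtain ⟨v, c, σ, hv, hσ, hq, hT⟩ := ih
      refine ⟨P.refl (κ m) v, cross (P.refl (κ m) v) (P.V (κ m)) + cross v (P.V (κ m)) - c, -σ,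
        by rw [P.norm_refl, hv], ?_, fun q => ?_, ?_⟩
      · rcases hσ with rfl | rfl
        · exact Or.inr rfl
        · exact Or.inl (by norm_num)
      · show P.bnc (κ m) (P.itr κ m (u, q)) = _
        rw [hq q]
        unfold bnc
        refine Prod.ext rfl ?_
        show cross (P.refl (κ m) v) (P.V (κ m)) + cross v (P.V (κ m)) - (c + σ * (q - p)) =
          cross (P.refl (κ m) v) (P.V (κ m)) + cross v (P.V (κ m)) - c + -σ * (q - p)
        ring
      · have h1 := hstep m v c σ hv hσ hq hT p' ⟨hlt.le, le_refl _⟩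
        obtain ⟨k, _, hk, hk2⟩ := hT.exit
        rw [hq p'] at hk
        have h2 : k = κ m := P.exit_unique hv hk h1
        rw [h2] at hk2
        exact hk2
  refine ⟨κ, fun q hqI m => ?_⟩
  obtain ⟨v, c, σ, hv, hσ, hq, hT⟩ := key m
  rw [hq q]
  exact hstep m v c σ hv hσ hq hT q hqI

end ConvexPolygon

end Bil62
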