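import Pool.Agent.BCR.Unf

/-! BCR-Unb: the unfolded orbit of a phase point.

Let `x = (vel (y 0), pv (y 0))`, `κ m = (y (m+1)).1`.
* `orbit_itr`: `itr κ m x = (vel (y m), pv (y m))`: induction; the step is `P.hits_exit` (which gives
  `Exit (vel z) (pv z) z'.1`, `vel z' = refl z'.1 (vel z)` and the formula for `pv z'`, see
  `P.hits_chord`), which is the definition of `bnc`.
* `orbit_itin`: `Itin κ x`, from `orbit_itr` and `P.hits_exit`.
* `orbit_len`: let `X m = unf κ m (pos (y m))`.  `pos (y (m+1)) = pt (κ m) _` (`P.pos_eq_pt`), so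
  `X (m+1) = unf κ m (pos (y (m+1)))` (`unf_succ_pt`) and
  `dot x.1 (X (m+1) - X m) = dot (vel (y m)) (pos (y (m+1)) - pos (y m))` (`unf_dot`, `orbit_itr`).
  By `Hits` the difference is `t * vel (y m)` with `t > 0`, so this is `t = ‖pos (y (m+1)) - pos (y m)‖`.
  Summing, `dot x.1 (X m - X 0) = ∑ …`, and `|dot u w| ≤ ‖u‖ ‖w‖` (`abs_dot_le`).
* `orbit_unb`: `‖unf κ m (V (κ m)) - c‖ ≥ ‖X m - X 0‖ - ‖unf κ m (V (κ m)) - X m‖ - ‖X 0 - c‖`, the
  second term is `‖V (κ m) - pos (y m)‖ ≤ 2 K` (`unf_norm`, `P.norm_pos_le`; a bound for `‖V j‖`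
  exists as there are finitely many vertices). -/

namespace Bil62

open MeasureTheory Set

open scoped ComplexConjugate

namespace ConvexPolygon

variable {n : ℕ} [NeZero n] (P : ConvexPolygon n)

private theorem dot_step {u v w : ℂ} {t : ℝ} (hu : ‖u‖ = 1) (ht : 0 < t) (h : v = w + (t : ℂ) * u) :
    dot u (v - w) = ‖v - w‖ := by
  have h1 : v - w = (t : ℂ) * u := by rw [h]; ring
  rw [h1, norm_mul, Complex.norm_real, Real.norm_eq_abs, abs_of_pos ht, hu, mul_one]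
  have h2 : dot u ((t : ℂ) * u) = t * dot u u := by
    simp [dot]
    ring
  have h3 : dot u u = 1 := by
    have h4 : ‖u‖ ^ 2 = dot u u := by
      rw [Complex.sq_norm, Complex.normSq_apply]
      rfl
    rw [← h4, hu, one_pow]
  rw [h2, h3, mul_one]

private theorem dot_split (u a b c : ℂ) : dot u (a - c) = dot u (a - b) + dot u (b - c) := by
  rw [← dot_add_right]
  congr 1
  ring

private theorem nvel (z : Fin n × ℝ × ℝ) : ‖P.vel z‖ = 1 := by
  unfold vel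
  rw [norm_mul, P.norm_dir, Complex.norm_exp_ofReal_mul_I, mul_one]

theorem orbit_itr {y : ℕ → Fin n × ℝ × ℝ} (hy : ∀ m, y m ∈ P.Phase)
    (hh : ∀ m, P.Hits (y m) (y (m + 1))) (m : ℕ) :
    P.itr (fun a => (y (a + 1)).1) m (P.vel (y 0), P.pv (y 0)) = (P.vel (y m), P.pv (y m)) := by
  induction m with
  | zero => rfl
  | succ m ih =>
    obtain ⟨-, h2, h3⟩ := P.hits_exit (hy (m + 1)) (hh m)
    show P.bnc (y (m + 1)).1 (P.itr (fun a => (y (a + 1)).1) m (P.vel (y 0), P.pv (y 0))) = _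
    rw [ih, h3, h2]
    rfl

theorem orbit_itin {y : ℕ → Fin n × ℝ × ℝ} (hy : ∀ m, y m ∈ P.Phase)
    (hh : ∀ m, P.Hits (y m) (y (m + 1))) :
    P.Itin (fun a => (y (a + 1)).1) (P.vel (y 0), P.pv (y 0)) := by
  intro m
  rw [P.orbit_itr hy hh m]
  exact (P.hits_exit (hy (m + 1)) (hh m)).1

theorem orbit_len {y : ℕ → Fin n × ℝ × ℝ} (hy : ∀ m, y m ∈ P.Phase)
    (hh : ∀ m, P.Hits (y m) (y (m + 1))) (m : ℕ) :
    ∑ a ∈ Finset.range m, ‖P.pos (y (a + 1)) - P.pos (y a)‖ ≤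
      ‖P.unf (fun a => (y (a + 1)).1) m (P.pos (y m)) - P.pos (y 0)‖ := by
  have key : ∀ m : ℕ, ∑ a ∈ Finset.range m, ‖P.pos (y (a + 1)) - P.pos (y a)‖ =
      dot (P.vel (y 0)) (P.unf (fun a => (y (a + 1)).1) m (P.pos (y m)) - P.pos (y 0)) := by
    intro m
    induction m with
    | zero =>
      show (0 : ℝ) = dot (P.vel (y 0)) (P.pos (y 0) - P.pos (y 0))
      rw [sub_self]
      simp [dot]
    | succ m ih =>
      obtain ⟨t, ht, hpos, -, -⟩ := hh m
      have h1 := dot_step (nvel P (y m)) ht hpos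
      have h2 := P.unf_dot (fun a => (y (a + 1)).1) m (P.vel (y 0), P.pv (y 0)) (P.pos (y (m + 1))) (P.pos (y m))
      rw [P.orbit_itr hy hh m] at h2
      have h3 : P.unf (fun a => (y (a + 1)).1) (m + 1) (P.pos (y (m + 1))) =
          P.unf (fun a => (y (a + 1)).1) m (P.pos (y (m + 1))) :=
        P.unf_succ_pt (fun a => (y (a + 1)).1) m (y (m + 1)).2.2
      rw [Finset.sum_range_succ, ih, h3,
        dot_split (P.vel (y 0)) (P.unf (fun a => (y (a + 1)).1) m (P.pos (y (m + 1))))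
          (P.unf (fun a => (y (a + 1)).1) m (P.pos (y m))) (P.pos (y 0))]
      have h4 : dot (P.vel (y 0)) (P.unf (fun a => (y (a + 1)).1) m (P.pos (y (m + 1))) -
          P.unf (fun a => (y (a + 1)).1) m (P.pos (y m))) = ‖P.pos (y (m + 1)) - P.pos (y m)‖ := by
        rw [← h1]
        exact h2
      rw [h4, add_comm]
  rw [key m]
  refine le_trans (le_abs_self _) (le_trans (abs_dot_le _ _) ?_)
  rw [nvel, one_mul]

theorem orbit_unb {y : ℕ → Fin n × ℝ × ℝ} (hy : ∀ m, y m ∈ P.Phase)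
    (hh : ∀ m, P.Hits (y m) (y (m + 1)))
    (hu : ∀ T : ℝ, ∃ m : ℕ, T < ∑ a ∈ Finset.range m, ‖P.pos (y (a + 1)) - P.pos (y a)‖) (c : ℂ)
    {κ : ℕ → Fin n} (hκ : κ = fun a => (y (a + 1)).1) :
    ∀ T : ℝ, ∃ m, T < ‖P.unf κ m (P.V (κ m)) - c‖ := by
  subst hκ
  intro T
  obtain ⟨K, hK⟩ := P.norm_pos_le
  obtain ⟨m, hm⟩ := hu (T + (∑ k, ‖P.V k‖ + K) + ‖P.pos (y 0) - c‖)
  refine ⟨m, ?_⟩
  have h1 := P.orbit_len hy hh m
  have h2 : ‖P.unf (fun a => (y (a + 1)).1) m (P.V ((y (m + 1)).1)) -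
      P.unf (fun a => (y (a + 1)).1) m (P.pos (y m))‖ ≤ ∑ k, ‖P.V k‖ + K := by
    rw [P.unf_norm]
    refine le_trans (norm_sub_le _ _) (add_le_add ?_ (hK _ (hy m)))
    exact Finset.single_le_sum (f := fun k => ‖P.V k‖) (fun k _ => norm_nonneg _) (Finset.mem_univ _)
  have h3 : ‖P.unf (fun a => (y (a + 1)).1) m (P.pos (y m)) - P.pos (y 0)‖ ≤
      ‖P.unf (fun a => (y (a + 1)).1) m (P.V ((y (m + 1)).1)) - c‖ +
      ‖P.unf (fun a => (y (a + 1)).1) m (P.V ((y (m + 1)).1)) -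
      P.unf (fun a => (y (a + 1)).1) m (P.pos (y m))‖ + ‖P.pos (y 0) - c‖ := by
    have e1 : P.unf (fun a => (y (a + 1)).1) m (P.pos (y m)) - P.pos (y 0) =
      (P.unf (fun a => (y (a + 1)).1) m (P.V ((y (m + 1)).1)) - c) -
      (P.unf (fun a => (y (a + 1)).1) m (P.V ((y (m + 1)).1)) -
      P.unf (fun a => (y (a + 1)).1) m (P.pos (y m))) - (P.pos (y 0) - c) := by ring
    rw [e1]
    exact le_trans (norm_sub_le _ _) (add_le_add (norm_sub_le _ _) le_rfl)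
  show T < ‖P.unf (fun a => (y (a + 1)).1) m (P.V ((y (m + 1)).1)) - c‖
  linarith

end ConvexPolygon

end Bil62
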