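import Pool.Agent.BCR.Fan2
import Pool.Agent.BCR.Rec
import Pool.Agent.BCR.Unb
import Pool.Agent.BCR.Same
import Pool.Agent.BCR.Pos

/-! BCR-Null: assembly: if `Sep i ε` holds for some `ε > 0` then every trap is null.

PLAN.  Suppose `P.mu N ≠ 0`.  `good z` := there is `y : ℤ → Fin n × ℝ × ℝ` with `y 0 = z`,
`∀ m, y m ∈ Phase ∧ (y m).1 ≠ i ∧ Hits (y m) (y (m+1))`, and the partial sums of
`‖pos (y (a+1)) - pos (y a)‖`, `a : ℕ`, are unbounded.  It holds a.e. on `N` by `Trap.orbit` and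
`ae_unbounded` (for `z ∈ Dom` the point `y (a+1)` is determined by `y a`: `P.phi_of_hits` (Fwd.lean)
gives `y a = phi^[a] z` for `a : ℕ`).
Apply `pos_strip`; for `θ` in the set `T` obtained: `(k,θ,s)` and `(k,θ,s')` are on trapped lines
(`trL_of_orbit`), `P.vel (k,θ,s) = P.vk k θ`, `P.pv (k,θ,s) = cross (vk k θ) (pt k s)` which is
`cross (vk k θ) (pt k s₀) - (s - s₀) sin θ`.  So `p' := pv (k,θ,s) > p := pv (k,θ,s')`, and
`p' - p = (s' - s) sin θ < ε`.  `same_itin` gives `κ`, `Itin κ (u, q)` for all `q ∈ Icc p p'`, in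
particular for all `ln k θ t`, `t ∈ Icc (s₀ - h) (s₀ + h)`.  The itinerary of the orbit `y` of
`(k,θ,s)` is `κ` (`orbit_itin` and uniqueness of exit sides: prove by strong induction that two
itineraries of one line with `‖u‖ = 1` are equal), so `orbit_unb` gives the second part of `Strip`.
Conclude with `no_fan`. -/

namespace Bil62

open MeasureTheory Set

open scoped ComplexConjugate

namespace ConvexPolygon

variable {n : ℕ} [NeZero n] {P : ConvexPolygon n} {i : Fin n}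

/-- a line has at most one itinerary -/
theorem Itin.unique {κ κ' : ℕ → Fin n} {x : ℂ × ℝ} (hx : ‖x.1‖ = 1) (h : P.Itin κ x)
    (h' : P.Itin κ' x) : κ = κ' := by
  funext m
  induction m using Nat.strong_induction_on with
  | _ m ih =>
    have h1 := h m
    have h2 := h' m
    rw [← P.itr_congr ih x] at h2
    refine P.exit_unique ?_ h1 h2
    rw [P.norm_itr, hx]

private theorem cross_vk_pt (k : Fin n) (θ s : ℝ) :
    cross (P.vk k θ) (P.pt k s) = cross (P.vk k θ) (P.V k) - s * Real.sin θ := by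
  unfold pt
  rw [cross_add_right, cross_smul_right, P.cross_vk_dir]
  ring

private theorem norm_vk' (k : Fin n) (θ : ℝ) : ‖P.vk k θ‖ = 1 := by
  unfold vk
  rw [norm_mul, P.norm_dir, norm_exp_I, one_mul]

private def Gd (P : ConvexPolygon n) (i : Fin n) (z : Fin n × ℝ × ℝ) : Prop :=
  ∃ y : ℤ → Fin n × ℝ × ℝ, y 0 = z ∧
    (∀ m, y m ∈ P.Phase ∧ (y m).1 ≠ i ∧ P.Hits (y m) (y (m + 1))) ∧
    ∀ T : ℝ, ∃ m : ℕ, T < ∑ a ∈ Finset.range m,
      ‖P.pos (y ((a + 1 : ℕ) : ℤ)) - P.pos (y ((a : ℕ) : ℤ))‖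

private theorem ae_gd {N : Set (Fin n × ℝ × ℝ)} (hT : P.Trap i N) :
    ∀ᵐ z ∂P.mu, z ∈ N → Gd P i z := by
  filter_upwards [hT.orbit, P.ae_unbounded] with z h1 h2 hzN
  obtain ⟨y, hy0, hy⟩ := h1 hzN
  have e : ∀ a : ℕ, y (a : ℤ) = P.phi^[a] z := by
    intro a
    induction a with
    | zero => exact hy0
    | succ a ih =>
      rw [Function.iterate_succ_apply', ← ih]
      have h3 := P.phi_of_hits (hy a).1 (hy (a + 1)).1 (hy a).2.2
      rw [h3]
      push_cast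
      rfl
  refine ⟨y, hy0, hy, fun T => ?_⟩
  obtain ⟨m, hm⟩ := h2 T
  refine ⟨m, ?_⟩
  rw [Finset.sum_congr rfl fun a _ => by rw [e, e]]
  exact hm

theorem Trap.null_of_sep {N : Set (Fin n × ℝ × ℝ)} (hT : P.Trap i N) {ε : ℝ} (hε : 0 < ε)
    (hSep : P.Sep i ε) : P.mu N = 0 := by
  by_contra hne
  obtain ⟨k, s₀, h, hh, hvol⟩ := P.pos_strip hT.meas hne (Gd P i) (ae_gd hT) hε
  refine P.no_fan (k := k) (s₀ := s₀) hh hvol (fun θ hθ => hθ.1) ?_
  rintro θ ⟨hθ, s, s', hp, hp', ⟨y, hy0, hy, hyu⟩, ⟨y', hy0', hy', -⟩, hs1, hs2, hs3⟩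
  have hsin : 0 < Real.sin θ := Real.sin_pos_of_pos_of_lt_pi hθ.1 hθ.2
  have hsin1 : Real.sin θ ≤ 1 := Real.sin_le_one θ
  have t1 := trL_of_orbit hy
  have t2 := trL_of_orbit hy'
  rw [hy0] at t1
  rw [hy0'] at t2
  have e1 : (P.vel (k, θ, s), P.pv (k, θ, s)) =
      (P.vk k θ, cross (P.vk k θ) (P.V k) - s * Real.sin θ) := by
    rw [← cross_vk_pt]
    rfl
  have e2 : (P.vel (k, θ, s'), P.pv (k, θ, s')) =
      (P.vk k θ, cross (P.vk k θ) (P.V k) - s' * Real.sin θ) := by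
    rw [← cross_vk_pt]
    rfl
  rw [e1] at t1
  rw [e2] at t2
  have hss : s < s' := by linarith
  have h1 : 0 < (s' - s) * Real.sin θ := mul_pos (by linarith) hsin
  have h2 : (s' - s) * Real.sin θ ≤ s' - s := by nlinarith
  obtain ⟨κ, hκ⟩ := same_itin (P := P) hSep (norm_vk' k θ) t2 t1 (by nlinarith) (by nlinarith)
  refine ⟨κ, fun t ht => ?_, ?_⟩
  · unfold ln
    rw [cross_vk_pt]
    refine hκ _ ⟨?_, ?_⟩
    · have h3 : t * Real.sin θ ≤ s' * Real.sin θ :=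
        mul_le_mul_of_nonneg_right (by linarith [ht.2]) hsin.le
      linarith
    · have h3 : s * Real.sin θ ≤ t * Real.sin θ :=
        mul_le_mul_of_nonneg_right (by linarith [ht.1]) hsin.le
      linarith
  · have hy1 : ∀ m : ℕ, y (m : ℤ) ∈ P.Phase := fun m => (hy m).1
    have hy2 : ∀ m : ℕ, P.Hits (y (m : ℤ)) (y ((m + 1 : ℕ) : ℤ)) := fun m => by
      have h3 := (hy m).2.2
      push_cast
      exact h3
    have h3 := P.orbit_itin (y := fun m : ℕ => y (m : ℤ)) hy1 hy2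
    have e3 : (P.vel ((fun m : ℕ => y (m : ℤ)) 0), P.pv ((fun m : ℕ => y (m : ℤ)) 0)) =
        (P.vk k θ, cross (P.vk k θ) (P.V k) - s * Real.sin θ) := by
      rw [← e1, ← hy0]
      rfl
    rw [e3] at h3
    have h4 := hκ (cross (P.vk k θ) (P.V k) - s * Real.sin θ) ⟨by nlinarith, le_refl _⟩
    have h5 := Itin.unique (norm_vk' k θ) h4 h3
    exact P.orbit_unb (y := fun m : ℕ => y (m : ℤ)) hy1 hy2 hyu (P.pt k s₀) h5

end ConvexPolygon

end Bil62
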