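import Pool.Agent.BCR.Unf

/-! BCR-Rot: rotating a ray that has an uncut neighbourhood; two rays through one side.

`cross_rot`: addition formulas.  `strip_cross`: the exit condition in unfolded form (`exit_unf`) at the two ends of the
strip.  `rot_exit`: after a rotation by a small angle the signs are the same.  `two_rays`: the identity
`(cross u v) a = (cross a v) u - (cross a u) v`. -/

namespace Bil62

open MeasureTheory Set

open scoped ComplexConjugate

namespace ConvexPolygon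

variable {n : ℕ} [NeZero n] (P : ConvexPolygon n)

theorem norm_vk (k : Fin n) (θ : ℝ) : ‖P.vk k θ‖ = 1 := by
  unfold vk
  rw [norm_mul, P.norm_dir, Complex.norm_exp_ofReal_mul_I, mul_one]

private theorem rot_cross (Δ : ℝ) (u a : ℂ) : cross (Complex.exp ((Δ : ℂ) * Complex.I) * u) a =
    Real.cos Δ * cross u a - Real.sin Δ * dot u a := by
  unfold cross dot
  rw [Complex.mul_re, Complex.mul_im, exp_re, exp_im]
  ring

theorem cross_rot (k : Fin n) (θ θ' : ℝ) (a : ℂ) :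
    cross (P.vk k θ') a =
      Real.cos (θ' - θ) * cross (P.vk k θ) a - Real.sin (θ' - θ) * dot (P.vk k θ) a := by
  have h1 : P.vk k θ' = Complex.exp (((θ' - θ : ℝ) : ℂ) * Complex.I) * P.vk k θ := by
    unfold vk
    rw [mul_left_comm, ← Complex.exp_add]
    congr 2
    push_cast
    ring
  rw [h1, rot_cross]

private theorem rot_pt (k : Fin n) (θ s₀ s : ℝ) (A : ℂ) :
    cross (P.vk k θ) (A - P.pt k s₀) =
      (cross (P.vk k θ) A - (P.ln k θ s).2) - (s - s₀) * Real.sin θ := by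
  have h1 : ∀ t : ℝ, cross (P.vk k θ) (P.pt k t) = cross (P.vk k θ) (P.V k) - t * Real.sin θ := by
    intro t
    unfold pt
    rw [cross_add_right, cross_smul_right, P.cross_vk_dir]
    ring
  have h2 : (P.ln k θ s).2 = cross (P.vk k θ) (P.pt k s) := rfl
  rw [cross_sub_right, h2, h1, h1]
  ring

/-- a strip of half width `h` around the ray stays on the right side of both ends -/
theorem strip_cross {κ : ℕ → Fin n} {m : ℕ} {k j : Fin n} {θ s₀ h : ℝ} (hh : 0 ≤ h)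
    (hs : ∀ s ∈ Icc (s₀ - h) (s₀ + h),
      P.Exit (P.itr κ m (P.ln k θ s)).1 (P.itr κ m (P.ln k θ s)).2 j) :
    (-1) ^ m * cross (P.vk k θ) (P.unf κ m (P.V j) - P.pt k s₀) < - (h * Real.sin θ) ∧
    h * Real.sin θ < (-1) ^ m * cross (P.vk k θ) (P.unf κ m (P.V (j + 1)) - P.pt k s₀) := by
  have key : ∀ s ∈ Icc (s₀ - h) (s₀ + h),
      (-1) ^ m * cross (P.vk k θ) (P.unf κ m (P.V j) - P.pt k s₀) < -((-1) ^ m * ((s - s₀) * Real.sin θ)) ∧
      -((-1) ^ m * ((s - s₀) * Real.sin θ)) <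
        (-1) ^ m * cross (P.vk k θ) (P.unf κ m (P.V (j + 1)) - P.pt k s₀) := by
    intro s hs'
    obtain ⟨h1, h2⟩ := (P.exit_unf κ m (P.ln k θ s) j).1 (hs s hs')
    have h3 : (P.ln k θ s).1 = P.vk k θ := rfl
    rw [h3] at h1 h2
    rw [P.rot_pt k θ s₀ s, P.rot_pt k θ s₀ s]
    constructor
    · rw [mul_sub]
      linarith
    · rw [mul_sub]
      linarith
  have k1 := key (s₀ - h) ⟨le_rfl, by linarith⟩
  have k2 := key (s₀ + h) ⟨by linarith, le_rfl⟩
  rcases neg_one_pow_eq_or ℝ m with hm | hm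
  · rw [hm] at k1 k2 ⊢
    constructor
    · have := k2.1
      linarith
    · have := k1.2
      linarith
  · rw [hm] at k1 k2 ⊢
    constructor
    · have := k1.1
      linarith
    · have := k2.2
      linarith

private theorem rot_ineq {u u' a : ℂ} {Δ g D c w ε : ℝ} (hε : |ε| = 1) (hu : ‖u‖ = 1)
    (hrot : cross u' a = Real.cos Δ * cross u a - Real.sin Δ * dot u a) (ha : ‖a‖ ≤ D) (hΔ : |Δ| ≤ g)
    (hg1 : g ≤ 1) (hw : 0 < w) (hgD : g * D < w / 2) (hc : c = ε * cross u a) (hcw : w < c) :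
    0 < ε * cross u' a := by
  have hg0 : 0 ≤ g := (abs_nonneg _).trans hΔ
  have h1 : |Real.sin Δ * dot u a| ≤ g * D := by
    rw [abs_mul]
    have h2 : |Real.sin Δ| ≤ g := by
      exact Real.abs_sin_le_abs.trans hΔ
    have h3 : |dot u a| ≤ D := by
      refine (abs_dot_le u a).trans ?_
      rw [hu, one_mul]
      exact ha
    exact mul_le_mul h2 h3 (abs_nonneg _) hg0
  have h2 : 1 / 2 ≤ Real.cos Δ := by
    have h3 := Real.one_sub_sq_div_two_le_cos (x := Δ)
    have h4 : Δ ^ 2 ≤ 1 := by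
      rw [← sq_abs]
      have h5 : |Δ| ≤ 1 := hΔ.trans hg1
      exact pow_le_one₀ (abs_nonneg _) h5
    linarith
  have h3 : |ε * (Real.sin Δ * dot u a)| ≤ g * D := by
    rw [abs_mul, hε, one_mul]
    exact h1
  have h4 := (abs_le.1 h3).2
  have h5 : ε * cross u' a = Real.cos Δ * c - ε * (Real.sin Δ * dot u a) := by
    rw [hrot, hc]
    ring
  rw [h5]
  have h6 : 1 / 2 * w ≤ Real.cos Δ * c := mul_le_mul h2 hcw.le hw.le (by linarith)
  linarith

/-- rays with a nearby angle cross the same side -/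
theorem rot_exit {κ : ℕ → Fin n} {m : ℕ} {k j : Fin n} {θ θ' s₀ h g D : ℝ} (hh : 0 < h)
    (hθ : 0 < Real.sin θ)
    (hs : ∀ s ∈ Icc (s₀ - h) (s₀ + h),
      P.Exit (P.itr κ m (P.ln k θ s)).1 (P.itr κ m (P.ln k θ s)).2 j)
    (h1 : ‖P.unf κ m (P.V j) - P.pt k s₀‖ ≤ D) (h2 : ‖P.unf κ m (P.V (j + 1)) - P.pt k s₀‖ ≤ D)
    (hg : |θ' - θ| ≤ g) (hg1 : g ≤ 1) (hgD : g * D < h * Real.sin θ / 2) :
    P.Exit (P.itr κ m (P.ln k θ' s₀)).1 (P.itr κ m (P.ln k θ' s₀)).2 j := by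
  obtain ⟨k1, k2⟩ := P.strip_cross hh.le hs
  have hw : 0 < h * Real.sin θ := mul_pos hh hθ
  have hε : |(-1 : ℝ) ^ m| = 1 := by rw [abs_pow, abs_neg, abs_one, one_pow]
  rw [P.exit_unf κ m (P.ln k θ' s₀) j]
  have h3 : (P.ln k θ' s₀).1 = P.vk k θ' := rfl
  have h4 : (P.ln k θ' s₀).2 = cross (P.vk k θ') (P.pt k s₀) := rfl
  rw [h3, h4, ← cross_sub_right, ← cross_sub_right]
  constructor
  · have h5 := rot_ineq (ε := -(-1 : ℝ) ^ m) (c := -((-1) ^ m * cross (P.vk k θ) (P.unf κ m (P.V j) - P.pt k s₀)))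
      (by rw [abs_neg]; exact hε) (P.norm_vk k θ) (P.cross_rot k θ θ' _) h1 hg hg1 hw hgD (by ring) (by linarith)
    linarith
  · exact rot_ineq (ε := (-1 : ℝ) ^ m) hε (P.norm_vk k θ) (P.cross_rot k θ θ' _) h2 hg hg1 hw hgD rfl k2

private theorem rot_small {u a b : ℂ} (hu : ‖u‖ = 1) {s L : ℝ} (hs : |s| = 1) (h1 : s * cross u a < 0)
    (h2 : 0 < s * cross u b) (hL : ‖a - b‖ ≤ L) : |cross u a| ≤ L ∧ |cross u b| ≤ L := by
  have h3 : |cross u (b - a)| ≤ L := by
    refine (abs_cross_le' u (b - a)).trans ?_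
    rw [hu, one_mul, norm_sub_rev]
    exact hL
  have h4 : |s * cross u b - s * cross u a| ≤ L := by
    rw [← mul_sub, ← cross_sub_right, abs_mul, hs, one_mul]
    exact h3
  have h5 : s * cross u b - s * cross u a ≤ L := (abs_le.1 h4).2
  have e1 : |cross u a| = |s * cross u a| := by rw [abs_mul, hs, one_mul]
  have e2 : |cross u b| = |s * cross u b| := by rw [abs_mul, hs, one_mul]
  rw [e1, e2, abs_of_neg h1, abs_of_pos h2]
  constructor
  · linarith
  · linarith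

private theorem rot_id {u v a : ℂ} (hu : ‖u‖ = 1) (hv : ‖v‖ = 1) {L : ℝ} (h1 : |cross u a| ≤ L)
    (h2 : |cross v a| ≤ L) : |cross u v| * ‖a‖ ≤ 2 * L := by
  have h3 : ((cross u v : ℝ) : ℂ) * a = ((cross a v : ℝ) : ℂ) * u - ((cross a u : ℝ) : ℂ) * v := by
    apply Complex.ext
    · simp [cross]
      ring
    · simp [cross]
      ring
  have h4 : |cross u v| * ‖a‖ = ‖((cross u v : ℝ) : ℂ) * a‖ := by
    rw [norm_mul, Complex.norm_real, Real.norm_eq_abs]
  rw [h4, h3]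
  refine (norm_sub_le _ _).trans ?_
  rw [norm_mul, norm_mul, Complex.norm_real, Complex.norm_real, Real.norm_eq_abs, Real.norm_eq_abs, hu, hv,
    mul_one, mul_one, cross_comm a v, cross_comm a u, abs_neg, abs_neg]
  linarith

theorem two_rays {u v a b : ℂ} (hu : ‖u‖ = 1) (hv : ‖v‖ = 1) {s L : ℝ} (hs : |s| = 1)
    (h1 : s * cross u a < 0) (h2 : 0 < s * cross u b) (h3 : s * cross v a < 0)
    (h4 : 0 < s * cross v b) (hL : ‖a - b‖ ≤ L) :
    |cross u v| * ‖a‖ ≤ 2 * L ∧ |cross u v| * ‖b‖ ≤ 2 * L := by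
  obtain ⟨k1, k2⟩ := rot_small hu hs h1 h2 hL
  obtain ⟨k3, k4⟩ := rot_small hv hs h3 h4 hL
  exact ⟨rot_id hu hv k1 k3, rot_id hu hv k2 k4⟩

theorem cross_vk (k : Fin n) (α β : ℝ) : cross (P.vk k α) (P.vk k β) = Real.sin (β - α) := by
  unfold vk
  rw [cross_mul_left _ _ _ (P.norm_dir k)]
  unfold cross
  rw [exp_re, exp_im, exp_re, exp_im, Real.sin_sub]
  ring

end ConvexPolygon

end Bil62
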