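import Pool.Agent.BCR.DefsZ

/-! BCR-RunS: soundness of the integer checker for paths.

PLAN.
* `frcN_eq`, `frc_eq`: cases on the number (`Nat.rec`/`Int.rec` compute).
* `ex_sound`: `t * (cross u (V k) - q) = α (a ay - b ax - p) + β (a' ay - b' ax - p') < 0` as both
  brackets are negative, `α, β ≥ 0`, `α + β > 0` (`cross z w = z.re * w.im - z.im * w.re`); the
  same for the other end.  `IsSd` gives the coordinates of `V k`, `V (k+1)`.
* `bnc_sound`: new factor `t' = t * N`, `N = ‖V (k+1) - V k‖ ^ 2 > 0` (`P.len_pos`), the same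
  `α, β`: `N * dir k ^ 2 = (V (k+1) - V k) ^ 2 = c + s i`, and
  `(c + s i) * conj (x + y i) = (c x + s y) + (s x - c y) i`; the offset:
  `N t (cross u' (V k) + cross u (V k) - q)` is the combination of the integer offsets.
* `run_sound`: induction on the fuel `f`; `w = 1`: `l = []`; otherwise `l = k :: l'` with `k` from
  `Tab`; the word `l'` comes from the induction hypothesis and does not depend on `u, q` (the
  hypothesis is applied to the new integer data first). -/

namespace Bil62

open MeasureTheory Set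

open scoped ComplexConjugate

open Chk

theorem Chk.frcN_eq {α : Sort*} (m : ℕ) (f : ℕ → α) : frcN m f = f m := by
  cases m <;> rfl

theorem Chk.frc_eq {α : Sort*} (z : ℤ) (f : ℤ → α) : frc z f = f z := by
  cases z with
  | ofNat m => exact Chk.frcN_eq m fun t => f (Int.ofNat t)
  | negSucc m => exact Chk.frcN_eq m fun t => f (Int.negSucc t)

namespace ConvexPolygon

variable {n : ℕ} [NeZero n] {P : ConvexPolygon n}

private theorem runS_neg {α β A A' : ℝ} (h1 : 0 ≤ α) (h2 : 0 ≤ β) (h3 : 0 < α + β) (hA : A < 0)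
    (hA' : A' < 0) : α * A + β * A' < 0 := by
  rcases h1.lt_or_eq with h | h
  · have e1 : α * A < 0 := mul_neg_of_pos_of_neg h hA
    have e2 : β * A' ≤ 0 := mul_nonpos_of_nonneg_of_nonpos h2 hA'.le
    linarith
  · have h4 : 0 < β := by rw [← h] at h3; linarith
    have e2 : β * A' < 0 := mul_neg_of_pos_of_neg h4 hA'
    rw [← h]
    linarith

theorem ex_sound {k : Fin n} {d : Sd} (hd : P.IsSd k d) {a b p a' b' p' : ℤ}
    (h : ex d a b p = true) (h' : ex d a' b' p' = true) {u : ℂ} {q : ℝ}
    (hc : Comb u q a b p a' b' p') : P.Exit u q k := by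
  obtain ⟨α, β, t, hα, hβ, hαβ, ht, h1, h2, h3⟩ := hc
  unfold ex at h h'
  rw [Bool.and_eq_true, decide_eq_true_eq, decide_eq_true_eq] at h h'
  have g1 : (a : ℝ) * d.ay - b * d.ax < p := by exact_mod_cast h.1
  have g2 : (p : ℝ) < a * d.bY - b * d.bx := by exact_mod_cast h.2
  have g3 : (a' : ℝ) * d.ay - b' * d.ax < p' := by exact_mod_cast h'.1
  have g4 : (p' : ℝ) < a' * d.bY - b' * d.bx := by exact_mod_cast h'.2
  constructor
  · have e1 : t * (cross u (P.V k) - q) =
        α * ((a : ℝ) * d.ay - b * d.ax - p) + β * ((a' : ℝ) * d.ay - b' * d.ax - p') := by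
      unfold cross
      rw [hd.a_re, hd.a_im]
      calc t * (u.re * (d.ay : ℝ) - u.im * (d.ax : ℝ) - q)
          = (t * u.re) * (d.ay : ℝ) - (t * u.im) * (d.ax : ℝ) - t * q := by ring
        _ = _ := by rw [h1, h2, h3]; ring
    have e2 : t * (cross u (P.V k) - q) < 0 := by
      rw [e1]
      exact runS_neg hα hβ hαβ (by linarith) (by linarith)
    have e3 : cross u (P.V k) - q < 0 := by
      by_contra hcon
      have := mul_nonneg ht.le (not_lt.1 hcon)
      linarith
    linarith
  · have e1 : t * (q - cross u (P.V (k + 1))) =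
        α * ((p : ℝ) - (a * d.bY - b * d.bx)) + β * ((p' : ℝ) - (a' * d.bY - b' * d.bx)) := by
      unfold cross
      rw [hd.b_re, hd.b_im]
      calc t * (q - (u.re * (d.bY : ℝ) - u.im * (d.bx : ℝ)))
          = t * q - ((t * u.re) * (d.bY : ℝ) - (t * u.im) * (d.bx : ℝ)) := by ring
        _ = _ := by rw [h1, h2, h3]; ring
    have e2 : t * (q - cross u (P.V (k + 1))) < 0 := by
      rw [e1]
      exact runS_neg hα hβ hαβ (by linarith) (by linarith)
    have e3 : q - cross u (P.V (k + 1)) < 0 := by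
      by_contra hcon
      have := mul_nonneg ht.le (not_lt.1 hcon)
      linarith
    linarith

private theorem runS_dir {k : Fin n} {d : Sd} (hd : P.IsSd k d) :
    0 < (d.N : ℝ) ∧ (d.N : ℝ) * (P.dir k ^ 2).re = d.c ∧ (d.N : ℝ) * (P.dir k ^ 2).im = d.s := by
  have hlen := P.len_pos k
  have h1 : P.len k ^ 2 = (d.N : ℝ) := by
    unfold len
    rw [← Complex.normSq_eq_norm_sq, Complex.normSq_apply, Complex.sub_re, Complex.sub_im, hd.a_re,
      hd.a_im, hd.b_re, hd.b_im, hd.N_eq]
    push_cast
    ring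
  have h2 : ((d.N : ℝ) : ℂ) * P.dir k ^ 2 = (P.V (k + 1) - P.V k) ^ 2 := by
    rw [← h1]
    unfold dir
    have h3 : (P.len k : ℂ) ≠ 0 := by
      rw [Ne, Complex.ofReal_eq_zero]
      exact hlen.ne'
    push_cast
    field_simp
  refine ⟨by rw [← h1]; positivity, ?_, ?_⟩
  · have h3 := congrArg Complex.re h2
    rw [Complex.re_ofReal_mul] at h3
    rw [h3, sq, Complex.mul_re, Complex.sub_re, Complex.sub_im, hd.a_re, hd.a_im, hd.b_re, hd.b_im,
      hd.c_eq]
    push_cast
    ring
  · have h3 := congrArg Complex.im h2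
    rw [Complex.im_ofReal_mul] at h3
    rw [h3, sq, Complex.mul_im, Complex.sub_re, Complex.sub_im, hd.a_re, hd.a_im, hd.b_re, hd.b_im,
      hd.s_eq]
    push_cast
    ring

theorem bnc_sound {k : Fin n} {d : Sd} (hd : P.IsSd k d) {a b p a' b' p' : ℤ} {u : ℂ} {q : ℝ}
    (hc : Comb u q a b p a' b' p') :
    Comb (P.bnc k (u, q)).1 (P.bnc k (u, q)).2
      (d.c * a + d.s * b) (d.s * a - d.c * b)
      ((d.c * a + d.s * b) * d.ay - (d.s * a - d.c * b) * d.ax +
        d.N * (a * d.ay - b * d.ax - p))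
      (d.c * a' + d.s * b') (d.s * a' - d.c * b')
      ((d.c * a' + d.s * b') * d.ay - (d.s * a' - d.c * b') * d.ax +
        d.N * (a' * d.ay - b' * d.ax - p')) := by
  obtain ⟨α, β, t, hα, hβ, hαβ, ht, h1, h2, h3⟩ := hc
  obtain ⟨hN, hre, him⟩ := runS_dir hd
  have e1 : (P.refl k u).re = (P.dir k ^ 2).re * u.re + (P.dir k ^ 2).im * u.im := by
    unfold refl
    rw [Complex.mul_re, Complex.conj_re, Complex.conj_im]
    ring
  have e2 : (P.refl k u).im = (P.dir k ^ 2).im * u.re - (P.dir k ^ 2).re * u.im := by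
    unfold refl
    rw [Complex.mul_im, Complex.conj_re, Complex.conj_im]
    ring
  have f1 : t * d.N * (P.refl k u).re = α * (d.c * a + d.s * b) + β * (d.c * a' + d.s * b') := by
    rw [e1]
    calc t * d.N * ((P.dir k ^ 2).re * u.re + (P.dir k ^ 2).im * u.im)
        = (d.N * (P.dir k ^ 2).re) * (t * u.re) + (d.N * (P.dir k ^ 2).im) * (t * u.im) := by ring
      _ = _ := by rw [hre, him, h1, h2]; ring
  have f2 : t * d.N * (P.refl k u).im = α * (d.s * a - d.c * b) + β * (d.s * a' - d.c * b') := by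
    rw [e2]
    calc t * d.N * ((P.dir k ^ 2).im * u.re - (P.dir k ^ 2).re * u.im)
        = (d.N * (P.dir k ^ 2).im) * (t * u.re) - (d.N * (P.dir k ^ 2).re) * (t * u.im) := by ring
      _ = _ := by rw [hre, him, h1, h2]; ring
  refine ⟨α, β, t * d.N, hα, hβ, hαβ, mul_pos ht hN, ?_, ?_, ?_⟩
  · show t * d.N * (P.refl k u).re = _
    rw [f1]
    push_cast
    ring
  · show t * d.N * (P.refl k u).im = _
    rw [f2]
    push_cast
    ring
  · show t * d.N * (cross (P.refl k u) (P.V k) + cross u (P.V k) - q) = _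
    unfold cross
    rw [hd.a_re, hd.a_im]
    calc t * d.N * ((P.refl k u).re * (d.ay : ℝ) - (P.refl k u).im * (d.ax : ℝ) +
          (u.re * (d.ay : ℝ) - u.im * (d.ax : ℝ)) - q)
        = (t * d.N * (P.refl k u).re) * (d.ay : ℝ) - (t * d.N * (P.refl k u).im) * (d.ax : ℝ) +
          d.N * ((t * u.re) * (d.ay : ℝ) - (t * u.im) * (d.ax : ℝ) - t * q) := by ring
      _ = _ := by
        rw [f1, f2, h1, h2, h3]
        push_cast
        ring

theorem run_sound {S : List Sd} (hS : P.Tab S) {i : Fin n} {t : Sd} (ht : P.IsSd i t) (f w : ℕ)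
    (a b p a' b' p' : ℤ) (h : run S t f w a b p a' b' p' = true) :
    ∃ l : List (Fin n), ∀ (u : ℂ) (q : ℝ), Comb u q a b p a' b' p' → P.Path i l (u, q) := by
  induction f generalizing w a b p a' b' p' with
  | zero =>
    unfold run at h
    exact absurd h (by simp)
  | succ f ih =>
    unfold run at h
    by_cases hw : w = 1
    · subst hw
      rw [beq_self_eq_true, cond_true, Bool.and_eq_true] at h
      exact ⟨[], fun u q hc => ex_sound ht h.1 h.2 hc⟩
    · have hw' : (w == 1) = false := by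
        rw [beq_eq_false_iff_ne]
        exact hw
      rw [hw', cond_false, Chk.frcN_eq] at h
      cases hSd : S[w % 16]? with
      | none =>
        rw [hSd] at h
        exact absurd h (by simp)
      | some d =>
        rw [hSd] at h
        dsimp only at h
        rw [Bool.and_eq_true, Bool.and_eq_true] at h
        obtain ⟨⟨h1, h2⟩, h3⟩ := h
        unfold bn at h3
        simp only [Chk.frc_eq] at h3
        obtain ⟨k, hk⟩ := hS _ d hSd
        obtain ⟨l, hl⟩ := ih _ _ _ _ _ _ _ h3
        refine ⟨k :: l, fun u q hc => ⟨ex_sound hk h1 h2 hc, ?_⟩⟩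
        exact hl _ _ (bnc_sound hk hc)

end ConvexPolygon

end Bil62
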