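import Pool.Agent.BCR.Defs

/-! BCR-Tl: trapped lines (`TrL`): they are invariant under bouncing and reversal and never reach
side `i`. -/

namespace Bil62

open MeasureTheory Set

open scoped ComplexConjugate

namespace ConvexPolygon

variable {n : ℕ} [NeZero n] {P : ConvexPolygon n} {i : Fin n}

theorem TrL.exit {x : ℂ × ℝ} (hx : P.TrL i x) :
    ∃ k, k ≠ i ∧ P.Exit x.1 x.2 k ∧ P.TrL i (P.bnc k x) := by
  obtain ⟨y, hy0, hy⟩ := hx
  obtain ⟨k, hk, h1, h2, h3⟩ := hy 0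
  rw [hy0] at h1 h2 h3
  refine ⟨k, hk, h1, fun m => y (m + 1), ?_, fun m => hy (m + 1)⟩
  refine Prod.ext h2 ?_
  show (y (0 + 1)).2 = cross (P.refl k x.1) (P.V k) + cross x.1 (P.V k) - x.2
  rw [← h2]
  exact h3

theorem TrL.not_path {x : ℂ × ℝ} (hx : P.TrL i x) (h1 : ‖x.1‖ = 1) (l : List (Fin n)) :
    ¬ P.Path i l x := by
  induction l generalizing x with
  | nil =>
    intro h
    obtain ⟨k, hk, h2, -⟩ := hx.exit
    exact hk (P.exit_unique h1 h2 h)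
  | cons k' l ih =>
    intro h
    obtain ⟨k, hk, h2, h3⟩ := hx.exit
    obtain ⟨h4, h5⟩ := h
    have h6 : k = k' := P.exit_unique h1 h2 h4
    rw [← h6] at h5
    exact ih h3 (by
      show ‖P.refl k x.1‖ = 1
      rw [P.norm_refl, h1]) h5

theorem TrL.neg {x : ℂ × ℝ} (hx : P.TrL i x) : P.TrL i (-x.1, -x.2) := by
  obtain ⟨y, hy0, hy⟩ := hx
  refine ⟨fun m => (-(y (-m)).1, -(y (-m)).2), ?_, fun m => ?_⟩
  · simp only [neg_zero, hy0]
  · obtain ⟨k, hk, h1, h2, h3⟩ := hy (-(m + 1))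
    have e1 : -(m + 1) + 1 = -m := by ring
    rw [e1] at h2 h3
    have h4 := P.exit_refl h1
    rw [← h2, ← h3, P.ent_iff_exit] at h4
    refine ⟨k, hk, h4, ?_, ?_⟩
    · show -(y (-(m + 1))).1 = P.refl k (-(y (-m)).1)
      rw [h2]
      have h5 : ∀ u : ℂ, P.refl k (-u) = -P.refl k u := by
        intro u
        unfold refl
        rw [map_neg, mul_neg]
      rw [h5, P.refl_refl]
    · show -(y (-(m + 1))).2 = cross (-(y (-(m + 1))).1) (P.V k) + cross (-(y (-m)).1) (P.V k) -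
        -(y (-m)).2
      rw [cross_neg_left, cross_neg_left]
      linarith

theorem TrL.low {x : ℂ × ℝ} (hx : P.TrL i x) : ∃ k, cross x.1 (P.V k) < x.2 := by
  obtain ⟨k, -, h, -⟩ := hx.exit
  exact ⟨k, h.1⟩

theorem TrL.high {x : ℂ × ℝ} (hx : P.TrL i x) : ∃ k, x.2 < cross x.1 (P.V k) := by
  obtain ⟨k, -, h, -⟩ := hx.exit
  exact ⟨k + 1, h.2⟩

theorem trL_of_orbit {y : ℤ → Fin n × ℝ × ℝ}
    (hy : ∀ m, y m ∈ P.Phase ∧ (y m).1 ≠ i ∧ P.Hits (y m) (y (m + 1))) :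
    P.TrL i (P.vel (y 0), P.pv (y 0)) := by
  exact ⟨fun m => (P.vel (y m), P.pv (y m)), rfl,
    fun m => P.hits_chord (hy (m + 1)).1 (hy m).2.2 (hy (m + 1)).2.1⟩

end ConvexPolygon

end Bil62
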