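import Pool.Agent.BCR.Defs

/-! BCR-Top: the topology on the space of convex polygons; paths are open conditions.

PLAN.  The instance is the topology induced by `P ↦ P.V`.
* `continuous_V`: `continuous_induced_dom` and `continuous_apply`.
* `continuous_dir`: `(V (k+1) - V k) / ‖V (k+1) - V k‖`, the denominator does not vanish
  (`P.len_pos`): `Continuous.div`.
* `continuous_refl`, `continuous_bnc`: algebra (`continuous_cross`: Near.lean).
* `isOpen_path`: induction on `l`: `[]`: `{q | cross q.2.1 (V i) < q.2.2 ∧ …}` by `isOpen_lt`;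
  `k :: l`: intersection of such a set with the preimage of an open set under
  `q ↦ (q.1, q.1.bnc k q.2)`.
* `exists_eps`: `𝓝 P₀ = comap V (𝓝 P₀.V)` (`nhds_induced`), `Metric.mem_nhds_iff`, `dist_pi_lt_iff`. -/

namespace Bil62

open MeasureTheory Set Filter Topology

open scoped ComplexConjugate

namespace ConvexPolygon

variable {n : ℕ} [NeZero n]

noncomputable instance instTopPolygon : TopologicalSpace (ConvexPolygon n) :=
  TopologicalSpace.induced (fun P : ConvexPolygon n => P.V) inferInstance

theorem continuous_V (k : Fin n) : Continuous fun P : ConvexPolygon n => P.V k := by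
  exact (continuous_apply k).comp continuous_induced_dom

theorem continuous_crossV (k : Fin n) :
    Continuous fun q : ConvexPolygon n × ℂ => cross q.2 (q.1.V k) := by
  exact continuous_cross.comp (continuous_snd.prodMk ((continuous_V k).comp continuous_fst))

theorem continuous_dir (k : Fin n) : Continuous fun P : ConvexPolygon n => P.dir k := by
  unfold dir len
  refine Continuous.div ((continuous_V _).sub (continuous_V _))
    (Complex.continuous_ofReal.comp ((continuous_V _).sub (continuous_V _)).norm) ?_
  intro P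
  have h := P.len_pos k
  unfold len at h
  exact_mod_cast h.ne'

theorem continuous_refl (k : Fin n) :
    Continuous fun q : ConvexPolygon n × ℂ => q.1.refl k q.2 := by
  have h1 : Continuous fun q : ConvexPolygon n × ℂ => q.1.dir k :=
    (continuous_dir k).comp continuous_fst
  have h2 : Continuous fun q : ConvexPolygon n × ℂ => conj q.2 :=
    Complex.continuous_conj.comp continuous_snd
  have h3 : Continuous fun q : ConvexPolygon n × ℂ => q.1.dir k ^ 2 := h1.pow 2
  have h4 : Continuous fun q : ConvexPolygon n × ℂ => q.1.dir k ^ 2 * conj q.2 := h3.mul h2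
  exact h4

theorem continuous_bnc (k : Fin n) :
    Continuous fun q : ConvexPolygon n × (ℂ × ℝ) => q.1.bnc k q.2 := by
  have g : Continuous fun q : ConvexPolygon n × (ℂ × ℝ) => ((q.1, q.2.1) : ConvexPolygon n × ℂ) :=
    continuous_fst.prodMk (continuous_fst.comp continuous_snd)
  have h1 : Continuous fun q : ConvexPolygon n × (ℂ × ℝ) => q.1.refl k q.2.1 := by
    have h := Continuous.comp (continuous_refl k) g
    exact h
  have g2 : Continuous fun q : ConvexPolygon n × (ℂ × ℝ) =>
      ((q.1, q.1.refl k q.2.1) : ConvexPolygon n × ℂ) := continuous_fst.prodMk h1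
  have h2 : Continuous fun q : ConvexPolygon n × (ℂ × ℝ) =>
      cross (q.1.refl k q.2.1) (q.1.V k) := by
    have h := Continuous.comp (continuous_crossV k) g2
    exact h
  have h3 : Continuous fun q : ConvexPolygon n × (ℂ × ℝ) => cross q.2.1 (q.1.V k) := by
    have h := Continuous.comp (continuous_crossV k) g
    exact h
  have h4 : Continuous fun q : ConvexPolygon n × (ℂ × ℝ) => q.2.2 :=
    continuous_snd.comp continuous_snd
  have h5 : Continuous fun q : ConvexPolygon n × (ℂ × ℝ) =>
      (q.1.refl k q.2.1, cross (q.1.refl k q.2.1) (q.1.V k) + cross q.2.1 (q.1.V k) - q.2.2) :=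
    h1.prodMk ((h2.add h3).sub h4)
  exact h5

theorem isOpen_path (i : Fin n) (l : List (Fin n)) :
    IsOpen {q : ConvexPolygon n × (ℂ × ℝ) | q.1.Path i l q.2} := by
  have h3 : ∀ j : Fin n, Continuous fun q : ConvexPolygon n × (ℂ × ℝ) =>
      cross q.2.1 (q.1.V j) := fun j => by
    have g : Continuous fun q : ConvexPolygon n × (ℂ × ℝ) => ((q.1, q.2.1) : ConvexPolygon n × ℂ) :=
      continuous_fst.prodMk (continuous_fst.comp continuous_snd)
    have h := Continuous.comp (continuous_crossV j) g
    exact h
  have h4 : Continuous fun q : ConvexPolygon n × (ℂ × ℝ) => q.2.2 :=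
    continuous_snd.comp continuous_snd
  have hex : ∀ k : Fin n,
      IsOpen {q : ConvexPolygon n × (ℂ × ℝ) | q.1.Exit q.2.1 q.2.2 k} := fun k =>
    (isOpen_lt (h3 k) h4).inter (isOpen_lt h4 (h3 (k + 1)))
  induction l with
  | nil => exact hex i
  | cons k l ih => exact (hex k).inter (ih.preimage (continuous_fst.prodMk (continuous_bnc k)))

theorem exists_eps {P₀ : ConvexPolygon n} {Q : ConvexPolygon n → Prop} (h : ∀ᶠ P in 𝓝 P₀, Q P) :
    ∃ ε > 0, ∀ P : ConvexPolygon n, (∀ k, ‖P.V k - P₀.V k‖ < ε) → Q P := by
  have h1 : 𝓝 P₀ = comap (fun P : ConvexPolygon n => P.V) (𝓝 P₀.V) := nhds_induced _ _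
  rw [h1] at h
  obtain ⟨s, hs, hsub⟩ := mem_comap.1 h
  obtain ⟨ε, hε, hball⟩ := Metric.mem_nhds_iff.1 hs
  refine ⟨ε, hε, fun P hP => hsub (hball ?_)⟩
  show P.V ∈ Metric.ball P₀.V ε
  rw [Metric.mem_ball, dist_pi_lt_iff hε]
  intro k
  rw [dist_eq_norm]
  exact hP k

end ConvexPolygon

end Bil62
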