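import Pool.Agent.BCR.Top

/-! BCR-TurnL: lines that pass a vertex closely on one side follow the turning trajectory.

PLAN.  The variable is `q = ((P, ε), u)`, near `((P₀, 0), u₀)`; put `c = cross u (P.V (j+1))`.
* `near_path`: the lines `(u, p)` with `|p - c| < ε`: the map `(q, p) ↦ (P, (u, p))` is continuous
  and `isOpen_path`; so there are a neighbourhood of `((P₀,0),u₀)` and `δ > 0` such that `Path`
  holds if `|p - c₀| < δ`, `c₀ = cross u₀ (P₀.V (j+1))`; eventually `|c - c₀| < δ/2` and `ε < δ/2`.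
* `turn_local`: induction on `r` (for all `b`, `u₀`).  `r = 0`: `near_path` with `l' = l`.
  `r+1`, `b = true`: `Turn` says `cross u₀ (P₀.V j) < c₀` and `Turn false r l (refl j u₀)`.  Take
  `l' = j :: l''`, `l''` from the induction hypothesis at `refl j u₀`; pull it back under the
  continuous map `((P,ε),u) ↦ ((P,ε), P.refl j u)` (`Tendsto.eventually`).  Eventually
  `cross u (P.V j) < c - ε`, so `Exit u p j` for `c - ε < p < c`.  The reflected line `bnc j (u,p)` has
  direction `u' = refl j u` and offset `p' = cross u' (V j) + cross u (V j) - p`; since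
  `cross u' (V (j+1)) = cross u' (V j) + cross u (V j) - cross u (V (j+1))` (`P.cross_refl_rpt j u
  (V (j+1))` and `rpt j (V (j+1)) = V (j+1)`, as `V (j+1) = pt j (len j)`, `P.rpt_pt`, `P.V_succ`) one
  gets `p' - c' = c - p ∈ Ioo 0 ε`: this is the hypothesis of the case `b = false`.
  `b = false` is symmetric (side `j+1`, whose first end is `V (j+1)`: `rpt (j+1) (V (j+1)) = V (j+1)`,
  `P.rpt_pt (j+1) 0`). -/

namespace Bil62

open MeasureTheory Set Filter Topology

open scoped ComplexConjugate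

namespace ConvexPolygon

variable {n : ℕ} [NeZero n]

theorem near_path {P₀ : ConvexPolygon n} {i j : Fin n} {l : List (Fin n)} {u₀ : ℂ}
    (h : P₀.Path i l (u₀, cross u₀ (P₀.V j))) :
    ∀ᶠ q : (ConvexPolygon n × ℝ) × ℂ in 𝓝 ((P₀, (0 : ℝ)), u₀), ∀ p : ℝ,
      |p - cross q.2 (q.1.1.V j)| < q.1.2 → q.1.1.Path i l (q.2, p) := by
  have hf : Continuous fun r : ((ConvexPolygon n × ℝ) × ℂ) × ℝ =>
      ((r.1.1.1, (r.1.2, r.2)) : ConvexPolygon n × (ℂ × ℝ)) := by fun_prop
  have h1 : ∀ᶠ r : ((ConvexPolygon n × ℝ) × ℂ) × ℝ in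
      𝓝 (((P₀, (0 : ℝ)), u₀), cross u₀ (P₀.V j)), r.1.1.1.Path i l (r.1.2, r.2) :=
    ((isOpen_path i l).preimage hf).mem_nhds h
  rw [nhds_prod_eq, eventually_prod_iff] at h1
  obtain ⟨pa, ha, pb, hb, hab⟩ := h1
  obtain ⟨δ, hδ, hb⟩ := Metric.eventually_nhds_iff.1 hb
  have hc : Continuous fun q : (ConvexPolygon n × ℝ) × ℂ => cross q.2 (q.1.1.V j) :=
    (continuous_crossV j).comp (by fun_prop :
      Continuous fun q : (ConvexPolygon n × ℝ) × ℂ => ((q.1.1, q.2) : ConvexPolygon n × ℂ))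
  have h2 : ∀ᶠ q : (ConvexPolygon n × ℝ) × ℂ in 𝓝 ((P₀, (0 : ℝ)), u₀),
      |cross q.2 (q.1.1.V j) - cross u₀ (P₀.V j)| < δ / 2 := by
    have := hc.continuousAt (x := ((P₀, (0 : ℝ)), u₀))
    exact Metric.tendsto_nhds.1 this (δ / 2) (by positivity)
  have h3 : ∀ᶠ q : (ConvexPolygon n × ℝ) × ℂ in 𝓝 ((P₀, (0 : ℝ)), u₀), q.1.2 < δ / 2 := by
    have hcc : Continuous fun q : (ConvexPolygon n × ℝ) × ℂ => q.1.2 := by fun_prop
    exact (isOpen_lt hcc continuous_const).mem_nhds (by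
      show (0 : ℝ) < δ / 2
      positivity)
  filter_upwards [ha, h2, h3] with q hqa hq2 hq3 p hp
  refine hab hqa (hb ?_)
  rw [Real.dist_eq]
  have h4 := abs_sub_le p (cross q.2 (q.1.1.V j)) (cross u₀ (P₀.V j))
  linarith

theorem turn_local {P₀ : ConvexPolygon n} {i j : Fin n} {l : List (Fin n)} (b : Bool) (r : ℕ)
    {u₀ : ℂ} (h : P₀.Turn i j b r l u₀) :
    ∃ l' : List (Fin n), ∀ᶠ q : (ConvexPolygon n × ℝ) × ℂ in 𝓝 ((P₀, (0 : ℝ)), u₀), ∀ p : ℝ,
      (b = true → cross q.2 (q.1.1.V (j + 1)) - q.1.2 < p ∧ p < cross q.2 (q.1.1.V (j + 1))) →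
      (b = false → cross q.2 (q.1.1.V (j + 1)) < p ∧ p < cross q.2 (q.1.1.V (j + 1)) + q.1.2) →
      q.1.1.Path i l' (q.2, p) := by
  induction r generalizing b u₀ with
  | zero =>
    refine ⟨l, ?_⟩
    have h0 : P₀.Path i l (u₀, cross u₀ (P₀.V (j + 1))) := by
      cases b <;> exact h
    filter_upwards [near_path h0] with q hq p h1 h2
    refine hq p ?_
    rw [abs_lt]
    cases b
    · have := h2 rfl
      constructor <;> linarith [this.1, this.2]
    · have := h1 rfl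
      constructor <;> linarith [this.1, this.2]
  | succ r ih =>
    have hcV : ∀ k : Fin n, Continuous fun q : (ConvexPolygon n × ℝ) × ℂ =>
        cross q.2 (q.1.1.V k) := fun k =>
      (continuous_crossV k).comp (by fun_prop :
        Continuous fun q : (ConvexPolygon n × ℝ) × ℂ => ((q.1.1, q.2) : ConvexPolygon n × ℂ))
    have hqq : Continuous fun q : (ConvexPolygon n × ℝ) × ℂ =>
        ((q.1.1, q.2) : ConvexPolygon n × ℂ) := by fun_prop
    have hcR : ∀ k : Fin n, Continuous fun q : (ConvexPolygon n × ℝ) × ℂ =>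
        ((q.1, q.1.1.refl k q.2) : (ConvexPolygon n × ℝ) × ℂ) := by
      intro k
      have h1 : Continuous fun q : (ConvexPolygon n × ℝ) × ℂ => q.1.1.refl k q.2 :=
        Continuous.comp (g := fun q : ConvexPolygon n × ℂ => q.1.refl k q.2)
          (f := fun q : (ConvexPolygon n × ℝ) × ℂ => ((q.1.1, q.2) : ConvexPolygon n × ℂ))
          (continuous_refl k) hqq
      exact continuous_fst.prodMk h1
    have hce : Continuous fun q : (ConvexPolygon n × ℝ) × ℂ => q.1.2 := by fun_prop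
    cases b with
    | true =>
      obtain ⟨h1, h2⟩ : cross u₀ (P₀.V j) < cross u₀ (P₀.V (j + 1)) ∧
        P₀.Turn i j false r l (P₀.refl j u₀) := h
      obtain ⟨l', hl'⟩ := ih false h2
      refine ⟨j :: l', ?_⟩
      have e1 := ((hcR j).tendsto ((P₀, (0 : ℝ)), u₀)).eventually hl'
      have e2 : ∀ᶠ q : (ConvexPolygon n × ℝ) × ℂ in 𝓝 ((P₀, (0 : ℝ)), u₀),
          cross q.2 (q.1.1.V j) < cross q.2 (q.1.1.V (j + 1)) - q.1.2 :=
        (isOpen_lt (hcV j) ((hcV (j + 1)).sub hce)).mem_nhds (by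
          show cross u₀ (P₀.V j) < cross u₀ (P₀.V (j + 1)) - 0
          linarith)
      filter_upwards [e1, e2] with q hq1 hq2 p hp _
      obtain ⟨hp1, hp2⟩ := hp rfl
      refine ⟨⟨by linarith, hp2⟩, ?_⟩
      have hfix : q.1.1.rpt j (q.1.1.V (j + 1)) = q.1.1.V (j + 1) := by
        have := q.1.1.rpt_pt j (q.1.1.len j)
        unfold pt at this
        rwa [← q.1.1.V_succ j] at this
      have hcr := q.1.1.cross_refl_rpt j q.2 (q.1.1.V (j + 1))
      rw [hfix] at hcr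
      change q.1.1.Path i l' (q.1.1.refl j q.2,
        cross (q.1.1.refl j q.2) (q.1.1.V j) + cross q.2 (q.1.1.V j) - p)
      refine hq1 (cross (q.1.1.refl j q.2) (q.1.1.V j) + cross q.2 (q.1.1.V j) - p)
        (fun hh => Bool.noConfusion hh) (fun _ => ?_)
      show cross (q.1.1.refl j q.2) (q.1.1.V (j + 1)) <
          cross (q.1.1.refl j q.2) (q.1.1.V j) + cross q.2 (q.1.1.V j) - p ∧
        cross (q.1.1.refl j q.2) (q.1.1.V j) + cross q.2 (q.1.1.V j) - p <
          cross (q.1.1.refl j q.2) (q.1.1.V (j + 1)) + q.1.2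
      constructor <;> linarith
    | false =>
      obtain ⟨h1, h2⟩ : cross u₀ (P₀.V (j + 1)) < cross u₀ (P₀.V (j + 1 + 1)) ∧
        P₀.Turn i j true r l (P₀.refl (j + 1) u₀) := h
      obtain ⟨l', hl'⟩ := ih true h2
      refine ⟨(j + 1) :: l', ?_⟩
      have e1 := ((hcR (j + 1)).tendsto ((P₀, (0 : ℝ)), u₀)).eventually hl'
      have e2 : ∀ᶠ q : (ConvexPolygon n × ℝ) × ℂ in 𝓝 ((P₀, (0 : ℝ)), u₀),
          cross q.2 (q.1.1.V (j + 1)) + q.1.2 < cross q.2 (q.1.1.V (j + 1 + 1)) :=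
        (isOpen_lt ((hcV (j + 1)).add hce) (hcV (j + 1 + 1))).mem_nhds (by
          show cross u₀ (P₀.V (j + 1)) + 0 < cross u₀ (P₀.V (j + 1 + 1))
          linarith)
      filter_upwards [e1, e2] with q hq1 hq2 p _ hp
      obtain ⟨hp1, hp2⟩ := hp rfl
      refine ⟨⟨hp1, by linarith⟩, ?_⟩
      change q.1.1.Path i l' (q.1.1.refl (j + 1) q.2,
        cross (q.1.1.refl (j + 1) q.2) (q.1.1.V (j + 1)) + cross q.2 (q.1.1.V (j + 1)) - p)
      refine hq1 (cross (q.1.1.refl (j + 1) q.2) (q.1.1.V (j + 1)) +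
        cross q.2 (q.1.1.V (j + 1)) - p) (fun _ => ?_) (fun hh => Bool.noConfusion hh)
      show cross (q.1.1.refl (j + 1) q.2) (q.1.1.V (j + 1)) - q.1.2 <
          cross (q.1.1.refl (j + 1) q.2) (q.1.1.V (j + 1)) + cross q.2 (q.1.1.V (j + 1)) - p ∧
        cross (q.1.1.refl (j + 1) q.2) (q.1.1.V (j + 1)) + cross q.2 (q.1.1.V (j + 1)) - p <
          cross (q.1.1.refl (j + 1) q.2) (q.1.1.V (j + 1))
      constructor <;> linarith

end ConvexPolygon

end Bil62
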