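import Pool.Agent.BCR.RunS

/-! BCR-TurnS: soundness of the integer checker for turning around a vertex.

Here `DComb u a b a' b'` says that the direction `u` is, up to a positive factor, a nonnegative
combination of `(a, b)` and `(a', b')`.

PLAN.
* `turn_sound`: induction on `r`, for both values of the flag.  The vertex is `V (j+1)`, the second
  end of `d₁ = ` side `j` and the first end of `d₂ =` side `j+1` (`vx, vy` its coordinates).
  `r = 0`: `run_sound`; `Comb u (cross u (V (j+1))) …` holds because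
  `t * cross u V = α (a vy - b vx) + β (a' vy - b' vx)`.
  `r + 1`: the two `decide`s give `cross u (first end) < cross u (second end)` for the combination
  `u`; the direction part of `bnc_sound` (with any offset) gives `DComb` for `refl _ u`. -/

namespace Bil62

open MeasureTheory Set

open scoped ComplexConjugate

open Chk

namespace ConvexPolygon

variable {n : ℕ} [NeZero n] {P : ConvexPolygon n}

/-- direction `u` in the cone of `(a, b)` and `(a', b')` -/
def DComb (u : ℂ) (a b a' b' : ℤ) : Prop :=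
  ∃ α β t : ℝ, 0 ≤ α ∧ 0 ≤ β ∧ 0 < α + β ∧ 0 < t ∧ t * u.re = α * a + β * a' ∧
    t * u.im = α * b + β * b'

private theorem ts_step {k : Fin n} {d : Sd} (hd : P.IsSd k d) {a b a' b' : ℤ} {u : ℂ}
    (h : a * d.ay - b * d.ax < a * d.bY - b * d.bx)
    (h' : a' * d.ay - b' * d.ax < a' * d.bY - b' * d.bx) (hu : DComb u a b a' b') :
    cross u (P.V k) < cross u (P.V (k + 1)) ∧ DComb (P.refl k u) (d.c * a + d.s * b)
      (d.s * a - d.c * b) (d.c * a' + d.s * b') (d.s * a' - d.c * b') := by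
  obtain ⟨α, β, t, hα, hβ, hαβ, ht, h1, h2⟩ := hu
  refine ⟨?_, ?_⟩
  · have e1 : t * cross u (P.V k) = α * (a * d.ay - b * d.ax) + β * (a' * d.ay - b' * d.ax) := by
      unfold cross
      rw [hd.a_re, hd.a_im]
      linear_combination (d.ay : ℝ) * h1 - (d.ax : ℝ) * h2
    have e2 : t * cross u (P.V (k + 1)) =
        α * (a * d.bY - b * d.bx) + β * (a' * d.bY - b' * d.bx) := by
      unfold cross
      rw [hd.b_re, hd.b_im]
      linear_combination (d.bY : ℝ) * h1 - (d.bx : ℝ) * h2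
    have g : (a * d.ay - b * d.ax : ℝ) < a * d.bY - b * d.bx := by exact_mod_cast h
    have g' : (a' * d.ay - b' * d.ax : ℝ) < a' * d.bY - b' * d.bx := by exact_mod_cast h'
    have key : t * cross u (P.V k) < t * cross u (P.V (k + 1)) := by
      rw [e1, e2]
      rcases hα.lt_or_eq with h3 | h3
      · have h4 := mul_lt_mul_of_pos_left g h3
        have h5 := mul_le_mul_of_nonneg_left g'.le hβ
        linarith
      · have h6 : 0 < β := by linarith
        have h4 := mul_lt_mul_of_pos_left g' h6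
        have h5 := mul_le_mul_of_nonneg_left g.le hα
        linarith
    exact lt_of_mul_lt_mul_left key ht.le
  · have hc : Comb u 0 a b 0 a' b' 0 := ⟨α, β, t, hα, hβ, hαβ, ht, h1, h2, by simp⟩
    obtain ⟨α', β', t', g1, g2, g3, g4, g5, g6, -⟩ := bnc_sound hd hc
    exact ⟨α', β', t', g1, g2, g3, g4, g5, g6⟩

private theorem ts_zero {S : List Sd} (hS : P.Tab S) {i j : Fin n} {t d₂ : Sd} (ht : P.IsSd i t)
    (h₂ : P.IsSd (j + 1) d₂) (w : ℕ) (a b a' b' : ℤ)
    (h : run S t 1000 w a b (a * d₂.ay - b * d₂.ax) a' b' (a' * d₂.ay - b' * d₂.ax) = true) :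
    ∃ l : List (Fin n), ∀ u : ℂ, DComb u a b a' b' → P.Path i l (u, cross u (P.V (j + 1))) := by
  obtain ⟨l, hl⟩ := run_sound hS ht 1000 w _ _ _ _ _ _ h
  refine ⟨l, fun u hu => hl u _ ?_⟩
  obtain ⟨α, β, t, hα, hβ, hαβ, ht, h1, h2⟩ := hu
  refine ⟨α, β, t, hα, hβ, hαβ, ht, h1, h2, ?_⟩
  unfold cross
  rw [h₂.a_re, h₂.a_im]
  push_cast
  linear_combination (d₂.ay : ℝ) * h1 - (d₂.ax : ℝ) * h2

private theorem ts_turn (S : List Sd) (t : Sd) (vx vy : ℤ) (r : ℕ) (d₁ d₂ : Sd) (w : ℕ)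
    (a b a' b' : ℤ) (h : turn S t vx vy (r + 1) d₁ d₂ w a b a' b' = true) :
    a * d₁.ay - b * d₁.ax < a * d₁.bY - b * d₁.bx ∧
      a' * d₁.ay - b' * d₁.ax < a' * d₁.bY - b' * d₁.bx ∧
      turn S t vx vy r d₂ d₁ w (d₁.c * a + d₁.s * b) (d₁.s * a - d₁.c * b)
        (d₁.c * a' + d₁.s * b') (d₁.s * a' - d₁.c * b') = true := by
  rw [turn] at h
  unfold bn at h
  simp only [Chk.frc_eq, Bool.and_eq_true, decide_eq_true_eq] at h
  exact ⟨h.1.1, h.1.2, h.2⟩

theorem turn_sound {S : List Sd} (hS : P.Tab S) {i j : Fin n} {t d₁ d₂ : Sd} (ht : P.IsSd i t)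
    (h₁ : P.IsSd j d₁) (h₂ : P.IsSd (j + 1) d₂) (r w : ℕ) (a b a' b' : ℤ) :
    (turn S t d₂.ax d₂.ay r d₁ d₂ w a b a' b' = true →
      ∃ l : List (Fin n), ∀ u : ℂ, DComb u a b a' b' → P.Turn i j true r l u) ∧
    (turn S t d₂.ax d₂.ay r d₂ d₁ w a b a' b' = true →
      ∃ l : List (Fin n), ∀ u : ℂ, DComb u a b a' b' → P.Turn i j false r l u) := by
  induction r generalizing a b a' b' with
  | zero =>
    refine ⟨fun h => ?_, fun h => ?_⟩
    · rw [turn] at h
      exact ts_zero hS ht h₂ w a b a' b' h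
    · rw [turn] at h
      exact ts_zero hS ht h₂ w a b a' b' h
  | succ r ih =>
    refine ⟨fun h => ?_, fun h => ?_⟩
    · obtain ⟨g1, g2, g3⟩ := ts_turn _ _ _ _ _ _ _ _ _ _ _ _ h
      obtain ⟨l, hl⟩ := (ih _ _ _ _).2 g3
      refine ⟨l, fun u hu => ?_⟩
      have h5 := ts_step h₁ g1 g2 hu
      exact ⟨h5.1, hl _ h5.2⟩
    · obtain ⟨g1, g2, g3⟩ := ts_turn _ _ _ _ _ _ _ _ _ _ _ _ h
      obtain ⟨l, hl⟩ := (ih _ _ _ _).1 g3
      refine ⟨l, fun u hu => ?_⟩
      have h5 := ts_step h₂ g1 g2 hu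
      exact ⟨h5.1, hl _ h5.2⟩

end ConvexPolygon

end Bil62
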