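import Pool.Agent.BCR.Defs

/-! BCR-Unf: itineraries and unfolding of polygons: the cross and dot product formulas for the
unfolding along an itinerary, its isometry property, and the exit condition in terms of the
unfolded side. -/

namespace Bil62

open MeasureTheory Set

open scoped ComplexConjugate

namespace ConvexPolygon

variable {n : ℕ} [NeZero n] (P : ConvexPolygon n)

theorem norm_itr (κ : ℕ → Fin n) (m : ℕ) (x : ℂ × ℝ) : ‖(P.itr κ m x).1‖ = ‖x.1‖ := by
  induction m with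
  | zero => rfl
  | succ m ih =>
    have e : (P.itr κ (m + 1) x).1 = P.refl (κ m) (P.itr κ m x).1 := rfl
    rw [e, P.norm_refl, ih]

theorem rpt_rpt (k : Fin n) (z : ℂ) : P.rpt k (P.rpt k z) = z := by
  have h := P.dir_mul_conj k
  unfold rpt
  simp only [map_sub, map_add, map_mul, map_pow, Complex.conj_conj]
  have e : P.V k + P.dir k ^ 2 * (conj (P.V k) + conj (P.dir k) ^ 2 * (z - P.V k) - conj (P.V k))
      = P.V k + (P.dir k * conj (P.dir k)) ^ 2 * (z - P.V k) := by ring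
  rw [e, h]
  ring

theorem unf_cross (κ : ℕ → Fin n) (m : ℕ) (x : ℂ × ℝ) (z : ℂ) :
    cross x.1 (P.unf κ m z) - x.2 = (-1) ^ m * (cross (P.itr κ m x).1 z - (P.itr κ m x).2) := by
  induction m generalizing z with
  | zero => simp [unf, itr]
  | succ m ih =>
    have e1 : P.unf κ (m + 1) z = P.unf κ m (P.rpt (κ m) z) := rfl
    have e2 : (P.itr κ (m + 1) x).1 = P.refl (κ m) (P.itr κ m x).1 := rfl
    have e3 : (P.itr κ (m + 1) x).2 = cross (P.refl (κ m) (P.itr κ m x).1) (P.V (κ m)) +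
        cross (P.itr κ m x).1 (P.V (κ m)) - (P.itr κ m x).2 := rfl
    have h := P.cross_refl_rpt (κ m) (P.itr κ m x).1 (P.rpt (κ m) z)
    rw [P.rpt_rpt] at h
    rw [e1, ih, e2, e3, h, pow_succ]
    ring

theorem unf_dot (κ : ℕ → Fin n) (m : ℕ) (x : ℂ × ℝ) (z w : ℂ) :
    dot x.1 (P.unf κ m z - P.unf κ m w) = dot (P.itr κ m x).1 (z - w) := by
  induction m generalizing z w with
  | zero => rfl
  | succ m ih =>
    have e1 : ∀ z, P.unf κ (m + 1) z = P.unf κ m (P.rpt (κ m) z) := fun _ => rfl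
    have e2 : (P.itr κ (m + 1) x).1 = P.refl (κ m) (P.itr κ m x).1 := rfl
    have h := P.dot_refl (κ m) (P.itr κ m x).1 (P.rpt (κ m) z) (P.rpt (κ m) w)
    rw [P.rpt_rpt, P.rpt_rpt] at h
    rw [e1, e1, ih, e2, h]

theorem unf_norm (κ : ℕ → Fin n) (m : ℕ) (z w : ℂ) :
    ‖P.unf κ m z - P.unf κ m w‖ = ‖z - w‖ := by
  induction m generalizing z w with
  | zero => rfl
  | succ m ih =>
    have e1 : ∀ z, P.unf κ (m + 1) z = P.unf κ m (P.rpt (κ m) z) := fun _ => rfl
    have e2 : P.rpt (κ m) z - P.rpt (κ m) w = P.refl (κ m) (z - w) := by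
      unfold rpt refl
      simp only [map_sub]
      ring
    rw [e1, e1, ih, e2, P.norm_refl]

theorem unf_congr {κ κ' : ℕ → Fin n} {m : ℕ} (h : ∀ a < m, κ a = κ' a) (z : ℂ) :
    P.unf κ m z = P.unf κ' m z := by
  induction m generalizing z with
  | zero => rfl
  | succ m ih =>
    have e1 : P.unf κ (m + 1) z = P.unf κ m (P.rpt (κ m) z) := rfl
    have e2 : P.unf κ' (m + 1) z = P.unf κ' m (P.rpt (κ' m) z) := rfl
    rw [e1, e2, h m (Nat.lt_succ_self m)]
    exact ih (fun a ha => h a (Nat.lt_succ_of_lt ha)) _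

theorem itr_congr {κ κ' : ℕ → Fin n} {m : ℕ} (h : ∀ a < m, κ a = κ' a) (x : ℂ × ℝ) :
    P.itr κ m x = P.itr κ' m x := by
  induction m with
  | zero => rfl
  | succ m ih =>
    have e1 : P.itr κ (m + 1) x = P.bnc (κ m) (P.itr κ m x) := rfl
    have e2 : P.itr κ' (m + 1) x = P.bnc (κ' m) (P.itr κ' m x) := rfl
    rw [e1, e2, h m (Nat.lt_succ_self m), ih (fun a ha => h a (Nat.lt_succ_of_lt ha))]

theorem unf_succ_pt (κ : ℕ → Fin n) (m : ℕ) (s : ℝ) :
    P.unf κ (m + 1) (P.pt (κ m) s) = P.unf κ m (P.pt (κ m) s) := by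
  have e1 : P.unf κ (m + 1) (P.pt (κ m) s) = P.unf κ m (P.rpt (κ m) (P.pt (κ m) s)) := rfl
  rw [e1, P.rpt_pt]

theorem unf_succ_V (κ : ℕ → Fin n) (m : ℕ) :
    P.unf κ (m + 1) (P.V (κ m)) = P.unf κ m (P.V (κ m)) := by
  have h := P.unf_succ_pt κ m 0
  have e : P.pt (κ m) 0 = P.V (κ m) := by
    unfold pt
    simp
  rwa [e] at h

theorem unf_succ_V' (κ : ℕ → Fin n) (m : ℕ) :
    P.unf κ (m + 1) (P.V (κ m + 1)) = P.unf κ m (P.V (κ m + 1)) := by
  have h := P.unf_succ_pt κ m (P.len (κ m))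
  have e : P.pt (κ m) (P.len (κ m)) = P.V (κ m + 1) := by
    unfold pt
    rw [P.V_succ]
  rwa [e] at h

/-- the exit condition at time `m` in terms of the unfolded side -/
theorem exit_unf (κ : ℕ → Fin n) (m : ℕ) (x : ℂ × ℝ) (k : Fin n) :
    P.Exit (P.itr κ m x).1 (P.itr κ m x).2 k ↔
      (-1) ^ m * (cross x.1 (P.unf κ m (P.V k)) - x.2) < 0 ∧
      0 < (-1) ^ m * (cross x.1 (P.unf κ m (P.V (k + 1))) - x.2) := by
  have hs : ((-1 : ℝ)) ^ m * (-1) ^ m = 1 := by
    rw [← mul_pow]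
    simp
  rw [P.unf_cross κ m x, P.unf_cross κ m x, ← mul_assoc, ← mul_assoc, hs, one_mul, one_mul]
  unfold Exit
  constructor
  · rintro ⟨h1, h2⟩
    exact ⟨by linarith, by linarith⟩
  · rintro ⟨h1, h2⟩
    exact ⟨by linarith, by linarith⟩

end ConvexPolygon

end Bil62
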